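import Mathlib
import Pool.Agent.H76.Sp.Flip
import Pool.Agent.H76.Sp.RowK

set_option autoImplicit false
open Finset

/-! # The exact expansion of a weighted sum over the labels of a row and the ties, any functional

`Φ` any function of the configuration. `AF Φ x0 y0 a b ω` : sum over the states of the row of `N` tiles
with the weights `a`, `b`; `cA' S a`, `cB' S b` : coupons at `S`, general weights elsewhere. The columns of
`F` have fixed weights, the others `a + κ`, `b - κ`. -/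

namespace Pool.Agent.H76.W

open Pool.Agent.H75.Perc hiding AR VV
open Pool.Agent.H75.TwoArm hiding EF
open Pool.Agent.H99.NC
open Pool.Agent.Q1 Pool.Agent.H33.Q1
open Pool.Agent.H81.G1 Pool.Agent.Q1.M6b.Gd Pool.Agent.H76.R45 Pool.Agent.H76.Sp
open Pool.Agent.H30.Mid

/-! ### Sums over the states of a set of labels -/

section states

variable {ι : Type*} [Fintype ι] [DecidableEq ι] {lb : ι → ℤ × ℤ}

lemma mem_osn' (hinj : Function.Injective lb) (p s : ι → Bool) (i : ι) :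
    lb i ∈ osn lb p s ↔ s i = p i := by
  unfold osn
  rw [mem_image]
  constructor
  · rintro ⟨j, hj, h⟩
    rw [mem_filter] at hj
    rw [← hinj h]; exact hj.2
  · intro h; exact ⟨i, by rw [mem_filter]; exact ⟨mem_univ _, h⟩, rfl⟩

lemma osn_sub' (p s : ι → Bool) : osn lb p s ⊆ univ.image lb := by
  intro e he
  unfold osn at he
  obtain ⟨i, -, rfl⟩ := mem_image.1 he
  exact mem_image_of_mem _ (mem_univ _)

/-- sums over the configurations of a set of labels = sums over the states -/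
theorem Ec_states' (hinj : Function.Injective lb) (p : ι → Bool) (q : ℤ × ℤ → ℂ)
    (F : Finset (ℤ × ℤ) → ℂ) : Ec q (univ.image lb) F =
      ∑ s : ι → Bool, (∏ i, if s i then wB lb p q i else wA lb p q i) * F (osn lb p s) := by
  unfold Ec
  refine Finset.sum_bij' (i := fun ω _ => stt lb p ω) (j := fun s _ => osn lb p s) ?_ ?_ ?_ ?_ ?_
  · intro ω _; exact mem_univ _
  · intro s _; exact mem_powerset.2 (osn_sub' p s)
  · intro ω hω
    ext e
    constructor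
    · intro he
      obtain ⟨i, -, rfl⟩ := mem_image.1 (osn_sub' _ _ he)
      rw [mem_osn' hinj] at he
      unfold stt at he
      by_contra h
      cases hp : p i <;> simp [h, hp] at he
    · intro he
      obtain ⟨i, -, rfl⟩ := mem_image.1 (mem_powerset.1 hω he)
      rw [mem_osn' hinj]
      unfold stt
      cases hp : p i <;> simp [he]
  · intro s _
    funext i
    have h := mem_osn' hinj p s i
    unfold stt
    cases hp : p i <;> cases hs : s i <;> simp [h, hp, hs]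
  · intro ω hω
    have hω := mem_powerset.1 hω
    have hw : wtc q (univ.image lb) ω = ∏ i, (if stt lb p ω i then wB lb p q i else wA lb p q i) := by
      unfold wtc
      have e1 : ω = (univ.image lb).filter (fun e => e ∈ ω) := by
        ext e; rw [mem_filter]; exact ⟨fun h => ⟨hω h, h⟩, fun h => h.2⟩
      have e2 : (univ.image lb) \ ω = (univ.image lb).filter (fun e => ¬ e ∈ ω) := by
        ext e; rw [mem_filter, mem_sdiff]
      have e3 : (∏ e ∈ ω, q e) * ∏ e ∈ (univ.image lb) \ ω, (1 - q e) =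
          ∏ e ∈ univ.image lb, (if e ∈ ω then q e else 1 - q e) := by
        rw [Finset.prod_ite, ← e2, ← e1]
      rw [e3, Finset.prod_image (fun a _ b _ h => hinj h)]
      refine Finset.prod_congr rfl fun i _ => ?_
      unfold stt wA wB
      by_cases h : lb i ∈ ω <;> cases hp : p i <;> simp [h]
    have hosn : osn lb p (stt lb p ω) = ω := by
      ext e
      constructor
      · intro he
        obtain ⟨i, -, rfl⟩ := mem_image.1 (osn_sub' _ _ he)
        rw [mem_osn' hinj] at he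
        unfold stt at he
        by_contra h
        cases hp : p i <;> simp [h, hp] at he
      · intro he
        obtain ⟨i, -, rfl⟩ := mem_image.1 (hω he)
        rw [mem_osn' hinj]
        unfold stt
        cases hp : p i <;> simp [he]
    rw [hw, hosn]

end states

/-! ### The row -/

variable {N : ℕ} {x0 y0 : ℤ}

/-- sum over the states of the row -/
noncomputable def AF (Φ : Finset (ℤ × ℤ) → ℂ) (x0 y0 : ℤ) (a b : Fin N → ℂ)
    (ω : Finset (ℤ × ℤ)) : ℂ :=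
  ∑ s : Fin N → Bool, (∏ i, if s i then b i else a i) * Φ (osn (rl x0 y0) (rp x0 y0) s ∪ ω)

/-- the amplitude of an environment -/
lemma AR_AF {X : Env} (h : HasRow X N x0 y0) (y : Fin N × Dir) (a b : Fin N → ℂ)
    {ω : Finset (ℤ × ℤ)} (hω : ω ⊆ X.E \ RS N x0 y0) :
    AR X x0 y0 y a b ω = AF (fun ζ => X.incO ζ (rcr x0 y0 y)) x0 y0 a b ω := by
  unfold AR AF
  refine sum_congr rfl fun s _ => ?_
  congr 1
  have hs : osn (rl x0 y0) (rp x0 y0) s ⊆ RS N x0 y0 := osn_sub' _ _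
  rw [Env.freeze_incO (subset_inter (hs.trans h) hs), inter_eq_left.2 hω]

/-- **The weighted sum through the row.** -/
theorem Ec_rowF (q : ℤ × ℤ → ℂ) {R : Finset (ℤ × ℤ)} (hd : Disjoint (RS N x0 y0) R)
    (Φ : Finset (ℤ × ℤ) → ℂ) : Ec q (RS N x0 y0 ∪ R) Φ =
      Ec q R (AF Φ x0 y0 (wA (rl (N := N) x0 y0) (rp x0 y0) q)
        (wB (rl (N := N) x0 y0) (rp x0 y0) q)) := by
  rw [Ec_union q hd, Ec_swap]
  refine Ec_congr fun ω _ => ?_
  unfold AF RS
  rw [Ec_states' (rl_inj x0 y0) (rp x0 y0)]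

lemma AF_add (Φ Ψ : Finset (ℤ × ℤ) → ℂ) (a b : Fin N → ℂ) (ω : Finset (ℤ × ℤ)) :
    AF (fun ζ => Φ ζ + Ψ ζ) x0 y0 a b ω = AF Φ x0 y0 a b ω + AF Ψ x0 y0 a b ω := by
  unfold AF
  rw [← sum_add_distrib]
  exact sum_congr rfl fun s _ => by ring

lemma AF_smul (c : ℂ) (Φ : Finset (ℤ × ℤ) → ℂ) (a b : Fin N → ℂ) (ω : Finset (ℤ × ℤ)) :
    AF (fun ζ => c * Φ ζ) x0 y0 a b ω = c * AF Φ x0 y0 a b ω := by
  unfold AF
  rw [mul_sum]
  exact sum_congr rfl fun s _ => by ring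

lemma AF_sum {κ : Type*} (I : Finset κ) (Φ : κ → Finset (ℤ × ℤ) → ℂ) (a b : Fin N → ℂ)
    (ω : Finset (ℤ × ℤ)) :
    AF (fun ζ => ∑ i ∈ I, Φ i ζ) x0 y0 a b ω = ∑ i ∈ I, AF (Φ i) x0 y0 a b ω := by
  unfold AF
  simp only [mul_sum]
  exact sum_comm

/-- the string is summed inside of the row -/
lemma AF_Ec (q : ℤ × ℤ → ℂ) (Str : Finset (ℤ × ℤ)) (Φ : Finset (ℤ × ℤ) → ℂ) (a b : Fin N → ℂ)
    (ω : Finset (ℤ × ℤ)) :
    AF (fun ζ => Ec q Str (fun τ => Φ (ζ ∪ τ))) x0 y0 a b ω =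
      Ec q Str (fun τ => AF Φ x0 y0 a b (ω ∪ τ)) := by
  unfold AF
  rw [Ec_sum]
  refine sum_congr rfl fun s _ => ?_
  rw [Ec_smul]
  congr 1
  exact Ec_congr fun τ _ => by rw [union_assoc]

/-- the amplitude depends only on the values of the functional -/
lemma AF_congr {Φ Ψ : Finset (ℤ × ℤ) → ℂ} {a b : Fin N → ℂ} {ω ω' : Finset (ℤ × ℤ)}
    (h : ∀ ρ, ρ ⊆ RS N x0 y0 → Φ (ρ ∪ ω) = Ψ (ρ ∪ ω')) :
    AF Φ x0 y0 a b ω = AF Ψ x0 y0 a b ω' := by
  unfold AF
  exact sum_congr rfl fun s _ => by rw [h _ (osn_sub' _ _)]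

/-! ### Coupons -/

/-- coupons at `S` -/
def cA' (S : Finset (Fin N)) (a : Fin N → ℂ) (i : Fin N) : ℂ := if i ∈ S then 1 else a i

/-- coupons at `S` -/
def cB' (S : Finset (Fin N)) (b : Fin N → ℂ) (i : Fin N) : ℂ := if i ∈ S then -1 else b i

/-- **The expansion in coupons**, the columns of `F` are kept. -/
theorem AF_coupons (Φ : Finset (ℤ × ℤ) → ℂ) (x0 y0 : ℤ) (a b : Fin N → ℂ) (κ : ℂ)
    (F : Finset (Fin N)) (ω : Finset (ℤ × ℤ)) :
    AF Φ x0 y0 (fun i => if i ∈ F then a i else a i + κ) (fun i => if i ∈ F then b i else b i - κ) ω =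
      ∑ m ∈ range (N + 1), κ ^ m * ∑ S ∈ powersetCard m (univ \ F),
        AF Φ x0 y0 (cA' S a) (cB' S b) ω := by
  have h := coupons (N := N) a b (fun i => if i ∈ F then 0 else κ)
    (fun s => Φ (osn (rl x0 y0) (rp x0 y0) s ∪ ω))
  have e1 : AF Φ x0 y0 (fun i => if i ∈ F then a i else a i + κ)
      (fun i => if i ∈ F then b i else b i - κ) ω =
      ∑ s : Fin N → Bool, (∏ i, if s i then b i - (if i ∈ F then 0 else κ) else
        a i + (if i ∈ F then 0 else κ)) * Φ (osn (rl x0 y0) (rp x0 y0) s ∪ ω) := by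
    unfold AF
    refine sum_congr rfl fun s _ => ?_
    congr 1
    refine prod_congr rfl fun i _ => ?_
    by_cases h1 : s i = true <;> by_cases h2 : i ∈ F <;> simp [h1, h2]
  rw [e1, h]
  have e2 : ∀ S : Finset (Fin N), (∏ i ∈ S, if i ∈ F then (0 : ℂ) else κ) =
      if S ⊆ univ \ F then κ ^ S.card else 0 := by
    intro S
    split_ifs with hS
    · rw [prod_congr rfl (fun i hi => if_neg (mem_sdiff.1 (hS hi)).2), prod_const]
    · obtain ⟨i, hi, hi'⟩ := not_subset.1 hS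
      refine prod_eq_zero hi ?_
      rw [if_pos]
      by_contra hF
      exact hi' (mem_sdiff.2 ⟨mem_univ _, hF⟩)
  simp only [e2]
  have e3 : ∀ S : Finset (Fin N), (∑ s : Fin N → Bool,
      (∏ i, if s i then (if i ∈ S then (-1 : ℂ) else b i) else if i ∈ S then 1 else a i) *
        Φ (osn (rl x0 y0) (rp x0 y0) s ∪ ω)) = AF Φ x0 y0 (cA' S a) (cB' S b) ω := fun S => rfl
  simp only [e3, ite_mul, zero_mul]
  rw [← sum_filter]
  have e4 : (univ : Finset (Finset (Fin N))).filter (fun S => S ⊆ univ \ F) = (univ \ F).powerset := by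
    ext S; simp
  have e5 : ∑ S ∈ (univ \ F).powerset, κ ^ S.card * AF Φ x0 y0 (cA' S a) (cB' S b) ω =
      ∑ m ∈ range ((univ \ F).card + 1), κ ^ m * ∑ S ∈ powersetCard m (univ \ F),
        AF Φ x0 y0 (cA' S a) (cB' S b) ω := by
    rw [sum_powerset]
    refine sum_congr rfl fun m _ => ?_
    rw [mul_sum]
    refine sum_congr rfl fun S hS => ?_
    rw [(mem_powersetCard.1 hS).2]
  rw [e4, e5]
  have hc : (univ \ F : Finset (Fin N)).card ≤ N := by
    calc (univ \ F : Finset (Fin N)).card ≤ (univ : Finset (Fin N)).card :=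
          card_le_card sdiff_subset
      _ = N := by rw [card_univ, Fintype.card_fin]
  refine sum_subset (range_subset_range.2 (by omega)) fun m _ hm => ?_
  rw [mem_range] at hm
  rw [powersetCard_eq_empty.2 (by omega), sum_empty, mul_zero]

/-! ### The expansion -/

variable {K : Type*} [Fintype K] [DecidableEq K]

/-- the coefficients of the expansion -/
noncomputable def HF (Φ : Finset (ℤ × ℤ) → ℂ) (x0 y0 : ℤ) (a b : Fin N → ℂ) (F : Finset (Fin N))
    (A : Finset (ℤ × ℤ)) (kd : ℤ × ℤ → K) (Bk : Finset (ℤ × ℤ))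
    (st : Finset (ℤ × ℤ) → Finset (ℤ × ℤ)) (m : ℕ) (l : K → ℕ) (s : Finset (ℤ × ℤ)) : ℂ :=
  ∑ v ∈ PK A kd l, alt v (fun T => Ec (fun _ => (1 / 2 : ℂ)) Bk
    (fun ω => ∑ S ∈ powersetCard m (univ \ F), AF Φ x0 y0 (cA' S a) (cB' S b) (ω ∪ st T ∪ s)))

variable {Φ : Finset (ℤ × ℤ) → ℂ} {a b : Fin N → ℂ} {F : Finset (Fin N)} {q : ℤ × ℤ → ℂ} {κ : ℂ}
  {C A Bk Fr : Finset (ℤ × ℤ)} {kd : ℤ × ℤ → K} {lam : K → ℂ} {st : Finset (ℤ × ℤ) → Finset (ℤ × ℤ)}

/-- too many cut ties of one kind -/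
lemma HF_zero (Bk : Finset (ℤ × ℤ)) (m : ℕ) {l : K → ℕ} (s : Finset (ℤ × ℤ)) {k : K}
    (hl : A.card < l k) : HF Φ x0 y0 a b F A kd Bk st m l s = 0 := by
  unfold HF
  rw [PK_empty hl, sum_empty]

/-- too many coupons -/
lemma HF_zero' (Bk : Finset (ℤ × ℤ)) {m : ℕ} (l : K → ℕ) (s : Finset (ℤ × ℤ)) (hm : N < m) :
    HF Φ x0 y0 a b F A kd Bk st m l s = 0 := by
  unfold HF
  refine sum_eq_zero fun v _ => ?_
  unfold alt
  refine sum_eq_zero fun T _ => ?_
  have hc : (univ \ F : Finset (Fin N)).card ≤ N := by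
    calc (univ \ F : Finset (Fin N)).card ≤ (univ : Finset (Fin N)).card :=
          card_le_card sdiff_subset
      _ = N := by rw [card_univ, Fintype.card_fin]
  rw [powersetCard_eq_empty.2 (by omega)]
  simp only [sum_empty]
  rw [Ec_const, mul_zero]

/-- **The exact expansion of a weighted sum**, the row has the weights `a`, `b` at the columns of `F` and
`a + κ`, `b - κ` elsewhere. -/
theorem expandG (hFr : Fr ⊆ A) (hst : ∀ T, T ⊆ A → st T = symmDiff T Fr)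
    (hd1 : Disjoint C (A ∪ Bk)) (hd2 : Disjoint A Bk) (hT : ∀ e ∈ A, e ∉ Fr → q e = lam (kd e))
    (hT' : ∀ e ∈ Fr, q e = 1 - lam (kd e)) (hB : ∀ e ∈ Bk, q e = 1 / 2) {M L : ℕ} (hM : N ≤ M)
    (hL : A.card ≤ L) :
    Ec q (C ∪ (A ∪ Bk)) (AF Φ x0 y0 (fun c => if c ∈ F then a c else a c + κ)
        (fun c => if c ∈ F then b c else b c - κ)) =
      ∑ m ∈ range (M + 1), ∑ l ∈ IL K (L + 1), ∑ s ∈ C.powerset,
        κ ^ m * (∏ k, lam k ^ l k) * ((∏ e ∈ s, q e) * ∏ e ∈ C \ s, (1 - q e)) *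
          HF Φ x0 y0 a b F A kd Bk st m l s := by
  have key : Ec q (C ∪ (A ∪ Bk)) (AF Φ x0 y0 (fun c => if c ∈ F then a c else a c + κ)
        (fun c => if c ∈ F then b c else b c - κ)) =
      ∑ m ∈ range (N + 1), ∑ l ∈ IL K (A.card + 1), ∑ s ∈ C.powerset,
        κ ^ m * (∏ k, lam k ^ l k) * ((∏ e ∈ s, q e) * ∏ e ∈ C \ s, (1 - q e)) *
          HF Φ x0 y0 a b F A kd Bk st m l s := by
    rw [Ec_congr (G := fun ω => ∑ m ∈ range (N + 1), κ ^ m * ∑ S ∈ powersetCard m (univ \ F),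
      AF Φ x0 y0 (cA' S a) (cB' S b) ω) (fun ω _ => AF_coupons Φ x0 y0 a b κ F ω),
      expandT_poly hFr hst hd1 hd2 hT hT' hB]
    rfl
  rw [key]
  rw [sum_subset (range_subset_range.2 (by omega : N + 1 ≤ M + 1)) (fun m _ hm => ?_)]
  · refine sum_congr rfl fun m _ => ?_
    refine sum_subset (IL_mono (by omega)) fun l _ hl => ?_
    rw [mem_IL, not_forall] at hl
    obtain ⟨k, hk⟩ := hl
    refine sum_eq_zero fun s _ => ?_
    rw [HF_zero (k := k) Bk m s (by omega), mul_zero]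
  · rw [mem_range] at hm
    refine sum_eq_zero fun l _ => sum_eq_zero fun s _ => ?_
    rw [HF_zero' Bk l s (by omega), mul_zero]

/-- **The exact expansion of a weighted sum.** -/
theorem expandF (hd0 : Disjoint (RS N x0 y0) (C ∪ (A ∪ Bk)))
    (ha : ∀ c, wA (rl (N := N) x0 y0) (rp x0 y0) q c = if c ∈ F then a c else a c + κ)
    (hb : ∀ c, wB (rl (N := N) x0 y0) (rp x0 y0) q c = if c ∈ F then b c else b c - κ)
    (hFr : Fr ⊆ A) (hst : ∀ T, T ⊆ A → st T = symmDiff T Fr)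
    (hd1 : Disjoint C (A ∪ Bk)) (hd2 : Disjoint A Bk) (hT : ∀ e ∈ A, e ∉ Fr → q e = lam (kd e))
    (hT' : ∀ e ∈ Fr, q e = 1 - lam (kd e)) (hB : ∀ e ∈ Bk, q e = 1 / 2) {M L : ℕ} (hM : N ≤ M)
    (hL : A.card ≤ L) :
    Ec q (RS N x0 y0 ∪ (C ∪ (A ∪ Bk))) Φ =
      ∑ m ∈ range (M + 1), ∑ l ∈ IL K (L + 1), ∑ s ∈ C.powerset,
        κ ^ m * (∏ k, lam k ^ l k) * ((∏ e ∈ s, q e) * ∏ e ∈ C \ s, (1 - q e)) *
          HF Φ x0 y0 a b F A kd Bk st m l s := by
  rw [Ec_rowF q hd0 Φ, show wA (rl (N := N) x0 y0) (rp x0 y0) q =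
      (fun c => if c ∈ F then a c else a c + κ) from funext ha,
      show wB (rl (N := N) x0 y0) (rp x0 y0) q = (fun c => if c ∈ F then b c else b c - κ) from
        funext hb]
  exact expandG hFr hst hd1 hd2 hT hT' hB hM hL

/-! ### The bound of the coefficients -/

/-- **The bound of the coefficients** from the toggles and the frozen bound. -/
theorem HF_bound {l : K → ℕ} {m : ℕ} {s : Finset (ℤ × ℤ)}
    {B : Finset (ℤ × ℤ) → ℤ × ℤ → Finset (ℤ × ℤ)}
    {P1 : Finset (ℤ × ℤ) → ℤ × ℤ → Finset (ℤ × ℤ) → Prop} {M : ℝ}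
    {ρ : Finset (ℤ × ℤ) → ℤ × ℤ → ℝ} (hM0 : 0 ≤ M)
    (hB : ∀ v ∈ PK A kd l, ∀ x ∈ v, B v x ⊆ Bk)
    (hd : ∀ v ∈ PK A kd l, ∀ x ∈ v, ∀ y ∈ v, x ≠ y → Disjoint (B v x) (B v y))
    (hρ : ∀ v ∈ powersetCard (∑ k, l k) A, ∀ x ∈ v, 0 ≤ ρ v x)
    (hP : ∀ v ∈ PK A kd l, ∀ x ∈ v, PrP (fun _ => (1 / 2 : ℝ)) (B v x) (P1 v x) ≤ ρ v x)
    (htog : ∀ v ∈ PK A kd l, ∀ x ∈ v, ∀ T, T ⊆ v → x ∉ T → ∀ ω, ω ⊆ Bk →
      ¬ P1 v x (ω ∩ B v x) → ∀ r, r ⊆ RS N x0 y0 →
        Φ (r ∪ (ω ∪ st T ∪ s)) = Φ (r ∪ (ω ∪ st (insert x T) ∪ s)))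
    (hfr : ∀ v ∈ PK A kd l, ∀ ξ, ξ ⊆ v.biUnion (B v) → ∀ T, T ⊆ v →
      ‖Ec (fun _ => (1 / 2 : ℂ)) (Bk \ v.biUnion (B v)) (fun ω =>
        ∑ S ∈ powersetCard m (univ \ F), AF Φ x0 y0 (cA' S a) (cB' S b)
          (ω ∪ (ξ ∪ st T ∪ s)))‖ ≤ M) :
    ‖HF Φ x0 y0 a b F A kd Bk st m l s‖ ≤ 2 ^ (∑ k, l k) * M *
      ∑ v ∈ powersetCard (∑ k, l k) A, ∏ x ∈ v, ρ v x := by
  unfold HF
  refine ties_sumV (Bk := Bk) (Wt := A) (V := PK A kd l) (PK_sub A kd l) (B := B) (P1 := P1)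
    (G := fun T ω => ∑ S ∈ powersetCard m (univ \ F),
      AF Φ x0 y0 (cA' S a) (cB' S b) (ω ∪ st T ∪ s)) hM0 hB hd hρ hP ?_ ?_
  · intro v hv x hx T hT hxT ω hω hQ
    refine sum_congr rfl fun S _ => ?_
    exact AF_congr fun r hr => htog v hv x hx T hT hxT ω hω hQ r hr
  · intro v hv ξ hξ _ T hT
    have h3 := hfr v hv ξ hξ T hT
    have e5 : ∀ ω : Finset (ℤ × ℤ), ξ ∪ ω ∪ st T ∪ s = ω ∪ (ξ ∪ st T ∪ s) := by
      intro ω
      ext e
      simp only [mem_union]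
      tauto
    simp only [e5]
    exact h3

end Pool.Agent.H76.W
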