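import Mathlib
import Pool.Agent.Q1.M6b.Asm2
import Pool.Agent.H76.W.ExpF

set_option autoImplicit false
open Finset

/-! # G1 for a straight row with one fixed coupon at the mark

The fixed coupon is in the column of the position `0`, the `m` free coupons are at the other positions.
The data are asked only for the stopping intervals which do not contain `0`. -/

namespace Pool.Agent.H76.W

open Pool.Agent.H75.Perc hiding AR VV
open Pool.Agent.H99.NC Pool.Agent.Q1 Pool.Agent.Q1.M6c Pool.Agent.Q1.M6b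
open Pool.Agent.H81.NC hiding cells cs
open Pool.Agent.Q1.M6b.Gd Pool.Agent.Q1.M6b.Gl Pool.Agent.H30.Mid Pool.Agent.H81.G1

/-- a window of positive level does not contain the mark -/
lemma zero_win {b K : ℤ} (hb : 2 ≤ b) (hK : 2 ≤ K) {S m N : ℕ} {k : Fin m → ℕ × ℤ}
    (hk : k ∈ cells b K S m N) (i : Fin m) (h1 : (k i).1 ≠ 0) : (0 : ℤ) ∉ dy b (k i).1 (k i).2 := by
  classical
  unfold cells at hk
  obtain ⟨j, -, rfl⟩ := mem_image.1 hk
  change lev b K _ S j i ≠ 0 at h1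
  have h2 : lvt b K {-1, (N : ℤ)} S j i ≠ 0 := by unfold lev at h1; omega
  have h3 := (key_sep hb (by omega) h2).2 (-1) (by simp)
  intro h0
  rw [mem_dy hb] at h0
  unfold key at h0
  simp only at h0
  rw [Int.zero_ediv] at h0
  unfold M6b.Sep at h3
  rw [← h0] at h3
  have hp : (0 : ℤ) < b ^ lev b K {-1, (N : ℤ)} S j i := by positivity
  have h5 : (-1 : ℤ) / b ^ lev b K {-1, (N : ℤ)} S j i = -1 := by
    rw [Int.ediv_eq_iff_of_pos hp]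
    have : (1 : ℤ) ≤ b ^ lev b K {-1, (N : ℤ)} S j i := hp
    constructor <;> linarith
  rw [h5] at h3
  norm_num at h3
  omega

/-- either all tuples of a product of stopping intervals contain the mark or none -/
lemma zero_cols {b K : ℤ} (hb : 2 ≤ b) (hK : 2 ≤ K) {S m₁ m₂ N₁ N₂ : ℕ} {k₁ : Fin m₁ → ℕ × ℤ}
    {k₂ : Fin m₂ → ℕ × ℤ} (hk₁ : k₁ ∈ cells b K S m₁ N₁) (hk₂ : k₂ ∈ cells b K S m₂ N₂)
    {L : Fin m₁ ⊕ Fin m₂ → ℕ} (hL : L ∈ Lev (lv2 k₁ k₂)) {y : Fin m₁ ⊕ Fin m₂ → ℤ}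
    (hy : y ∈ Num b (lv2 k₁ k₂) (nu2 k₁ k₂) L) :
    (∀ x ∈ Bo b L y, (0 : ℤ) ∉ cols2 x) ∨ (∀ x ∈ Bo b L y, (0 : ℤ) ∈ cols2 x) := by
  classical
  by_cases h : ∀ x ∈ Bo b L y, (0 : ℤ) ∉ cols2 x
  · exact Or.inl h
  refine Or.inr ?_
  push Not at h
  obtain ⟨x, hx, h0⟩ := h
  rw [mem_Bo] at hx
  -- the columns of the left part are not `0`
  have hleft : ∀ i : Fin m₁, 0 ≤ x (Sum.inl i) := by
    intro i
    have e1 := hx (Sum.inl i)
    have e2 := mem_Num.1 hy (Sum.inl i)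
    have e3 := mem_Lev.1 hL (Sum.inl i)
    change L (Sum.inl i) ≤ (k₁ i).1 at e3
    change y (Sum.inl i) ∈ dy b ((k₁ i).1 - L (Sum.inl i)) (k₁ i).2 at e2
    unfold cells at hk₁
    obtain ⟨j, hj, hjk⟩ := mem_image.1 hk₁
    have hjin := (mem_inc.1 hj).1 i
    have e4 : (k₁ i).2 = j i / b ^ (k₁ i).1 := by rw [← hjk]; rfl
    have hp : (0 : ℤ) < b ^ (k₁ i).1 := by positivity
    have e5 : 0 ≤ (k₁ i).2 := by rw [e4]; exact Int.ediv_nonneg hjin.1 hp.le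
    rw [mem_dy hb] at e1 e2
    have hp2 : (0 : ℤ) < b ^ ((k₁ i).1 - L (Sum.inl i)) := by positivity
    have hp3 : (0 : ℤ) < b ^ L (Sum.inl i) := by positivity
    have e6 : 0 ≤ y (Sum.inl i) := by
      by_contra hneg
      push Not at hneg
      have := Int.ediv_neg_of_neg_of_pos hneg hp2
      omega
    by_contra hneg
    push Not at hneg
    have := Int.ediv_neg_of_neg_of_pos hneg hp3
    omega
  have hr : ∃ i : Fin m₂, x (Sum.inr i) = 0 := by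
    unfold cols2 cols at h0
    rw [mem_union, mem_image, mem_image] at h0
    rcases h0 with ⟨i, -, hi⟩ | ⟨i, -, hi⟩
    · have := hleft i
      simp only at hi
      omega
    · exact ⟨i, hi⟩
  obtain ⟨i, hi⟩ := hr
  have e1 := hx (Sum.inr i)
  rw [hi] at e1
  have e2 := mem_Num.1 hy (Sum.inr i)
  have e3 := mem_Lev.1 hL (Sum.inr i)
  change L (Sum.inr i) ≤ (k₂ i).1 at e3
  change y (Sum.inr i) ∈ dy b ((k₂ i).1 - L (Sum.inr i)) (k₂ i).2 at e2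
  have hL0 : L (Sum.inr i) = 0 := by
    by_contra hne
    have h5 : (k₂ i).1 ≠ 0 := by omega
    refine zero_win hb hK hk₂ i h5 ?_
    rw [mem_dy hb] at e1 e2 ⊢
    have e6 : (k₂ i).1 = L (Sum.inr i) + ((k₂ i).1 - L (Sum.inr i)) := by omega
    rw [e6, pow_add, ← Int.ediv_ediv_of_nonneg (by positivity), e1, e2]
  intro x' hx'
  rw [mem_Bo] at hx'
  have e4 := hx' (Sum.inr i)
  rw [hL0, mem_dy hb, pow_zero, Int.ediv_one] at e4 e1
  unfold cols2 cols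
  rw [mem_union, mem_image, mem_image]
  exact Or.inr ⟨i, mem_univ _, by rw [e4, ← e1]⟩

/-- arithmetic of the final bound, any exponents -/
lemma final_arith' {m : ℕ} {c1 c2 A Cf Cg F G n R p1 p2 : ℝ} (hc1 : 0 ≤ c1) (hc2 : 0 ≤ c2)
    (hA : 0 ≤ A) (hCf : 0 ≤ Cf) (hF0 : 0 ≤ F) (hG0 : 0 ≤ G) (hn : 0 ≤ n) (hR : 1 ≤ R)
    (hnA : n ≤ A * R) (hF : F ≤ Cf * R ^ (2 * p1)) (hG : G ≤ Cg * R ^ p2) :
    (m + 1) * (c1 ^ m * (F ^ (1 / 2 : ℝ) * G) * (c2 * cr n ^ 2) ^ m) ≤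
      ((m + 1) * (c1 ^ m * (Cf ^ (1 / 2 : ℝ) * Cg) * (c2 * cr A ^ 2) ^ m)) *
        R ^ ((2 / 3 : ℝ) * m + (p1 + p2)) := by
  have hR0 : 0 < R := by linarith
  have e1 : F ^ (1 / 2 : ℝ) ≤ Cf ^ (1 / 2 : ℝ) * R ^ p1 := by
    refine (Real.rpow_le_rpow hF0 hF (by norm_num)).trans (le_of_eq ?_)
    rw [Real.mul_rpow hCf (by positivity), ← Real.rpow_mul hR0.le]
    congr 2
    ring
  have e2 : F ^ (1 / 2 : ℝ) * G ≤ (Cf ^ (1 / 2 : ℝ) * Cg) * R ^ (p1 + p2) := by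
    have hCfp : 0 ≤ Cf ^ (1 / 2 : ℝ) := Real.rpow_nonneg hCf _
    calc F ^ (1 / 2 : ℝ) * G
        ≤ (Cf ^ (1 / 2 : ℝ) * R ^ p1) * (Cg * R ^ p2) :=
          mul_le_mul e1 hG hG0 (by positivity)
      _ = (Cf ^ (1 / 2 : ℝ) * Cg) * (R ^ p1 * R ^ p2) := by ring
      _ = (Cf ^ (1 / 2 : ℝ) * Cg) * R ^ (p1 + p2) := by rw [Real.rpow_add hR0]
  have e3 : cr n ^ 2 ≤ cr A ^ 2 * R ^ (2 / 3 : ℝ) := by
    have h1 : cr n ≤ cr A * cr R := by
      rw [← cr_mul hA hR0.le]; exact cr_mono hn hnA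
    calc cr n ^ 2 ≤ (cr A * cr R) ^ 2 := pow_le_pow_left₀ (cr_nonneg hn) h1 2
      _ = cr A ^ 2 * cr R ^ 2 := mul_pow _ _ _
      _ = _ := by
        congr 1
        unfold cr
        rw [← Real.rpow_natCast, ← Real.rpow_mul hR0.le]
        norm_num
  have hn2 : 0 ≤ cr n ^ 2 := sq_nonneg _
  have e4 : (c2 * cr n ^ 2) ^ m ≤ (c2 * cr A ^ 2) ^ m * R ^ ((2 / 3 : ℝ) * m) := by
    calc (c2 * cr n ^ 2) ^ m ≤ (c2 * (cr A ^ 2 * R ^ (2 / 3 : ℝ))) ^ m :=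
          pow_le_pow_left₀ (mul_nonneg hc2 hn2) (mul_le_mul_of_nonneg_left e3 hc2) m
      _ = (c2 * cr A ^ 2) ^ m * (R ^ (2 / 3 : ℝ)) ^ m := by rw [← mul_assoc, mul_pow]
      _ = _ := by rw [← Real.rpow_natCast (R ^ (2 / 3 : ℝ)) m, ← Real.rpow_mul hR0.le]
  have hFG0 : 0 ≤ F ^ (1 / 2 : ℝ) * G := mul_nonneg (Real.rpow_nonneg hF0 _) hG0
  have hm : (0 : ℝ) ≤ m + 1 := by positivity
  calc (m + 1) * (c1 ^ m * (F ^ (1 / 2 : ℝ) * G) * (c2 * cr n ^ 2) ^ m)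
      ≤ (m + 1) * (c1 ^ m * ((Cf ^ (1 / 2 : ℝ) * Cg) * R ^ (p1 + p2)) *
          ((c2 * cr A ^ 2) ^ m * R ^ ((2 / 3 : ℝ) * m))) := by
        refine mul_le_mul_of_nonneg_left ?_ hm
        refine mul_le_mul (mul_le_mul_of_nonneg_left e2 (pow_nonneg hc1 m)) e4
          (pow_nonneg (mul_nonneg hc2 hn2) m) ?_
        exact mul_nonneg (pow_nonneg hc1 m) (hFG0.trans e2)
    _ = ((m + 1) * (c1 ^ m * (Cf ^ (1 / 2 : ℝ) * Cg) * (c2 * cr A ^ 2) ^ m)) *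
          (R ^ ((2 / 3 : ℝ) * m) * R ^ (p1 + p2)) := by ring
    _ = _ := by rw [← Real.rpow_add hR0]

/-- **G1 for a straight row with a fixed coupon at the mark.** -/
theorem g1_fixed (hAP : AP M6c.PlaneK) : ∃ b : ℤ, 6 ≤ b ∧ ∃ C : ℝ, 1 ≤ C ∧
    ∀ (m : ℕ) (K K0 : ℤ) (A Cf Cg p1 p2 : ℝ), 0 ≤ A → 0 ≤ Cf → 1 ≤ K0 →
    K0 * (2 * b + 2) + 8 * b + 32 ≤ K → ∃ D : ℝ, ∀ (E : Finset (ℤ × ℤ)) (up : Bool) (s j0 : ℤ)
    (N₁ N₂ N : ℕ) (R : ℝ), RowGeo E (fun j => sm up s (j0 + j)) K0 N₁ N₂ → N₁ ≤ N → N₂ ≤ N →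
    1 ≤ R → ((N + 1 : ℕ) : ℝ) ≤ A * R →
    ∀ f g : Finset (ℤ × ℤ) → ℝ, (∀ ω, ω ⊆ E → 0 ≤ f ω) → (∀ ω, ω ⊆ E → 0 ≤ g ω) →
    Ex (cp (1 / 2)) E (fun ω => f ω ^ 2) ≤ Cf * R ^ (2 * p1) →
    (Ex (cp (1 / 2)) E (fun ω => g ω ^ 10)) ^ (1 / 10 : ℝ) ≤ Cg * R ^ p2 →
    ∀ Amp : Finset ℤ → Finset (ℤ × ℤ) → ℂ,
    (∀ S : ℕ, ∀ p ∈ antidiagonal m, ∀ k₁ ∈ cells b K S p.1 N₁, ∀ k₂ ∈ cells b K S p.2 N₂,
      ∀ L ∈ Lev (lv2 k₁ k₂), ∀ y ∈ Num b (lv2 k₁ k₂) (nu2 k₁ k₂) L, ∀ ω, ω ⊆ E →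
      Stops b (lv2 k₁ k₂) (fun i => badB b (zz (fun j => sm up s (j0 + j)) i) E) L y ω →
      (∀ x ∈ Bo b L y, (0 : ℤ) ∉ cols2 x) →
      ∃ A h, AmpData b (zz (fun j => sm up s (j0 + j))) L y ω (fun x ω => Amp (cols2 x) ω) A h ∧
        ‖A‖ * C ^ m ≤ f ω * g ω) →
    ‖∑ s ∈ powersetCard m ((Finset.Ico (-(N₁ : ℤ)) N₂).erase 0),
      Ec (fun _ => (1 / 2 : ℂ)) E (Amp s)‖ ≤ D * R ^ ((2 / 3 : ℝ) * m + (p1 + p2)) := by
  classical
  obtain ⟨b, hb, C, hC, h⟩ := g1_row hAP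
  refine ⟨b, hb, C, hC, ?_⟩
  intro m K K0 A Cf Cg p1 p2 hA hCf hK0 hK
  refine ⟨(m + 1) * ((3 * cr b) ^ m * (Cf ^ (1 / 2 : ℝ) * Cg) * (Cc b K * cr A ^ 2) ^ m), ?_⟩
  intro E up s j0 N₁ N₂ N R hgeo h₁ h₂ hR hNA f g hf hg hf2 hg10 Amp hdata
  have hKK : 0 ≤ K0 * (2 * b + 2) := mul_nonneg (by omega) (by omega)
  have key := h m K K0 E up s j0 N₁ N₂ N hK0 hK hgeo h₁ h₂ f g hf hg
    (fun s ω => if (0 : ℤ) ∈ s then 0 else Amp s ω) ?_
  · have e1 : ∑ s ∈ powersetCard m ((Finset.Ico (-(N₁ : ℤ)) N₂).erase 0),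
        Ec (fun _ => (1 / 2 : ℂ)) E (Amp s) =
        ∑ s ∈ powersetCard m (Finset.Ico (-(N₁ : ℤ)) N₂),
          Ec (fun _ => (1 / 2 : ℂ)) E (fun ω => if (0 : ℤ) ∈ s then 0 else Amp s ω) := by
      have e2 : powersetCard m ((Finset.Ico (-(N₁ : ℤ)) N₂).erase 0) ⊆
          powersetCard m (Finset.Ico (-(N₁ : ℤ)) N₂) := powersetCard_mono (erase_subset _ _)
      rw [← sum_subset e2]
      · refine sum_congr rfl fun s hs => ?_
        have h0 : (0 : ℤ) ∉ s := fun h0 => by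
          have := (mem_powersetCard.1 hs).1 h0
          exact absurd rfl (mem_erase.1 this).1
        simp only [if_neg h0]
      · intro s hs hs'
        have h0 : (0 : ℤ) ∈ s := by
          by_contra h0
          refine hs' (mem_powersetCard.2 ⟨fun x hx => mem_erase.2 ⟨?_, (mem_powersetCard.1 hs).1 hx⟩,
            (mem_powersetCard.1 hs).2⟩)
          rintro rfl
          exact h0 hx
        simp only [if_pos h0]
        exact Ec_const _ _ _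
    rw [e1]
    refine key.trans ?_
    have hq : Pb (cp (1 / 2)) := cp_Pb (by norm_num) (by norm_num)
    have hbp : (0 : ℝ) ≤ 3 * cr b := mul_nonneg (by norm_num)
      (cr_nonneg (by exact_mod_cast (by omega : (0 : ℤ) ≤ b)))
    have h1 : 0 ≤ Ex (cp (1 / 2)) E (fun ω => f ω ^ 2) := Ex_nonneg hq fun ω _ => sq_nonneg _
    have h2 : 0 ≤ (Ex (cp (1 / 2)) E (fun ω => g ω ^ 10)) ^ (1 / 10 : ℝ) :=
      Real.rpow_nonneg (Ex_nonneg hq fun ω hω => pow_nonneg (hg ω hω) _) _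
    exact final_arith' hbp (Cc_nonneg (by omega) (by omega)) hA hCf h1 h2 (by positivity) hR hNA
      hf2 hg10
  · intro S p hp k₁ hk₁ k₂ hk₂ L hL y hy ω hω hS
    rcases zero_cols (by omega) (by omega) hk₁ hk₂ hL hy with h0 | h0
    · obtain ⟨A', h', hd, hA'⟩ := hdata S p hp k₁ hk₁ k₂ hk₂ L hL y hy ω hω hS h0
      refine ⟨A', h', ⟨?_, hd.pt, hd.box⟩, hA'⟩
      intro x hx η hη
      simp only [if_neg (h0 x hx)]
      exact hd.fac x hx η hη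
    · refine ⟨0, fun _ _ _ => 0, ⟨?_, ?_, ?_⟩, ?_⟩
      · intro x hx η _
        simp only [if_pos (h0 x hx)]
        rw [zero_mul]
      · intro i _
        rw [norm_zero]; exact zero_le_one
      · intro i _
        exact Or.inl fun _ _ _ _ => rfl
      · rw [norm_zero, zero_mul]
        exact mul_nonneg (hf ω hω) (hg ω hω)

/-! ### The glued form of the sums over the coupons, any functional -/

variable {N : ℕ}

/-- **The sum over `m` coupons**, glued, the columns of `F` are not used. -/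
theorem coupon_sumF (G : Finset (Fin N) → Finset (ℤ × ℤ) → ℂ) {EL EU : Finset (ℤ × ℤ)}
    (hd : Disjoint EL EU) (hd' : Disjoint EL (EU.map (tr (1, -1)))) (c0 : Fin N) (m : ℕ) :
    ∑ S ∈ powersetCard m (univ \ {c0}), Ec (fun _ => (1 / 2 : ℂ)) (EL ∪ EU) (G S) =
      ∑ s ∈ powersetCard m ((Finset.Ico (-((c0 : ℕ) : ℤ)) ((N : ℤ) - (c0 : ℕ))).erase 0),
        Ec (fun _ => (1 / 2 : ℂ)) (gE EL EU (1, -1))
          (fun ω => G (cs N (c0 : ℕ) s) (ug EL EU (1, -1) ω)) := by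
  symm
  have hinj : ∀ s ⊆ Finset.Ico (-((c0 : ℕ) : ℤ)) ((N : ℤ) - (c0 : ℕ)),
      (cs N (c0 : ℕ) s).image (fun c : Fin N => ((c : ℕ) : ℤ) - (c0 : ℕ)) = s := by
    intro s hs
    ext i
    rw [mem_image]
    constructor
    · rintro ⟨c, hc, rfl⟩
      unfold cs at hc
      exact (mem_filter.1 hc).2
    · intro hi
      have h1 := mem_Ico.1 (hs hi)
      refine ⟨⟨(i + (c0 : ℕ)).toNat, by omega⟩, ?_, ?_⟩
      · unfold cs
        rw [mem_filter]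
        refine ⟨mem_univ _, ?_⟩
        have e : (((i + (c0 : ℕ)).toNat : ℕ) : ℤ) - (c0 : ℕ) = i := by omega
        simp only [e]
        exact hi
      · simp only
        omega
  have hI : Function.Injective (fun c : Fin N => ((c : ℕ) : ℤ) - (c0 : ℕ)) := by
    intro c c' h
    simp only at h
    exact Fin.ext (by omega)
  refine sum_bij' (fun s _ => cs N (c0 : ℕ) s)
    (fun S _ => S.image (fun c : Fin N => ((c : ℕ) : ℤ) - (c0 : ℕ))) ?_ ?_ ?_ ?_ ?_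
  · intro s hs
    rw [mem_powersetCard] at hs ⊢
    have hs' : s ⊆ Finset.Ico (-((c0 : ℕ) : ℤ)) ((N : ℤ) - (c0 : ℕ)) :=
      hs.1.trans (erase_subset _ _)
    refine ⟨?_, ?_⟩
    · intro c hc
      rw [mem_sdiff, mem_singleton]
      refine ⟨mem_univ _, ?_⟩
      rintro rfl
      unfold cs at hc
      have h1 := (mem_filter.1 hc).2
      rw [sub_self] at h1
      exact absurd rfl (mem_erase.1 (hs.1 h1)).1
    · rw [← hs.2, ← card_image_of_injective (cs N (c0 : ℕ) s) hI, hinj s hs']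
  · intro S hS
    rw [mem_powersetCard] at hS ⊢
    refine ⟨?_, ?_⟩
    · intro i hi
      obtain ⟨c, hc, rfl⟩ := mem_image.1 hi
      have h1 := c.2
      have h2 := hS.1 hc
      rw [mem_sdiff, mem_singleton] at h2
      rw [mem_erase, mem_Ico]
      refine ⟨fun h3 => h2.2 (Fin.ext (by omega)), by omega, by omega⟩
    · rw [card_image_of_injective _ hI]; exact hS.2
  · intro s hs
    exact hinj s ((mem_powersetCard.1 hs).1.trans (erase_subset _ _))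
  · intro S _
    ext c
    unfold cs
    rw [mem_filter, mem_image]
    constructor
    · rintro ⟨-, c', hc', h⟩
      rw [← hI h]; exact hc'
    · intro h
      exact ⟨mem_univ _, c, h, rfl⟩
  · intro s _
    rw [Ec_unglue hd hd']

/-- **The frozen sum over the coupons**, any functional. -/
theorem frozen_sumF {Φ : Finset (ℤ × ℤ) → ℂ} {x0 y0 : ℤ} {a b : Fin N → ℂ}
    {EL EU t : Finset (ℤ × ℤ)} (hd : Disjoint EL EU) (hd' : Disjoint EL (EU.map (tr (1, -1))))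
    (c0 : Fin N) (m : ℕ) :
    Ec (fun _ => (1 / 2 : ℂ)) (EL ∪ EU)
      (fun ω => ∑ S ∈ powersetCard m (univ \ {c0}), AF Φ x0 y0 (cA' S a) (cB' S b) (ω ∪ t)) =
      ∑ s ∈ powersetCard m ((Finset.Ico (-((c0 : ℕ) : ℤ)) ((N : ℤ) - (c0 : ℕ))).erase 0),
        Ec (fun _ => (1 / 2 : ℂ)) (gE EL EU (1, -1))
          (fun ω => AF Φ x0 y0 (cA' (cs N (c0 : ℕ) s) a) (cB' (cs N (c0 : ℕ) s) b)
            (ug EL EU (1, -1) ω ∪ t)) := by
  rw [Ec_sum']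
  exact coupon_sumF (fun S ω => AF Φ x0 y0 (cA' S a) (cB' S b) (ω ∪ t)) hd hd' c0 m

end Pool.Agent.H76.W
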