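import Mathlib
import Pool.Agent.H76.W.G1F
import Pool.Agent.H76.Sp.RowT
import Pool.Agent.H30.W.RowE

set_option autoImplicit false
open Finset

/-! # The expansion of the weighted sum with a coupon at the column `k` and its coefficients

The row has `N` tiles, the extra tiles `l2` (the string) have the constant weights `a2`, `b2`, the target is
the corner `ct`. `HZ` : the coefficients of the expansion over the coupons, the cut ties and the other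
labels. `GZ_exp` : the exact expansion. `HZ_bound` : the bound from the frozen bound. -/

namespace Pool.Agent.H76.W

open Pool.Agent.H75.Perc hiding AR VV
open Pool.Agent.H75.TwoArm hiding EF
open Pool.Agent.H99.NC
open Pool.Agent.Q1 Pool.Agent.H33.Q1
open Pool.Agent.H81.G1 Pool.Agent.Q1.M6b.Gd Pool.Agent.H76.R45 Pool.Agent.H76.Sp
open Pool.Agent.H30.Mid Pool.Agent.H46.Sp
open Pool.Agent.Q1.M6b.Gl
open Pool.Agent.Q1.M6b (cr)
open Pool.Agent.H30.W (AG Fam lbE XS eA eB AmpE AmpZ AG_elim AG_eq AG_congr image_lbE image_elim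
  cs_insert incW_AG)

variable {N : ℕ} {x0 y0 : ℤ} {J : Type*} [Fintype J] [DecidableEq J]

/-! ### The amplitude as a sum over the states of the row -/

/-- the states of the extra tiles are summed inside -/
theorem AG_AF {X : Env} {l2 : J → ℤ × ℤ} (h : Fam X (lbE N x0 y0 l2)) (ct : ℤ × ℤ)
    (a b : Fin N → ℂ) (a2 b2 : J → ℂ) {ω : Finset (ℤ × ℤ)} (hω : Disjoint (RS N x0 y0) ω) :
    AG X (lbE N x0 y0 l2) ct (Sum.elim a a2) (Sum.elim b b2) ω =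
      AF (AG X l2 ct a2 b2) x0 y0 a b ω := by
  unfold lbE at h ⊢
  rw [AG_elim h]
  unfold AF
  refine sum_congr rfl fun s _ => ?_
  have e1 : ω \ univ.image (rl (N := N) x0 y0) = ω := by
    rw [Finset.sdiff_eq_self_iff_disjoint]
    exact hω.symm
  rw [e1]
  rfl

lemma cA'_cA (S : Finset (Fin N)) (k : Fin N) (a : ℂ) : cA' S (cA {k} a) = cA (insert k S) a := by
  funext i
  unfold cA' cA
  by_cases h1 : i ∈ S <;> by_cases h2 : i = k <;> simp [h1, h2]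

lemma cB'_cB (S : Finset (Fin N)) (k : Fin N) (b : ℂ) : cB' S (cB {k} b) = cB (insert k S) b := by
  funext i
  unfold cB' cB
  by_cases h1 : i ∈ S <;> by_cases h2 : i = k <;> simp [h1, h2]

/-! ### The coefficients -/

section coef

variable {K' : Type*} [Fintype K'] [DecidableEq K']

/-- **The coefficients** of the expansion. -/
noncomputable def HZ (X : Env) (x0 y0 : ℤ) (l2 : J → ℤ × ℤ) (ct : ℤ × ℤ) (a2 b2 : J → ℂ)
    (k : Fin N) (A : Finset (ℤ × ℤ)) (kd : ℤ × ℤ → K') (Bk : Finset (ℤ × ℤ))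
    (st : Finset (ℤ × ℤ) → Finset (ℤ × ℤ)) (m : ℕ) (l : K' → ℕ) (s : Finset (ℤ × ℤ)) : ℂ :=
  ∑ v ∈ PK A kd l, alt v (fun T => Ec (fun _ => (1 / 2 : ℂ)) Bk
    (fun ω => ∑ S ∈ powersetCard m (univ \ {k}),
      AG X (lbE N x0 y0 l2) ct (eA (insert k S) (zt ^ (4 : ℤ)) a2)
        (eB (insert k S) (zt ^ (-4 : ℤ)) b2) (ω ∪ st T ∪ s)))

variable {X : Env} {l2 : J → ℤ × ℤ} {ct : ℤ × ℤ} {a2 b2 : J → ℂ} {k : Fin N} {q : ℤ × ℤ → ℂ}
  {κ : ℂ} {C A Bk Fr : Finset (ℤ × ℤ)} {kd : ℤ × ℤ → K'} {lam : K' → ℂ}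
  {st : Finset (ℤ × ℤ) → Finset (ℤ × ℤ)}

/-- the coefficients in the form of the expansion of an arbitrary functional -/
lemma HZ_HF (h : Fam X (lbE N x0 y0 l2)) (hd0 : Disjoint (RS N x0 y0) (C ∪ (A ∪ Bk)))
    (hst : ∀ T, T ⊆ A → st T ⊆ A) (m : ℕ) (l : K' → ℕ) {s : Finset (ℤ × ℤ)} (hs : s ⊆ C) :
    HZ X x0 y0 l2 ct a2 b2 k A kd Bk st m l s =
      HF (AG X l2 ct a2 b2) x0 y0 (cA {k} (zt ^ (4 : ℤ))) (cB {k} (zt ^ (-4 : ℤ))) {k} A kd Bk st
        m l s := by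
  unfold HZ HF
  refine sum_congr rfl fun v hv => ?_
  refine alt_congr fun T hT => Ec_congr fun ω hω => ?_
  refine sum_congr rfl fun S _ => ?_
  rw [cA'_cA, cB'_cB]
  refine AG_AF h ct _ _ a2 b2 ?_
  refine hd0.mono_right ?_
  refine union_subset (union_subset ?_ ?_) ?_
  · exact hω.trans (subset_union_right.trans subset_union_right)
  · exact (hst T (hT.trans (mem_PK.1 hv).1)).trans (subset_union_left.trans subset_union_right)
  · exact hs.trans subset_union_left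

/-- too many cut ties of one kind -/
lemma HZ_zero (Bk : Finset (ℤ × ℤ)) (m : ℕ) {l : K' → ℕ} (s : Finset (ℤ × ℤ)) {i : K'}
    (hl : A.card < l i) : HZ X x0 y0 l2 ct a2 b2 k A kd Bk st m l s = 0 := by
  unfold HZ
  rw [PK_empty hl, sum_empty]

/-- **The exact expansion.** -/
theorem GZ_exp (h : Fam X (lbE N x0 y0 l2)) (hd0 : Disjoint (RS N x0 y0) (C ∪ (A ∪ Bk)))
    (hFr : Fr ⊆ A) (hst : ∀ T, T ⊆ A → st T = symmDiff T Fr)
    (hd1 : Disjoint C (A ∪ Bk)) (hd2 : Disjoint A Bk) (hT : ∀ e ∈ A, e ∉ Fr → q e = lam (kd e))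
    (hT' : ∀ e ∈ Fr, q e = 1 - lam (kd e)) (hB : ∀ e ∈ Bk, q e = 1 / 2) {M L : ℕ} (hM : N ≤ M)
    (hL : A.card ≤ L) :
    Ec q (C ∪ (A ∪ Bk)) (AG X (lbE N x0 y0 l2) ct (eA {k} (zt ^ (4 : ℤ) + κ) a2)
        (eB {k} (zt ^ (-4 : ℤ) - κ) b2)) =
      ∑ m ∈ range (M + 1), ∑ l ∈ IL K' (L + 1), ∑ s ∈ C.powerset,
        κ ^ m * (∏ i, lam i ^ l i) * ((∏ e ∈ s, q e) * ∏ e ∈ C \ s, (1 - q e)) *
          HZ X x0 y0 l2 ct a2 b2 k A kd Bk st m l s := by
  have e0 : Ec q (C ∪ (A ∪ Bk)) (AG X (lbE N x0 y0 l2) ct (eA {k} (zt ^ (4 : ℤ) + κ) a2)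
        (eB {k} (zt ^ (-4 : ℤ) - κ) b2)) =
      Ec q (C ∪ (A ∪ Bk)) (AF (AG X l2 ct a2 b2) x0 y0
        (fun c => if c ∈ ({k} : Finset (Fin N)) then cA {k} (zt ^ (4 : ℤ)) c
          else cA {k} (zt ^ (4 : ℤ)) c + κ)
        (fun c => if c ∈ ({k} : Finset (Fin N)) then cB {k} (zt ^ (-4 : ℤ)) c
          else cB {k} (zt ^ (-4 : ℤ)) c - κ)) := by
    refine Ec_congr fun ω hω => ?_
    have e1 := AG_AF h ct (cA {k} (zt ^ (4 : ℤ) + κ)) (cB {k} (zt ^ (-4 : ℤ) - κ)) a2 b2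
      (hd0.mono_right hω)
    have e2 : (fun c => if c ∈ ({k} : Finset (Fin N)) then cA {k} (zt ^ (4 : ℤ)) c
          else cA {k} (zt ^ (4 : ℤ)) c + κ) = cA {k} (zt ^ (4 : ℤ) + κ) := by
      funext c
      unfold cA
      by_cases hc : c ∈ ({k} : Finset (Fin N)) <;> simp [hc]
    have e3 : (fun c => if c ∈ ({k} : Finset (Fin N)) then cB {k} (zt ^ (-4 : ℤ)) c
          else cB {k} (zt ^ (-4 : ℤ)) c - κ) = cB {k} (zt ^ (-4 : ℤ) - κ) := by
      funext c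
      unfold cB
      by_cases hc : c ∈ ({k} : Finset (Fin N)) <;> simp [hc]
    rw [e2, e3]
    exact e1
  rw [e0, expandG hFr hst hd1 hd2 hT hT' hB hM hL]
  refine sum_congr rfl fun m _ => sum_congr rfl fun l _ => sum_congr rfl fun s hs => ?_
  rw [HZ_HF h hd0 (fun T hT => ?_) m l (mem_powerset.1 hs)]
  rw [hst T hT]
  intro e he
  rw [mem_symmDiff] at he
  rcases he with he | he
  · exact hT he.1
  · exact hFr he.1

end coef

/-! ### Toggles -/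

section toggle

variable {κ : Type*} [Fintype κ] [DecidableEq κ] [Nonempty κ] {S : TSys κ} {X : Env}
  {W Bk C σ A T ω : Finset (ℤ × ℤ)} {L K : ℤ} {e : ℤ × ℤ} {ι : Type*} [Fintype ι] [DecidableEq ι]
  {lb : ι → ℤ × ℤ}

/-- the amplitudes do not see a tie with a small wall cluster -/
theorem AG_tog (hX : X.PlaneLike W) (hd : Disjoint X.E W) (hO : S.Ok X.E W L) (hK : 20 ≤ K)
    (hKL : ∀ a, (S.N a : ℤ) < K * L) (hfam : Fam X lb)
    (hRT : Disjoint (univ.image lb) (S.Ti ∪ Bk)) (hC : C ⊆ X.E)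
    (hCR : ∀ l ∈ C, l ∉ univ.image lb)
    (hCT : Disjoint C (S.Ti ∪ Bk)) (hBk : Bk ⊆ X.E) (hTB : Disjoint S.Ti Bk)
    (hbk : ∀ a u t, 0 ≤ u → S.Rg L a u t → lt (S.tl a u t) ∈ Bk)
    (hroot : S.Away L (plab X.c0)) {ct : ℤ × ℤ} (hy : S.Away L (lab ct))
    (a b : ι → ℂ) (hA : A ⊆ S.Ti) (he : e ∈ A) (hT : T ⊆ A) (heT : e ∉ T) (hω : ω ⊆ Bk)
    (hσ : σ ⊆ C) (hQ : ¬ S.Qt K A e (ω ∩ S.Bt K A e)) :
    AG X lb ct a b (ω ∪ S.st T ∪ σ) = AG X lb ct a b (ω ∪ S.st (insert e T) ∪ σ) := by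
  have hst : ∀ T', S.st T' ⊆ S.Ti := fun T' => filter_subset _ _
  have hBtB : S.Bt K A e ⊆ Bk := by
    obtain ⟨hx, hxe⟩ := hO.idx_mem (hA he)
    intro l hl
    rw [← hxe] at hl
    obtain ⟨u, t, rfl, h1, h2⟩ := TSys.Bt_rg hO hK hKL hx hl
    exact hbk _ _ _ h1 h2
  rw [AG_eq hfam, AG_eq hfam]
  refine sum_congr rfl fun s _ => ?_
  congr 1
  have hs : osn lb (Pool.Agent.H30.W.gp lb) s ⊆ univ.image lb := osn_sub' _ _
  set om := osn lb (Pool.Agent.H30.W.gp lb) s ∪ (ω ∪ σ) with hom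
  have hnR : ∀ l ∈ S.Ti ∪ Bk, l ∉ univ.image lb := fun l hl h => disjoint_left.1 hRT h hl
  have hmem : ∀ T', osn lb (Pool.Agent.H30.W.gp lb) s ∪
      (ω ∪ S.st T' ∪ σ) ∩ (X.E \ univ.image lb) = om ∪ S.st T' := by
    intro T'
    ext l
    simp only [hom, mem_union, mem_inter, mem_sdiff]
    constructor
    · rintro (h1 | ⟨(h1 | h1) | h1, h2, h3⟩)
      · exact Or.inl (Or.inl h1)
      · exact Or.inl (Or.inr (Or.inl h1))
      · exact Or.inr h1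
      · exact Or.inl (Or.inr (Or.inr h1))
    · rintro ((h1 | h1 | h1) | h1)
      · exact Or.inl h1
      · exact Or.inr ⟨Or.inl (Or.inl h1), hBk (hω h1), hnR l (mem_union_right _ (hω h1))⟩
      · exact Or.inr ⟨Or.inr h1, hC (hσ h1), hCR l (hσ h1)⟩
      · exact Or.inr ⟨Or.inl (Or.inr h1), hO.sub (hst T' h1),
          hnR l (mem_union_left _ (hst T' h1))⟩
  rw [hmem, hmem]
  have hsub : ∀ l ∈ om, l ∈ univ.image lb ∨ l ∈ ω ∨ l ∈ σ := by
    intro l hl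
    rw [hom, mem_union, mem_union] at hl
    rcases hl with h1 | h1 | h1
    · exact Or.inl (hs h1)
    · exact Or.inr (Or.inl h1)
    · exact Or.inr (Or.inr h1)
  have homE : om ⊆ X.E \ S.Ti := by
    intro l hl
    rw [mem_sdiff]
    rcases hsub l hl with h1 | h1 | h1
    · exact ⟨hfam.sub h1, fun h2 => hnR l (mem_union_left _ h2) h1⟩
    · exact ⟨hBk (hω h1), fun h2 => disjoint_left.1 hTB h2 (hω h1)⟩
    · exact ⟨hC (hσ h1), fun h2 => disjoint_left.1 hCT (hσ h1) (mem_union_left _ h2)⟩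
  refine TSys.toggle hX hd hO hK hKL hA he homE hT heT ?_ hroot hy
  rw [TSys.Qt_local]
  have e2 : om ∩ S.Bt K A e = ω ∩ S.Bt K A e := by
    ext l
    rw [mem_inter, mem_inter]
    constructor
    · rintro ⟨h3, h4⟩
      refine ⟨?_, h4⟩
      rcases hsub l h3 with h5 | h5 | h5
      · exact absurd h5 (hnR l (mem_union_right _ (hBtB h4)))
      · exact h5
      · exact absurd (mem_union_right _ (hBtB h4)) (disjoint_left.1 hCT (hσ h5))
    · rintro ⟨h3, h4⟩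
      refine ⟨?_, h4⟩
      rw [hom, mem_union, mem_union]
      exact Or.inr (Or.inl h3)
  rw [e2]
  exact hQ

end toggle

/-! ### The bound -/

/-- the amplitude of a frozen environment -/
theorem AG_freeze {ι : Type*} [Fintype ι] [DecidableEq ι] {X : Env} {lb : ι → ℤ × ℤ}
    (hfam : Fam X lb) (ct : ℤ × ℤ) (a b : ι → ℂ) {E' t ω : Finset (ℤ × ℤ)}
    (hE' : univ.image lb ⊆ E') (hω : ω ⊆ (X.E ∩ E') \ univ.image lb) :
    AG (X.freeze E' t) lb ct a b ω = AG X lb ct a b (ω ∪ (t ∩ (X.E \ E'))) := by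
  have hfam' : Fam (X.freeze E' t) lb := ⟨hfam.inj, fun i => by
    rw [Env.freeze_E, mem_inter]
    exact ⟨hfam.mem i, hE' (mem_image_of_mem _ (mem_univ _))⟩⟩
  rw [AG_eq hfam', AG_eq hfam]
  refine sum_congr rfl fun s _ => ?_
  congr 1
  have hs : osn lb (Pool.Agent.H30.W.gp lb) s ⊆ univ.image lb := osn_sub' _ _
  have e1 : ω ∩ ((X.freeze E' t).E \ univ.image lb) = ω := by
    rw [Env.freeze_E]
    exact inter_eq_left.2 hω
  rw [e1]
  rw [Env.freeze_incO (by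
      intro e he
      rw [mem_inter]
      rcases mem_union.1 he with h | h
      · exact ⟨hfam.sub (hs h), hE' (hs h)⟩
      · exact mem_inter.1 (mem_sdiff.1 (hω h)).1)]
  congr 1
  have e2 : (ω ∪ t ∩ (X.E \ E')) ∩ (X.E \ univ.image lb) = ω ∪ t ∩ (X.E \ E') := by
    refine inter_eq_left.2 (union_subset ?_ ?_)
    · intro e he
      have h1 := mem_sdiff.1 (hω he)
      exact mem_sdiff.2 ⟨(mem_inter.1 h1.1).1, h1.2⟩
    · intro e he
      have h1 := mem_sdiff.1 (mem_inter.1 he).2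
      exact mem_sdiff.2 ⟨h1.1, fun h => h1.2 (hE' h)⟩
  rw [e2, union_assoc]

/-- **The frozen sum over the coupons**, with the coupon at the column `k`. -/
theorem frozen_sumZ {X : Env} {l2 : J → ℤ × ℤ} (hfam : Fam X (lbE N x0 y0 l2))
    {EL EU t : Finset (ℤ × ℤ)} (hsub : EL ∪ EU ⊆ X.E \ (RS N x0 y0 ∪ XS l2))
    (hd : Disjoint EL EU) (hd' : Disjoint EL (EU.map (tr (1, -1)))) (ct : ℤ × ℤ) (a b : ℂ)
    (a2 b2 : J → ℂ) (k : Fin N) (m : ℕ) (ht : t ⊆ X.E \ (EL ∪ EU ∪ (RS N x0 y0 ∪ XS l2))) :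
    Ec (fun _ => (1 / 2 : ℂ)) (EL ∪ EU)
      (fun ω => ∑ S ∈ powersetCard m (univ \ {k}),
        AG X (lbE N x0 y0 l2) ct (eA (insert k S) a a2) (eB (insert k S) b b2) (ω ∪ t)) =
      ∑ s ∈ powersetCard m (Finset.Ico (-((k : ℕ) : ℤ)) ((N : ℤ) - (k : ℕ))),
        Ec (fun _ => (1 / 2 : ℂ)) (gE EL EU (1, -1))
          (AmpZ (X.freeze (EL ∪ EU ∪ (RS N x0 y0 ∪ XS l2)) t) N x0 y0 l2 ct a b a2 b2 EL EU
            (k : ℕ) s) := by
  have e2 : powersetCard m ((Finset.Ico (-((k : ℕ) : ℤ)) ((N : ℤ) - (k : ℕ))).erase 0) ⊆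
      powersetCard m (Finset.Ico (-((k : ℕ) : ℤ)) ((N : ℤ) - (k : ℕ))) :=
    powersetCard_mono (erase_subset _ _)
  rw [← sum_subset e2]
  · rw [Ec_sum', coupon_sumF (fun S ω => AG X (lbE N x0 y0 l2) ct (eA (insert k S) a a2)
      (eB (insert k S) b b2) (ω ∪ t)) hd hd' k m]
    refine sum_congr rfl fun s hs => Ec_congr fun ω _ => ?_
    have h0 : (0 : ℤ) ∉ s := fun h => (mem_erase.1 ((mem_powersetCard.1 hs).1 h)).1 rfl
    unfold AmpZ AmpE
    rw [if_neg h0, cs_insert]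
    have hu : ug EL EU (1, -1) ω ⊆ EL ∪ EU := ug_sub
    have hi := image_lbE N x0 y0 l2
    rw [AG_freeze hfam ct _ _ (by rw [hi]; exact subset_union_right)]
    · congr 2
      exact (inter_eq_left.2 ht).symm
    · rw [hi]
      intro e he
      have h1 := mem_sdiff.1 (hsub (hu he))
      exact mem_sdiff.2 ⟨mem_inter.2 ⟨h1.1, mem_union_left _ (hu he)⟩, h1.2⟩
  · intro s hs hs'
    have h0 : (0 : ℤ) ∈ s := by
      by_contra h0
      refine hs' (mem_powersetCard.2 ⟨fun x hx => mem_erase.2 ⟨?_, (mem_powersetCard.1 hs).1 hx⟩,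
        (mem_powersetCard.1 hs).2⟩)
      rintro rfl
      exact h0 hx
    have e3 : AmpZ (X.freeze (EL ∪ EU ∪ (RS N x0 y0 ∪ XS l2)) t) N x0 y0 l2 ct a b a2 b2 EL EU
        (k : ℕ) s = fun _ => 0 := by
      funext ω; unfold AmpZ; rw [if_pos h0]
    rw [e3, Ec_const]

/-- **The coefficients from the frozen bound**, glued form. -/
theorem HZ_bound : ∃ C0 : ℝ, 1 ≤ C0 ∧ ∀ {κ : Type} [Fintype κ] [DecidableEq κ] [Nonempty κ]
    (S : TSys κ) {K' : Type} [Fintype K'] [DecidableEq K'] (kd : ℤ × ℤ → K') {X : Env}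
    {J : Type} [Fintype J] [DecidableEq J] {l2 : J → ℤ × ℤ}
    {W EL EU C : Finset (ℤ × ℤ)} {N : ℕ} {x0 y0 L K : ℤ} {Mx : ℕ},
    X.PlaneLike W → Disjoint X.E W → S.Ok X.E W L → 20 ≤ K → (∀ a, (S.N a : ℤ) < K * L) →
    (∀ a, S.N a ≤ Mx) → Fam X (lbE N x0 y0 l2) →
    X.E \ (RS N x0 y0 ∪ XS l2) = C ∪ (S.Ti ∪ (EL ∪ EU)) →
    Disjoint C (S.Ti ∪ (EL ∪ EU)) → Disjoint S.Ti (EL ∪ EU) → Disjoint EL EU →
    Disjoint EL (EU.map (tr (1, -1))) →
    (∀ a u t, 0 ≤ u → S.Rg L a u t → lt (S.tl a u t) ∈ EL ∪ EU) → S.Away L (plab X.c0) →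
    ∀ ct : ℤ × ℤ, S.Away L (lab ct) → ∀ (a2 b2 : J → ℂ) (k : Fin N) (m : ℕ) (l : K' → ℕ)
      (σ : Finset (ℤ × ℤ)), σ ⊆ C → ∀ M : ℝ, 0 ≤ M →
    (∀ v ∈ powersetCard (∑ i, l i) S.Ti, ∀ T, T ⊆ v → ∀ ξ, ξ ⊆ v.biUnion (S.Bt K v) →
      ‖∑ s ∈ powersetCard m (Finset.Ico (-((k : ℕ) : ℤ)) ((N : ℤ) - (k : ℕ))),
        Ec (fun _ => (1 / 2 : ℂ))
        (gE (EL \ v.biUnion (S.Bt K v)) (EU \ v.biUnion (S.Bt K v)) (1, -1))
        (AmpZ (X.freeze ((EL \ v.biUnion (S.Bt K v)) ∪ (EU \ v.biUnion (S.Bt K v)) ∪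
          (RS N x0 y0 ∪ XS l2)) (ξ ∪ S.st T ∪ σ)) N x0 y0 l2 ct (zt ^ (4 : ℤ)) (zt ^ (-4 : ℤ))
          a2 b2 (EL \ v.biUnion (S.Bt K v)) (EU \ v.biUnion (S.Bt K v)) (k : ℕ) s)‖ ≤ M) →
    ‖HZ X x0 y0 l2 ct a2 b2 k S.Ti kd (EL ∪ EU) S.st m l σ‖ ≤
      2 ^ (∑ i, l i) * M * ((C0 * K) ^ (∑ i, l i) *
        ((((∑ i, l i : ℕ) + 1) * 6 ^ (∑ i, l i)) ^ Fintype.card κ *
          (cr ((Mx + 1 : ℕ) : ℝ) ^ 2) ^ (∑ i, l i))) := by
  obtain ⟨C0, hC0, hP⟩ := TSys.Qt_le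
  refine ⟨C0, hC0, ?_⟩
  intro κ _ _ _ S K' _ _ kd X J _ _ l2 W EL EU C N x0 y0 L K Mx hX hd hO hK hKL hMx hfam hE hCT
    hTB hLU hLU' hbk hroot ct hct a2 b2 k m l σ hσ M hM FB
  set Bk : Finset (ℤ × ℤ) := EL ∪ EU with hBkdef
  have hi := image_lbE N x0 y0 l2
  have hEx : ∀ l ∈ C ∪ (S.Ti ∪ Bk), l ∈ X.E ∧ l ∉ RS N x0 y0 ∪ XS l2 := by
    intro l hl
    rw [← hE] at hl
    exact mem_sdiff.1 hl
  have hRT : Disjoint (univ.image (lbE N x0 y0 l2)) (S.Ti ∪ Bk) := by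
    rw [hi, disjoint_left]
    exact fun l h1 h2 => (hEx l (mem_union_right _ h2)).2 h1
  have hC : C ⊆ X.E := fun l hl => (hEx l (mem_union_left _ hl)).1
  have hCR : ∀ l ∈ C, l ∉ univ.image (lbE N x0 y0 l2) := fun l hl => by
    rw [hi]; exact (hEx l (mem_union_left _ hl)).2
  have hBk : Bk ⊆ X.E := fun l hl => (hEx l (mem_union_right _ (mem_union_right _ hl))).1
  have hBtB : ∀ v, v ⊆ S.Ti → ∀ e ∈ v, S.Bt K v e ⊆ Bk := by
    intro v hv e he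
    obtain ⟨hx, hxe⟩ := hO.idx_mem (hv he)
    intro l hl
    rw [← hxe] at hl
    obtain ⟨u, t, rfl, h1, h2⟩ := TSys.Bt_rg hO hK hKL hx hl
    exact hbk _ _ _ h1 h2
  have hst : ∀ T, S.st T ⊆ S.Ti := fun T => filter_subset _ _
  unfold HZ
  have key := ties_sumV (Bk := Bk) (Wt := S.Ti) (l := ∑ i, l i) (V := PK S.Ti kd l)
    (PK_sub S.Ti kd l) (B := fun v => S.Bt K v) (P1 := fun v => S.Qt K v)
    (G := fun T ω => ∑ S' ∈ powersetCard m (univ \ {k}),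
      AG X (lbE N x0 y0 l2) ct (eA (insert k S') (zt ^ (4 : ℤ)) a2)
        (eB (insert k S') (zt ^ (-4 : ℤ)) b2) (ω ∪ S.st T ∪ σ))
    (M := M) (ρ := fun v x => C0 * K * (cr (S.gD v x : ℝ))⁻¹) hM ?_ ?_ ?_ ?_ ?_ ?_
  · refine key.trans (mul_le_mul_of_nonneg_left ?_ (by positivity))
    have e1 : ∀ v ∈ powersetCard (∑ i, l i) S.Ti, ∏ x ∈ v, (C0 * K * (cr (S.gD v x : ℝ))⁻¹) =
        (C0 * K) ^ (∑ i, l i) * ∏ x ∈ v, (cr (S.gD v x : ℝ))⁻¹ := by
      intro v hv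
      rw [prod_mul_distrib, prod_const, (mem_powersetCard.1 hv).2]
    rw [sum_congr rfl e1, ← mul_sum]
    refine mul_le_mul_of_nonneg_left (TSys.sum_ties hO hMx (∑ i, l i)) ?_
    have hKR : (0 : ℝ) ≤ K := by exact_mod_cast (by omega : (0 : ℤ) ≤ K)
    exact pow_nonneg (mul_nonneg (by linarith) hKR) _
  · intro v hv x hx
    exact hBtB v (mem_PK.1 hv).1 x hx
  · intro v hv x hx x' hx' hne
    exact TSys.Bt_disj hO (mem_PK.1 hv).1 hK hKL hx hx' hne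
  · intro v hv x hx
    have h1 := TSys.gD_pos hO (mem_powersetCard.1 hv).1 hx
    have hKR : (0 : ℝ) ≤ K := by exact_mod_cast (by omega : (0 : ℤ) ≤ K)
    refine mul_nonneg (mul_nonneg (by linarith) hKR)
      (inv_nonneg.2 (Pool.Agent.Q1.M6b.cr_nonneg ?_))
    exact_mod_cast (by omega : (0 : ℤ) ≤ S.gD v x)
  · intro v hv x hx
    exact hP S K v x (by omega) (TSys.gD_pos hO (mem_PK.1 hv).1 hx)
  · intro v hv x hx T hT hxT ω hω hQ
    refine sum_congr rfl fun S' _ => ?_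
    exact AG_tog hX hd hO hK hKL hfam hRT hC hCR hCT hBk hTB hbk hroot hct _ _ (mem_PK.1 hv).1 hx hT
      hxT hω hσ hQ
  · intro v hv ξ hξ _ T hT
    have hv' := PK_sub S.Ti kd l hv
    have hvT := (mem_powersetCard.1 hv').1
    have h3 := FB v hv' T hT ξ hξ
    have hss : (EL \ v.biUnion (S.Bt K v)) ∪ (EU \ v.biUnion (S.Bt K v)) ⊆ EL ∪ EU :=
      union_subset_union sdiff_subset sdiff_subset
    have hBtB' : v.biUnion (S.Bt K v) ⊆ EL ∪ EU := biUnion_subset.2 fun e he => hBtB v hvT e he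
    rw [← frozen_sumZ hfam (fun l hl => ?_) (hLU.mono sdiff_subset sdiff_subset)
      (hLU'.mono sdiff_subset (map_subset_map.2 sdiff_subset)) ct _ _ a2 b2 k m ?_] at h3
    · have e5 : ∀ ω : Finset (ℤ × ℤ), ξ ∪ ω ∪ S.st T ∪ σ = ω ∪ (ξ ∪ S.st T ∪ σ) := by
        intro ω
        ext e
        simp only [mem_union]
        tauto
      simp only [e5]
      rw [hBkdef, union_sdiff_distrib]
      exact h3
    · intro l hl
      rw [mem_union, mem_union] at hl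
      rw [mem_sdiff, mem_union (s := _ ∪ _), mem_union, mem_sdiff, mem_sdiff]
      rcases hl with (h4 | h4) | h4
      · have h5 := hBtB' (hξ h4)
        have h6 := hEx l (mem_union_right _ (mem_union_right _ h5))
        refine ⟨h6.1, ?_⟩
        rintro ((h7 | h7) | h7)
        · exact h7.2 (hξ h4)
        · exact h7.2 (hξ h4)
        · exact h6.2 h7
      · have h5 := hst T h4
        have h6 := hEx l (mem_union_right _ (mem_union_left _ h5))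
        refine ⟨h6.1, ?_⟩
        rintro ((h7 | h7) | h7)
        · exact disjoint_left.1 hTB h5 (mem_union_left _ h7.1)
        · exact disjoint_left.1 hTB h5 (mem_union_right _ h7.1)
        · exact h6.2 h7
      · have h5 := hσ h4
        have h6 := hEx l (mem_union_left _ h5)
        refine ⟨h6.1, ?_⟩
        rintro ((h7 | h7) | h7)
        · exact disjoint_left.1 hCT h5 (mem_union_right _ (mem_union_left _ h7.1))
        · exact disjoint_left.1 hCT h5 (mem_union_right _ (mem_union_right _ h7.1))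
        · exact h6.2 h7
    · have h6 := hEx l (mem_union_right _ (mem_union_right _ (hss hl)))
      exact mem_sdiff.2 h6

end Pool.Agent.H76.W
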