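import Mathlib
import Pool.Agent.H76.W.CoefZ

set_option autoImplicit false
open Finset

/-! # The coefficients from the frozen bound, general bulk

`HZ_boundB` : as `HZ_bound`, the natural labels `Bk` contain the labels `EL ∪ EU` of the frozen bound; the
other labels of `Bk` are frozen, too (arbitrary states). -/

namespace Pool.Agent.H76.W

open Pool.Agent.H75.Perc hiding AR VV
open Pool.Agent.H75.TwoArm hiding EF
open Pool.Agent.H99.NC
open Pool.Agent.Q1 Pool.Agent.H33.Q1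
open Pool.Agent.H81.G1 Pool.Agent.Q1.M6b.Gd Pool.Agent.H76.R45 Pool.Agent.H76.Sp
open Pool.Agent.H30.Mid Pool.Agent.H46.Sp
open Pool.Agent.Q1.M6b.Gl
open Pool.Agent.Q1.M6b (cr)
open Pool.Agent.H30.W (AG Fam lbE XS eA eB AmpE AmpZ image_lbE)

/-- a bound of an average -/
lemma Ec_half_le {α : Type*} [DecidableEq α] {E : Finset α} {F : Finset α → ℂ} {M : ℝ}
    (h : ∀ ω, ω ⊆ E → ‖F ω‖ ≤ M) : ‖Ec (fun _ => (1 / 2 : ℂ)) E F‖ ≤ M :=
  (Ec_half_norm (g := fun _ => M) h).trans (le_of_eq (Ex_const _ _ _))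

/-- **The coefficients from the frozen bound**, glued form, general bulk. -/
theorem HZ_boundB : ∃ C0 : ℝ, 1 ≤ C0 ∧ ∀ {κ : Type} [Fintype κ] [DecidableEq κ] [Nonempty κ]
    (S : TSys κ) {K' : Type} [Fintype K'] [DecidableEq K'] (kd : ℤ × ℤ → K') {X : Env}
    {J : Type} [Fintype J] [DecidableEq J] {l2 : J → ℤ × ℤ}
    {W EL EU Bk C : Finset (ℤ × ℤ)} {N : ℕ} {x0 y0 L K : ℤ} {Mx : ℕ},
    X.PlaneLike W → Disjoint X.E W → S.Ok X.E W L → 20 ≤ K → (∀ a, (S.N a : ℤ) < K * L) →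
    (∀ a, S.N a ≤ Mx) → Fam X (lbE N x0 y0 l2) →
    X.E \ (RS N x0 y0 ∪ XS l2) = C ∪ (S.Ti ∪ Bk) →
    Disjoint C (S.Ti ∪ Bk) → Disjoint S.Ti Bk → EL ∪ EU ⊆ Bk → Disjoint EL EU →
    Disjoint EL (EU.map (tr (1, -1))) →
    (∀ a u t, 0 ≤ u → S.Rg L a u t → lt (S.tl a u t) ∈ Bk) → S.Away L (plab X.c0) →
    ∀ ct : ℤ × ℤ, S.Away L (lab ct) → ∀ (a2 b2 : J → ℂ) (k : Fin N) (m : ℕ) (l : K' → ℕ)
      (σ : Finset (ℤ × ℤ)), σ ⊆ C → ∀ M : ℝ, 0 ≤ M →
    (∀ v ∈ powersetCard (∑ i, l i) S.Ti, ∀ T, T ⊆ v →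
      ∀ ξ, ξ ⊆ (Bk \ (EL ∪ EU)) ∪ v.biUnion (S.Bt K v) →
      ‖∑ s ∈ powersetCard m (Finset.Ico (-((k : ℕ) : ℤ)) ((N : ℤ) - (k : ℕ))),
        Ec (fun _ => (1 / 2 : ℂ))
        (gE (EL \ v.biUnion (S.Bt K v)) (EU \ v.biUnion (S.Bt K v)) (1, -1))
        (AmpZ (X.freeze ((EL \ v.biUnion (S.Bt K v)) ∪ (EU \ v.biUnion (S.Bt K v)) ∪
          (RS N x0 y0 ∪ XS l2)) (ξ ∪ S.st T ∪ σ)) N x0 y0 l2 ct (zt ^ (4 : ℤ)) (zt ^ (-4 : ℤ))
          a2 b2 (EL \ v.biUnion (S.Bt K v)) (EU \ v.biUnion (S.Bt K v)) (k : ℕ) s)‖ ≤ M) →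
    ‖HZ X x0 y0 l2 ct a2 b2 k S.Ti kd Bk S.st m l σ‖ ≤
      2 ^ (∑ i, l i) * M * ((C0 * K) ^ (∑ i, l i) *
        ((((∑ i, l i : ℕ) + 1) * 6 ^ (∑ i, l i)) ^ Fintype.card κ *
          (cr ((Mx + 1 : ℕ) : ℝ) ^ 2) ^ (∑ i, l i))) := by
  obtain ⟨C0, hC0, hP⟩ := TSys.Qt_le
  refine ⟨C0, hC0, ?_⟩
  intro κ _ _ _ S K' _ _ kd X J _ _ l2 W EL EU Bk C N x0 y0 L K Mx hX hd hO hK hKL hMx hfam hE hCT
    hTB hEB hLU hLU' hbk hroot ct hct a2 b2 k m l σ hσ M hM FB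
  have hi := image_lbE N x0 y0 l2
  have hEx : ∀ l ∈ C ∪ (S.Ti ∪ Bk), l ∈ X.E ∧ l ∉ RS N x0 y0 ∪ XS l2 := by
    intro l hl
    rw [← hE] at hl
    exact mem_sdiff.1 hl
  have hRT : Disjoint (univ.image (lbE N x0 y0 l2)) (S.Ti ∪ Bk) := by
    rw [hi, disjoint_left]
    exact fun l h1 h2 => (hEx l (mem_union_right _ h2)).2 h1
  have hC : C ⊆ X.E := fun l hl => (hEx l (mem_union_left _ hl)).1
  have hCR : ∀ l ∈ C, l ∉ univ.image (lbE N x0 y0 l2) := fun l hl => by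
    rw [hi]; exact (hEx l (mem_union_left _ hl)).2
  have hBk : Bk ⊆ X.E := fun l hl => (hEx l (mem_union_right _ (mem_union_right _ hl))).1
  have hBtB : ∀ v, v ⊆ S.Ti → ∀ e ∈ v, S.Bt K v e ⊆ Bk := by
    intro v hv e he
    obtain ⟨hx, hxe⟩ := hO.idx_mem (hv he)
    intro l hl
    rw [← hxe] at hl
    obtain ⟨u, t, rfl, h1, h2⟩ := TSys.Bt_rg hO hK hKL hx hl
    exact hbk _ _ _ h1 h2
  have hst : ∀ T, S.st T ⊆ S.Ti := fun T => filter_subset _ _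
  unfold HZ
  have key := ties_sumV (Bk := Bk) (Wt := S.Ti) (l := ∑ i, l i) (V := PK S.Ti kd l)
    (PK_sub S.Ti kd l) (B := fun v => S.Bt K v) (P1 := fun v => S.Qt K v)
    (G := fun T ω => ∑ S' ∈ powersetCard m (univ \ {k}),
      AG X (lbE N x0 y0 l2) ct (eA (insert k S') (zt ^ (4 : ℤ)) a2)
        (eB (insert k S') (zt ^ (-4 : ℤ)) b2) (ω ∪ S.st T ∪ σ))
    (M := M) (ρ := fun v x => C0 * K * (cr (S.gD v x : ℝ))⁻¹) hM ?_ ?_ ?_ ?_ ?_ ?_
  · refine key.trans (mul_le_mul_of_nonneg_left ?_ (by positivity))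
    have e1 : ∀ v ∈ powersetCard (∑ i, l i) S.Ti, ∏ x ∈ v, (C0 * K * (cr (S.gD v x : ℝ))⁻¹) =
        (C0 * K) ^ (∑ i, l i) * ∏ x ∈ v, (cr (S.gD v x : ℝ))⁻¹ := by
      intro v hv
      rw [prod_mul_distrib, prod_const, (mem_powersetCard.1 hv).2]
    rw [sum_congr rfl e1, ← mul_sum]
    refine mul_le_mul_of_nonneg_left (TSys.sum_ties hO hMx (∑ i, l i)) ?_
    have hKR : (0 : ℝ) ≤ K := by exact_mod_cast (by omega : (0 : ℤ) ≤ K)
    exact pow_nonneg (mul_nonneg (by linarith) hKR) _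
  · intro v hv x hx
    exact hBtB v (mem_PK.1 hv).1 x hx
  · intro v hv x hx x' hx' hne
    exact TSys.Bt_disj hO (mem_PK.1 hv).1 hK hKL hx hx' hne
  · intro v hv x hx
    have h1 := TSys.gD_pos hO (mem_powersetCard.1 hv).1 hx
    have hKR : (0 : ℝ) ≤ K := by exact_mod_cast (by omega : (0 : ℤ) ≤ K)
    refine mul_nonneg (mul_nonneg (by linarith) hKR)
      (inv_nonneg.2 (Pool.Agent.Q1.M6b.cr_nonneg ?_))
    exact_mod_cast (by omega : (0 : ℤ) ≤ S.gD v x)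
  · intro v hv x hx
    exact hP S K v x (by omega) (TSys.gD_pos hO (mem_PK.1 hv).1 hx)
  · intro v hv x hx T hT hxT ω hω hQ
    refine sum_congr rfl fun S' _ => ?_
    exact AG_tog hX hd hO hK hKL hfam hRT hC hCR hCT hBk hTB hbk hroot hct _ _ (mem_PK.1 hv).1 hx hT
      hxT hω hσ hQ
  · intro v hv ξ hξ _ T hT
    have hv' := PK_sub S.Ti kd l hv
    have hvT := (mem_powersetCard.1 hv').1
    have hBtB' : v.biUnion (S.Bt K v) ⊆ Bk := biUnion_subset.2 fun e he => hBtB v hvT e he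
    set bU := v.biUnion (S.Bt K v) with hbU
    have hsp : Bk \ (EL ∪ EU ∪ bU) ⊆ Bk \ bU := by
      intro e he
      rw [mem_sdiff] at he ⊢
      exact ⟨he.1, fun h => he.2 (mem_union_right _ h)⟩
    rw [Ec_split _ hsp]
    refine Ec_half_le fun f hf => ?_
    have h3 := FB v hv' T hT (ξ ∪ f) (by
      intro e he
      rcases mem_union.1 he with h | h
      · exact mem_union_right _ (hξ h)
      · have h4 := mem_sdiff.1 (hf h)
        exact mem_union_left _ (mem_sdiff.2 ⟨h4.1, fun h5 => h4.2 (mem_union_left _ h5)⟩))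
    have hss : (EL \ bU) ∪ (EU \ bU) ⊆ EL ∪ EU := union_subset_union sdiff_subset sdiff_subset
    rw [← frozen_sumZ hfam (fun l hl => ?_) (hLU.mono sdiff_subset sdiff_subset)
      (hLU'.mono sdiff_subset (map_subset_map.2 sdiff_subset)) ct _ _ a2 b2 k m ?_] at h3
    · have e5 : ∀ ω : Finset (ℤ × ℤ), ξ ∪ (f ∪ ω) ∪ S.st T ∪ σ = ω ∪ (ξ ∪ f ∪ S.st T ∪ σ) := by
        intro ω
        ext e
        simp only [mem_union]
        tauto
      simp only [e5]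
      have e6 : (Bk \ bU) \ (Bk \ (EL ∪ EU ∪ bU)) = (EL \ bU) ∪ (EU \ bU) := by
        ext e
        have := @hEB e
        simp only [mem_sdiff, mem_union] at this ⊢
        tauto
      rw [e6]
      exact h3
    · intro l hl
      have hfx : ∀ l ∈ f, l ∈ Bk ∧ l ∉ EL ∪ EU := fun l h =>
        ⟨(mem_sdiff.1 (hf h)).1, fun h5 => (mem_sdiff.1 (hf h)).2 (mem_union_left _ h5)⟩
      have hTs : ∀ l ∈ S.Ti, l ∉ EL ∪ EU := fun l h h5 => disjoint_left.1 hTB h (hEB h5)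
      have hCs : ∀ l ∈ C, l ∉ EL ∪ EU := fun l h h5 =>
        disjoint_left.1 hCT h (mem_union_right _ (hEB h5))
      have hgo : ∀ l, (l ∈ C ∪ (S.Ti ∪ Bk)) → (l ∈ bU ∨ l ∉ EL ∪ EU) →
          l ∈ X.E \ (EL \ bU ∪ EU \ bU ∪ (RS N x0 y0 ∪ XS l2)) := by
        intro l h1 h2
        have h6 := hEx l h1
        rw [mem_sdiff, mem_union (s := _ ∪ _), mem_union, mem_sdiff, mem_sdiff]
        refine ⟨h6.1, ?_⟩
        rintro ((h7 | h7) | h7)
        · rcases h2 with h2 | h2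
          · exact h7.2 h2
          · exact h2 (mem_union_left _ h7.1)
        · rcases h2 with h2 | h2
          · exact h7.2 h2
          · exact h2 (mem_union_right _ h7.1)
        · exact h6.2 h7
      rw [mem_union, mem_union, mem_union] at hl
      rcases hl with ((h4 | h4) | h4) | h4
      · exact hgo l (mem_union_right _ (mem_union_right _ (hBtB' (hξ h4)))) (Or.inl (hξ h4))
      · exact hgo l (mem_union_right _ (mem_union_right _ (hfx l h4).1)) (Or.inr (hfx l h4).2)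
      · have h5 := hst T h4
        exact hgo l (mem_union_right _ (mem_union_left _ h5)) (Or.inr (hTs l h5))
      · have h5 := hσ h4
        exact hgo l (mem_union_left _ h5) (Or.inr (hCs l h5))
    · have h6 := hEx l (mem_union_right _ (mem_union_right _ (hEB (hss hl))))
      exact mem_sdiff.2 h6

end Pool.Agent.H76.W
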