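import Mathlib
import Pool.Agent.H54.W.DefH
import Pool.Agent.H42.Sp.TieMem

set_option autoImplicit false
open Finset

/-! # The tied forms of the environments of the windows with a horizontal line

The kinds `L`, `R`, `F` of caps of `H42/Sp/Tie.lean` (with the same `kt`, `rt`), for the windows `HWin` and
an arbitrary position `τ` of the line. `L` : the line runs to the south, the outside is on the west,
`R` : the line runs to the north, the outside is on the east, `F` : the line runs to the east on the floor.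
`OutH D τ x y c` : the tile `(x, y)` is not random, and it is open iff `c = true`. -/

namespace Pool.Agent.H76.W

open Pool.Agent.H75.TwoArm Pool.Agent.Q1 Pool.Agent.H33.Q1
open Pool.Agent.H69.Q1
open Pool.Agent.H13.R45 Pool.Agent.H13.Q1
open Pool.Agent.H74.R45 (exists_lt)
open Pool.Agent.H54.W Pool.Agent.H54.W.HWin
open Pool.Agent.H42.Sp (Sd Ix kt rt kt_odd rt_even kt_Tg rt_Tg cap_of)

variable {D : HWin} {τ : ℤ → ℤ} {x y : ℤ} {c : Bool}

/-! ### The tiles around a window -/

/-- a tile which is not random and is open iff `c = true` -/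
def OutH (D : HWin) (τ : ℤ → ℤ) (x y : ℤ) (c : Bool) : Prop :=
  ¬ D.InE τ x y ∧ D.InZ x y ∧ (D.InO τ x y ↔ c = true)

theorem OutH.not_mem (H : HPos D τ) (h : OutH D τ x y c) : lt (x, y) ∉ D.EH τ := by
  rw [mem_EH H]; exact h.1

theorem OutH.mem (h : OutH D τ x y c) (O : HOut D) : lt (x, y) ∈ D.WH τ O.Wo ↔ c = true := by
  unfold WH
  rw [mem_union, HWin.mem_WR, ← h.2.2]
  refine ⟨fun h2 => ?_, Or.inl⟩
  rcases h2 with h2 | h2
  · exact h2
  · exact absurd h.2.1 (O.far _ _ h2)

/-- a tile of the outside which is not a turn tile -/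
theorem OutH.of (hz : D.InZ x y) (hE : ¬ D.InE τ x y) (hA : ¬ D.TA τ x y) (hB : ¬ D.TB τ x y) :
    OutH D τ x y (D.fill x y) := by
  refine ⟨hE, hz, ?_⟩
  unfold InO
  tauto

/-- tile below a column -/
theorem outCol (H : HPos D τ) (h1 : D.p ≤ x) (h2 : x < D.q) (h3 : D.lo ≤ y + 2) (h4 : y + 1 < D.a x)
    (h5 : x + 1 < D.q → τ (x + 1) < τ x → y + 1 < τ (x + 1))
    (h6 : D.p < x → τ (x - 1) < τ x → y + 1 < τ (x - 1)) : OutH D τ x y (D.c x) := by
  have hw := D.aw x h1 h2
  have hf : D.fill x y = D.c x := by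
    unfold fill
    rw [if_neg (by omega), if_neg (by omega), if_pos (by omega)]
  rw [← hf]
  refine OutH.of ⟨by omega, by omega, h3, by omega⟩ ?_ ?_ ?_
  · rintro (h | h | h | h | h)
    · have := h.2.2.1; omega
    · have k := h.2.2.1
      have := h.2.2.2
      have := h5 h.2.1 (by omega)
      omega
    · have k := h.2.2.1
      have := h.2.2.2
      have := h6 h.1 (by omega)
      omega
    · have := h.1; omega
    · have := h.1; omega
  · rintro (⟨g1, g2, g3, g4⟩ | ⟨g1, g2⟩)
    · have := h6 g1 g3; omega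
    · omega
  · rintro (⟨g1, g2, g3, g4⟩ | ⟨g1, g2⟩)
    · have := h5 g2 g3; omega
    · omega

/-- tile to the left of the window -/
theorem outLft (h1 : D.p ≤ x + 2) (h2 : x < D.p) (h3 : D.lo ≤ y + 2) (h4 : y ≤ D.w)
    (h5 : x = D.p - 1 → y + 1 < τ D.p ∨ D.w ≤ y) (h6 : τ D.p ≤ D.w) : OutH D τ x y D.cL := by
  have hh := D.hh
  have hf : D.fill x y = D.cL := by
    unfold fill
    rw [if_pos (by omega)]
  rw [← hf]
  refine OutH.of ⟨by omega, by omega, h3, by omega⟩ ?_ ?_ ?_
  · rintro (h | h | h | h | h)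
    · have := h.1; omega
    · have := h.1; omega
    · have := h.1; omega
    · obtain ⟨g1, g2, g3⟩ := h
      rcases h5 g1 with h | h <;> omega
    · have := h.1; omega
  · rintro (⟨g1, g2, g3, g4⟩ | ⟨g1, g2⟩) <;> omega
  · rintro (⟨g1, g2, g3, g4⟩ | ⟨g1, g2⟩)
    · omega
    · rcases h5 g1 with h | h <;> omega

/-- tile to the right of the window -/
theorem outRgt (h1 : D.q ≤ x) (h2 : x ≤ D.q + 1) (h3 : D.lo ≤ y + 2) (h4 : y ≤ D.w)
    (h5 : x = D.q → y + 1 < τ (D.q - 1) ∨ D.w ≤ y) (h6 : τ (D.q - 1) ≤ D.w) :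
    OutH D τ x y D.cR := by
  have hh := D.hh
  have hf : D.fill x y = D.cR := by
    unfold fill
    rw [if_neg (by omega), if_pos (by omega)]
  rw [← hf]
  refine OutH.of ⟨by omega, by omega, h3, by omega⟩ ?_ ?_ ?_
  · rintro (h | h | h | h | h)
    · have := h.2.1; omega
    · have := h.2.1; omega
    · have := h.2.1; omega
    · have := h.1; omega
    · obtain ⟨g1, g2, g3⟩ := h
      rcases h5 g1 with h | h <;> omega
  · rintro (⟨g1, g2, g3, g4⟩ | ⟨g1, g2⟩)
    · omega
    · rcases h5 g1 with h | h <;> omega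
  · rintro (⟨g1, g2, g3, g4⟩ | ⟨g1, g2⟩) <;> omega

/-! ### The caps -/

/-- the cap points -/
def CPH (D : HWin) (τ : ℤ → ℤ) : Ix → Prop
  | (.L, (x, y)) =>
      (D.p ≤ x ∧ x + 1 < D.q ∧ τ (x + 1) < y ∧ y < τ x - 1 ∧
        ((x + y) % 2 = 1 ↔ D.c x = true)) ∨
      (x = D.p - 1 ∧ τ D.p < y ∧ y < D.w ∧ ((x + y) % 2 = 1 ↔ D.cL = true))
  | (.R, (x, y)) =>
      (D.p < x - 1 ∧ x - 1 < D.q ∧ τ (x - 2) < y ∧ y < τ (x - 1) - 1 ∧
        ((x + y) % 2 = 1 ↔ D.c (x - 1) = true)) ∨
      (x = D.q + 1 ∧ τ (D.q - 1) < y ∧ y < D.w ∧ ((x + y) % 2 = 1 ↔ D.cR = true))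
  | (.F, (x, y)) => D.p < x ∧ x < D.q ∧ τ (x - 1) = y + 1 ∧ τ x = y + 1 ∧ D.a (x - 1) = y + 1 ∧
      D.a x = y + 1 ∧ (D.p < x - 1 → τ (x - 1) ≤ τ (x - 2)) ∧ (x + 1 < D.q → τ x ≤ τ (x + 1)) ∧
      ((x + y) % 2 = 1 ↔ D.c x = true)
  | (.C, _) => False

/-- a cap from two random tiles and two outside tiles -/
theorem cap_ix' (H : HPos D τ) (O : HOut D) {k : Ix} {u1 u2 : ℤ × ℤ}
    (m1 : D.InE τ (kt k).1 (kt k).2) (m2 : D.InE τ (rt k).1 (rt k).2)
    (hall : ∀ e, Tg k.2 e → e = lt (kt k) ∨ e = lt (rt k) ∨ e = lt u1 ∨ e = lt u2)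
    (n1 : OutH D τ u1.1 u1.2 c) (n2 : OutH D τ u2.1 u2.2 c)
    (hc : (k.2.1 + k.2.2) % 2 = 1 ↔ c = true) :
    Cap (D.EH τ) (D.WH τ O.Wo) (ev k.2) (gp k.2) (lt (kt k)) (lt (rt k)) := by
  refine cap_of (kt_Tg k) (rt_Tg k) (fun h => ?_) ((mem_EH H).2 m1) ((mem_EH H).2 m2) hall
    (n1.not_mem H) (n1.mem O) (n2.not_mem H) (n2.mem O) hc
  have h1 := kt_odd k
  have h2 := rt_even k
  rw [h] at h1
  omega

/-- the walls of a run to the south -/
theorem rs_walls (H : HPos D τ) (h1 : D.p ≤ x) (h2 : x + 1 < D.q) (h3 : τ (x + 1) < τ x) :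
    τ x = D.a x ∧ D.a (x + 1) < D.a x ∧ D.p + 3 ≤ x ∧ x + 5 ≤ D.q ∧ D.a x ≤ D.a (x - 1) ∧
      D.a (x - 1) ≤ D.a (x - 2) ∧ D.c (x - 1) = D.c x ∧ τ (x - 1) ≤ τ (x - 2) := by
  have k1 := H.dn x h1 h2 h3
  have k2 := H.lo (x + 1) (by omega) h2
  have k3 := D.fe (x + 1) (by omega) h2 (by rw [add_sub_cancel_right]; omega)
  have k4 : D.a x ≤ D.a (x - 1) := by
    by_contra h
    have := D.ud x (x + 1) (by omega) (by omega) h2 (by omega) (by rw [add_sub_cancel_right]; omega)
    omega
  have k5 : D.a (x - 1) ≤ D.a (x - 2) := by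
    by_contra h
    have := D.ud (x - 1) (x + 1) (by omega) (by omega) h2
      (by rw [show x - 1 - 1 = x - 2 by ring]; omega) (by rw [add_sub_cancel_right]; omega)
    omega
  refine ⟨k1, by omega, by omega, by omega, k4, k5, D.cdn x (by omega) h2 (by omega), ?_⟩
  by_contra h
  have k6 := H.up (x - 2) (by omega) (by omega) (by
    rw [show x - 2 + 1 = x - 1 by ring]; omega)
  rw [show x - 2 + 1 = x - 1 by ring] at k6
  have k7 := H.lo (x - 2) (by omega) (by omega)
  omega

/-- the walls of a run to the north -/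
theorem rn_walls (H : HPos D τ) (h1 : D.p < x) (h2 : x < D.q) (h3 : τ (x - 1) < τ x) :
    τ x = D.a x ∧ D.a (x - 1) < D.a x ∧ D.p + 4 ≤ x ∧ x + 4 ≤ D.q ∧ D.a x ≤ D.a (x + 1) ∧
      D.a (x + 1) ≤ D.a (x + 2) ∧ D.c (x + 1) = D.c x ∧ τ (x + 1) ≤ τ (x + 2) := by
  have k1 := H.up (x - 1) (by omega) (by omega) (by rw [sub_add_cancel]; omega)
  rw [sub_add_cancel] at k1
  have k2 := H.lo (x - 1) (by omega) (by omega)
  have k3 := D.fe x (by omega) h2 (by omega)
  have k4 : D.a x ≤ D.a (x + 1) := by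
    by_contra h
    have := D.ud x (x + 1) (by omega) (by omega) (by omega) (by omega)
      (by rw [add_sub_cancel_right]; omega)
    omega
  have k5 : D.a (x + 1) ≤ D.a (x + 2) := by
    by_contra h
    have := D.ud x (x + 2) (by omega) (by omega) (by omega) (by omega)
      (by rw [show x + 2 - 1 = x + 1 by ring]; omega)
    omega
  refine ⟨k1, by omega, by omega, by omega, k4, k5, (D.cup x h1 (by omega) (by omega)).symm, ?_⟩
  by_contra h
  have k6 := H.dn (x + 1) (by omega) (by omega) (by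
    rw [show x + 1 + 1 = x + 2 by ring]; omega)
  have k7 := H.lo (x + 2) (by omega) (by omega)
  omega

/-- the tiles at a cap of a run to the south -/
theorem tiles_LH (H : HPos D τ) (hk : CPH D τ (.L, (x, y))) :
    ∃ c : Bool, D.InE τ x y ∧ D.InE τ x (y - 1) ∧ OutH D τ (x - 1) y c ∧
      OutH D τ (x - 1) (y - 1) c ∧ ((x + y) % 2 = 1 ↔ c = true) := by
  have hh := D.hh
  rcases hk with ⟨h1, h2, h3, h4, h5⟩ | ⟨h1, h2, h3, h5⟩
  · obtain ⟨k1, k2, k3, k4, k5, k6, k7, k8⟩ := rs_walls H h1 h2 (by omega)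
    have l1 := D.hlo (x + 1) (by omega) h2
    have l2 := H.lo (x + 1) (by omega) h2
    refine ⟨D.c x, Or.inr (Or.inl ⟨h1, h2, by omega, by omega⟩),
      Or.inr (Or.inl ⟨h1, h2, by omega, by omega⟩), ?_, ?_, h5⟩
    · rw [← k7]
      refine outCol H (by omega) (by omega) (by omega) (by omega) (fun _ _ => ?_) (fun _ h => ?_)
      · rw [show x - 1 + 1 = x by ring]; omega
      · rw [show x - 1 - 1 = x - 2 by ring] at h; omega
    · rw [← k7]
      refine outCol H (by omega) (by omega) (by omega) (by omega) (fun _ _ => ?_) (fun _ h => ?_)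
      · rw [show x - 1 + 1 = x by ring]; omega
      · rw [show x - 1 - 1 = x - 2 by ring] at h; omega
  · have l1 := D.hlo D.p le_rfl (by omega)
    have l2 := H.lo D.p le_rfl (by omega)
    have l3 := H.hi D.p le_rfl (by omega)
    refine ⟨D.cL, Or.inr (Or.inr (Or.inr (Or.inl ⟨h1, by omega, by omega⟩))),
      Or.inr (Or.inr (Or.inr (Or.inl ⟨h1, by omega, by omega⟩))), ?_, ?_, h5⟩
    · exact outLft (by omega) (by omega) (by omega) (by omega) (fun h => by omega) l3
    · exact outLft (by omega) (by omega) (by omega) (by omega) (fun h => by omega) l3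

/-- the tiles at a cap of a run to the north -/
theorem tiles_RH (H : HPos D τ) (hk : CPH D τ (.R, (x, y))) :
    ∃ c : Bool, D.InE τ (x - 1) y ∧ D.InE τ (x - 1) (y - 1) ∧ OutH D τ x y c ∧
      OutH D τ x (y - 1) c ∧ ((x + y) % 2 = 1 ↔ c = true) := by
  have hh := D.hh
  rcases hk with ⟨h1, h2, h3, h4, h5⟩ | ⟨h1, h2, h3, h5⟩
  · have e2 : x - 1 - 1 = x - 2 := by ring
    have e3 : x - 1 + 1 = x := by ring
    have e4 : x - 1 + 2 = x + 1 := by ring
    obtain ⟨k1, k2, k3, k4, k5, k6, k7, k8⟩ := rn_walls (x := x - 1) H (by omega) h2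
      (by rw [e2]; omega)
    rw [e2] at k2
    rw [e3] at k5 k6 k7 k8
    rw [e4] at k6 k8
    have l1 := D.hlo (x - 2) (by omega) (by omega)
    have l2 := H.lo (x - 2) (by omega) (by omega)
    refine ⟨D.c (x - 1), Or.inr (Or.inr (Or.inl ⟨h1, h2, by rw [e2]; omega, by omega⟩)),
      Or.inr (Or.inr (Or.inl ⟨h1, h2, by rw [e2]; omega, by omega⟩)), ?_, ?_, h5⟩
    · rw [← k7]
      exact outCol H (by omega) (by omega) (by omega) (by omega) (fun _ h => by omega)
        (fun _ _ => by omega)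
    · rw [← k7]
      exact outCol H (by omega) (by omega) (by omega) (by omega) (fun _ h => by omega)
        (fun _ _ => by omega)
  · have l1 := D.hlo (D.q - 1) (by omega) (by omega)
    have l2 := H.lo (D.q - 1) (by omega) (by omega)
    have l3 := H.hi (D.q - 1) (by omega) (by omega)
    refine ⟨D.cR, Or.inr (Or.inr (Or.inr (Or.inr ⟨by omega, by omega, by omega⟩))),
      Or.inr (Or.inr (Or.inr (Or.inr ⟨by omega, by omega, by omega⟩))), ?_, ?_, h5⟩
    · exact outRgt (by omega) (by omega) (by omega) (by omega) (fun h => by omega) l3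
    · exact outRgt (by omega) (by omega) (by omega) (by omega) (fun h => by omega) l3

/-- the tiles at a floor cap -/
theorem tiles_FH (H : HPos D τ) (hk : CPH D τ (.F, (x, y))) :
    ∃ c : Bool, D.InE τ (x - 1) y ∧ D.InE τ x y ∧ OutH D τ (x - 1) (y - 1) c ∧
      OutH D τ x (y - 1) c ∧ ((x + y) % 2 = 1 ↔ c = true) := by
  obtain ⟨h1, h2, h3, h4, h5, h6, h7, h8, h9⟩ := hk
  have l1 := D.aw x (by omega) h2
  have l2 := D.aw (x - 1) (by omega) (by omega)
  have l3 := D.hlo x (by omega) h2
  have e1 : D.c (x - 1) = D.c x := by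
    have := D.sc (x - 1) (by omega) (by omega) (by rw [sub_add_cancel]; omega)
    rwa [sub_add_cancel] at this
  refine ⟨D.c x, Or.inl ⟨by omega, by omega, by omega, by omega⟩,
    Or.inl ⟨by omega, by omega, by omega, by omega⟩, ?_, ?_, h9⟩
  · rw [← e1]
    refine outCol H (by omega) (by omega) (by omega) (by omega) (fun _ h => ?_) (fun g h => ?_)
    · rw [sub_add_cancel] at h; omega
    · rw [show x - 1 - 1 = x - 2 by ring] at h
      have := h7 g
      omega
  · refine outCol H (by omega) (by omega) (by omega) (by omega) (fun g h => ?_) (fun g h => ?_)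
    · have := h8 g
      omega
    · omega

/-- **The caps.** -/
theorem cap_CPH (H : HPos D τ) (O : HOut D) {k : Ix} (hk : CPH D τ k) :
    Cap (D.EH τ) (D.WH τ O.Wo) (ev k.2) (gp k.2) (lt (kt k)) (lt (rt k)) := by
  obtain ⟨s, x, y⟩ := k
  cases s
  · obtain ⟨c, i1, i2, o1, o2, hc⟩ := tiles_LH H hk
    refine cap_ix' H O (u1 := (x - 1, y)) (u2 := (x - 1, y - 1)) (c := c) ?_ ?_ ?_ o1 o2 hc
    · unfold kt; simp only; split_ifs
      · exact i1
      · exact i2
    · unfold rt; simp only; split_ifs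
      · exact i2
      · exact i1
    · intro e he
      unfold Tg at he
      simp only at he
      unfold kt rt
      simp only
      split_ifs <;> rcases he with he | he | he | he <;> rw [he] <;> simp
  · obtain ⟨c, i1, i2, o1, o2, hc⟩ := tiles_RH H hk
    refine cap_ix' H O (u1 := (x, y)) (u2 := (x, y - 1)) (c := c) ?_ ?_ ?_ o1 o2 hc
    · unfold kt; simp only; split_ifs
      · exact i2
      · exact i1
    · unfold rt; simp only; split_ifs
      · exact i1
      · exact i2
    · intro e he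
      unfold Tg at he
      simp only at he
      unfold kt rt
      simp only
      split_ifs <;> rcases he with he | he | he | he <;> rw [he] <;> simp
  · obtain ⟨c, i1, i2, o1, o2, hc⟩ := tiles_FH H hk
    refine cap_ix' H O (u1 := (x - 1, y - 1)) (u2 := (x, y - 1)) (c := c) ?_ ?_ ?_ o1 o2 hc
    · unfold kt; simp only; split_ifs
      · exact i2
      · exact i1
    · unfold rt; simp only; split_ifs
      · exact i1
      · exact i2
    · intro e he
      unfold Tg at he
      simp only at he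
      unfold kt rt
      simp only
      split_ifs <;> rcases he with he | he | he | he <;> rw [he] <;> simp
  · exact absurd hk (by simp [CPH])

/-- the four tiles at a cap are near the window -/
theorem cap_nearH (H : HPos D τ) {k : Ix} (hk : CPH D τ k) {e : ℤ × ℤ} (he : Tg k.2 e) :
    e ∈ D.GA := by
  have kE : ∀ {u v : ℤ}, D.InE τ u v → lt (u, v) ∈ D.GA := fun h => mem_GA.2 (h.inZ H)
  obtain ⟨s, x, y⟩ := k
  unfold Tg at he
  simp only at he
  cases s
  · obtain ⟨c, i1, i2, o1, o2, -⟩ := tiles_LH H hk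
    rcases he with he | he | he | he <;> rw [he]
    · exact kE i1
    · exact mem_GA.2 o1.2.1
    · exact kE i2
    · exact mem_GA.2 o2.2.1
  · obtain ⟨c, i1, i2, o1, o2, -⟩ := tiles_RH H hk
    rcases he with he | he | he | he <;> rw [he]
    · exact mem_GA.2 o1.2.1
    · exact kE i1
    · exact mem_GA.2 o2.2.1
    · exact kE i2
  · obtain ⟨c, i1, i2, o1, o2, -⟩ := tiles_FH H hk
    rcases he with he | he | he | he <;> rw [he]
    · exact kE i2
    · exact kE i1
    · exact mem_GA.2 o2.2.1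
    · exact mem_GA.2 o1.2.1
  · exact absurd hk (by simp [CPH])

/-! ### Different caps have different tiles -/

/-- the tiles of a cap are tiles of the line -/
def RgH (D : HWin) (τ : ℤ → ℤ) : Sd → ℤ × ℤ → Prop
  | .L, t => D.RS τ t.1 t.2 ∨ D.RL τ t.1 t.2
  | .R, t => D.RN τ t.1 t.2 ∨ D.RR τ t.1 t.2
  | .F, t => D.Ln τ t.1 t.2 ∧ D.InU t.1 t.2
  | .C, _ => False

/-- the tiles of a cap are in its region -/
theorem regH (H : HPos D τ) {k : Ix} (hk : CPH D τ k) {t : ℤ × ℤ} (ht : t = kt k ∨ t = rt k) :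
    RgH D τ k.1 t := by
  obtain ⟨s, x, y⟩ := k
  cases s
  · have h3 : t = (x, y) ∨ t = (x, y - 1) := by
      rcases ht with h | h <;> rw [h]
      · exact Pool.Agent.H42.Sp.kt_L
      · exact Pool.Agent.H42.Sp.rt_L
    rcases hk with ⟨a1, a2, a3, a4, -⟩ | ⟨a1, a2, a3, -⟩
    · left
      rcases h3 with h | h <;> subst h <;> exact ⟨a1, a2, by simp only; omega, by simp only; omega⟩
    · right
      rcases h3 with h | h <;> subst h <;> exact ⟨a1, by simp only; omega, by simp only; omega⟩
  · have h3 : t = (x - 1, y) ∨ t = (x - 1, y - 1) := by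
      rcases ht with h | h <;> rw [h]
      · exact Pool.Agent.H42.Sp.kt_R
      · exact Pool.Agent.H42.Sp.rt_R
    rcases hk with ⟨a1, a2, a3, a4, -⟩ | ⟨a1, a2, a3, -⟩
    · left
      have e2 : x - 1 - 1 = x - 2 := by ring
      rcases h3 with h | h <;> subst h <;>
        exact ⟨a1, a2, by simp only [e2]; omega, by simp only; omega⟩
    · right
      rcases h3 with h | h <;> subst h <;>
        exact ⟨by simp only; omega, by simp only; omega, by simp only; omega⟩
  · have h3 : t = (x, y) ∨ t = (x - 1, y) := by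
      rcases ht with h | h <;> rw [h]
      · exact Pool.Agent.H42.Sp.kt_F
      · exact Pool.Agent.H42.Sp.rt_F
    obtain ⟨a1, a2, a3, a4, a5, a6, -⟩ := hk
    have l1 := D.aw x (by omega) a2
    rcases h3 with h | h <;> subst h <;>
      exact ⟨⟨by simp only; omega, by simp only; omega, by simp only; omega⟩,
        ⟨by simp only; omega, by simp only; omega, by simp only; omega, by simp only; omega⟩⟩
  · exact absurd hk (by simp [CPH])

/-- a common tile: the kinds are equal -/
theorem kind_eqH (H : HPos D τ) {k l : Ix} (hk : CPH D τ k) (hl : CPH D τ l) {t : ℤ × ℤ}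
    (ht : t = kt k ∨ t = rt k) (ht' : t = kt l ∨ t = rt l) : k.1 = l.1 := by
  have hh := D.hh
  have r1 := regH H hk ht
  have r2 := regH H hl ht'
  obtain ⟨s, x, y⟩ := k
  obtain ⟨s', x', y'⟩ := l
  obtain ⟨t1, t2⟩ := t
  unfold RgH at r1 r2
  have key1 : ∀ {u v : ℤ}, (D.RS τ u v ∨ D.RL τ u v) → ¬ (D.RN τ u v ∨ D.RR τ u v) := by
    rintro u v (h | h) (h' | h')
    · obtain ⟨a1, a2, a3, a4⟩ := h
      obtain ⟨b1, b2, b3, b4⟩ := h'
      exact up_dn H b1 a2 (by omega) (by omega)
    · have := h.2.1; have := h'.1; omega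
    · have := h.1; have := h'.1; omega
    · have := h.1; have := h'.1; omega
  have key2 : ∀ {u v : ℤ}, (D.RS τ u v ∨ D.RL τ u v) → ¬ (D.Ln τ u v ∧ D.InU u v) := by
    rintro u v h ⟨-, h'⟩
    exact run_out H (by tauto) h'
  have key3 : ∀ {u v : ℤ}, (D.RN τ u v ∨ D.RR τ u v) → ¬ (D.Ln τ u v ∧ D.InU u v) := by
    rintro u v h ⟨-, h'⟩
    exact run_out H (by tauto) h'
  cases s <;> cases s' <;> simp only at r1 r2 ⊢
  · exact absurd r2 (key1 r1)
  · exact absurd r2 (key2 r1)
  · exact absurd r1 (key1 r2)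
  · exact absurd r2 (key3 r1)
  · exact absurd r1 (key2 r2)
  · exact absurd r1 (key3 r2)

/-- two neighbouring caps of the same kind do not exist -/
theorem col_LH (hk : CPH D τ (.L, (x, y))) (hl : CPH D τ (.L, (x, y + 1))) : False := by
  rcases hk with ⟨a1, a2, a3, a4, a5⟩ | ⟨a1, a2, a3, a5⟩ <;>
    rcases hl with ⟨b1, b2, b3, b4, b5⟩ | ⟨b1, b2, b3, b5⟩
  · rw [← a5] at b5; omega
  · omega
  · omega
  · rw [← a5] at b5; omega

theorem col_RH (hk : CPH D τ (.R, (x, y))) (hl : CPH D τ (.R, (x, y + 1))) : False := by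
  rcases hk with ⟨a1, a2, a3, a4, a5⟩ | ⟨a1, a2, a3, a5⟩ <;>
    rcases hl with ⟨b1, b2, b3, b4, b5⟩ | ⟨b1, b2, b3, b5⟩
  · rw [← a5] at b5; omega
  · omega
  · omega
  · rw [← a5] at b5; omega

theorem col_FH (hk : CPH D τ (.F, (x, y))) (hl : CPH D τ (.F, (x + 1, y))) : False := by
  obtain ⟨a1, a2, a3, a4, a5, a6, a7, a8, a9⟩ := hk
  obtain ⟨b1, b2, b3, b4, b5, b6, b7, b8, b9⟩ := hl
  have := D.sc x (by omega) (by omega) (by omega)
  rw [← this, ← a9] at b9
  omega

/-- **The kept tiles of different caps are different.** -/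
theorem kt_injH (H : HPos D τ) {k l : Ix} (hk : CPH D τ k) (hl : CPH D τ l) (h : kt k = kt l) :
    k = l := by
  have hs := kind_eqH H hk hl (t := kt k) (Or.inl rfl) (Or.inl h)
  obtain ⟨s, x, y⟩ := k
  obtain ⟨s', x', y'⟩ := l
  simp only at hs
  subst hs
  cases s
  · unfold kt at h
    simp only at h
    split_ifs at h with c1 c2 c2 <;> simp only [Prod.mk.injEq] at h
    · rw [h.1, h.2]
    · exfalso
      obtain ⟨h1, h2⟩ := h
      obtain rfl : y' = y + 1 := by omega
      subst h1
      exact col_LH hk hl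
    · exfalso
      obtain ⟨h1, h2⟩ := h
      obtain rfl : y = y' + 1 := by omega
      subst h1
      exact col_LH hl hk
    · rw [h.1, show y = y' by omega]
  · unfold kt at h
    simp only at h
    split_ifs at h with c1 c2 c2 <;> simp only [Prod.mk.injEq] at h
    · rw [show x = x' by omega, show y = y' by omega]
    · exfalso
      obtain ⟨h1, h2⟩ := h
      obtain rfl : y = y' + 1 := by omega
      obtain rfl : x = x' := by omega
      exact col_RH hl hk
    · exfalso
      obtain ⟨h1, h2⟩ := h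
      obtain rfl : y' = y + 1 := by omega
      obtain rfl : x = x' := by omega
      exact col_RH hk hl
    · rw [show x = x' by omega, show y = y' by omega]
  · unfold kt at h
    simp only at h
    split_ifs at h with c1 c2 c2 <;> simp only [Prod.mk.injEq] at h
    · rw [h.1, h.2]
    · exfalso
      obtain ⟨h1, h2⟩ := h
      obtain rfl : x' = x + 1 := by omega
      subst h2
      exact col_FH hk hl
    · exfalso
      obtain ⟨h1, h2⟩ := h
      obtain rfl : x = x' + 1 := by omega
      subst h2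
      exact col_FH hl hk
    · rw [show x = x' by omega, show y = y' by omega]
  · exact absurd hk (by simp [CPH])

/-- **The removed tiles of different caps are different.** -/
theorem rt_injH (H : HPos D τ) {k l : Ix} (hk : CPH D τ k) (hl : CPH D τ l) (h : rt k = rt l) :
    k = l := by
  have hs := kind_eqH H hk hl (t := rt k) (Or.inr rfl) (Or.inr h)
  obtain ⟨s, x, y⟩ := k
  obtain ⟨s', x', y'⟩ := l
  simp only at hs
  subst hs
  cases s
  · unfold rt at h
    simp only at h
    split_ifs at h with c1 c2 c2 <;> simp only [Prod.mk.injEq] at h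
    · rw [h.1, show y = y' by omega]
    · exfalso
      obtain ⟨h1, h2⟩ := h
      obtain rfl : y = y' + 1 := by omega
      subst h1
      exact col_LH hl hk
    · exfalso
      obtain ⟨h1, h2⟩ := h
      obtain rfl : y' = y + 1 := by omega
      subst h1
      exact col_LH hk hl
    · rw [h.1, h.2]
  · unfold rt at h
    simp only at h
    split_ifs at h with c1 c2 c2 <;> simp only [Prod.mk.injEq] at h
    · rw [show x = x' by omega, show y = y' by omega]
    · exfalso
      obtain ⟨h1, h2⟩ := h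
      obtain rfl : y' = y + 1 := by omega
      obtain rfl : x = x' := by omega
      exact col_RH hk hl
    · exfalso
      obtain ⟨h1, h2⟩ := h
      obtain rfl : y = y' + 1 := by omega
      obtain rfl : x = x' := by omega
      exact col_RH hl hk
    · rw [show x = x' by omega, show y = y' by omega]
  · unfold rt at h
    simp only at h
    split_ifs at h with c1 c2 c2 <;> simp only [Prod.mk.injEq] at h
    · rw [show x = x' by omega, show y = y' by omega]
    · exfalso
      obtain ⟨h1, h2⟩ := h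
      obtain rfl : x = x' + 1 := by omega
      subst h2
      exact col_FH hl hk
    · exfalso
      obtain ⟨h1, h2⟩ := h
      obtain rfl : x' = x + 1 := by omega
      subst h2
      exact col_FH hk hl
    · rw [h.1, h.2]
  · exact absurd hk (by simp [CPH])

end Pool.Agent.H76.W
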