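import Mathlib
import Pool.Agent.H76.W.Tie

set_option autoImplicit false
open Finset

/-! # The tied forms of the environments of the windows with a horizontal line

`CPHs D τ` : all caps. For a finite set `P` of caps: `ETH`, `WTH`, `XTH` : random labels, open labels and
the environment in which the two tiles of every cap of `P` are one tile (`kt k`); `qTg P q` : its weights,
`q` arbitrary. `XH_tied` : the increments are the same at all corners which are not at the points of `P`.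
`qT_tie` : the weight of a tie, `wkH` = weight of the line. -/

namespace Pool.Agent.H76.W

open Pool.Agent.H75.TwoArm Pool.Agent.Q1 Pool.Agent.H33.Q1
open Pool.Agent.H75.Perc (lab)
open Pool.Agent.H69.Q1
open Pool.Agent.H13.R45 Pool.Agent.H13.Q1
open Pool.Agent.H74.R45 (exists_lt)
open Pool.Agent.H54.W Pool.Agent.H54.W.HWin
open Pool.Agent.H42.Sp (Sd Ix kt rt kt_odd rt_even kt_Tg rt_Tg cap_of OTp InP rts_iff kts_iff mem_OTp
  rt_eq kt_eq tw mg_tw mg_tw' plab_at)

variable {D : HWin} {τ : ℤ → ℤ} {x y : ℤ}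

/-! ### All caps -/

open Classical in
/-- all caps -/
noncomputable def CPHs (D : HWin) (τ : ℤ → ℤ) : Finset Ix :=
  ((univ : Finset Sd) ×ˢ (Icc (D.p - 1) (D.q + 1) ×ˢ Icc (D.lo - 1) D.w)).filter (CPH D τ)

theorem mem_CPHs (H : HPos D τ) {k : Ix} : k ∈ CPHs D τ ↔ CPH D τ k := by
  classical
  unfold CPHs
  rw [mem_filter]
  refine ⟨fun h => h.2, fun h => ⟨?_, h⟩⟩
  have hh := D.hh
  obtain ⟨s, x, y⟩ := k
  simp only [mem_product, mem_univ, true_and, mem_Icc]
  cases s
  · rcases h with ⟨a1, a2, a3, a4, -⟩ | ⟨a1, a2, a3, -⟩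
    · have l1 := D.hlo (x + 1) (by omega) a2
      have l2 := H.lo (x + 1) (by omega) a2
      have l3 := H.hi x a1 (by omega)
      omega
    · have l1 := D.hlo D.p le_rfl (by omega)
      have l2 := H.lo D.p le_rfl (by omega)
      omega
  · rcases h with ⟨a1, a2, a3, a4, -⟩ | ⟨a1, a2, a3, -⟩
    · have l1 := D.hlo (x - 2) (by omega) (by omega)
      have l2 := H.lo (x - 2) (by omega) (by omega)
      have l3 := H.hi (x - 1) (by omega) (by omega)
      omega
    · have l1 := D.hlo (D.q - 1) (by omega) (by omega)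
      have l2 := H.lo (D.q - 1) (by omega) (by omega)
      omega
  · obtain ⟨a1, a2, a3, a4, a5, a6, -⟩ := h
    have l1 := D.hlo x (by omega) a2
    have l2 := D.aw x (by omega) a2
    omega
  · exact absurd h (by simp [CPH])

/-- a corner with its second label outside of the box is not at a cap -/
theorem noroot' (H : HPos D τ) {k : Ix} (hk : CPH D τ k) {z : ℤ × ℤ} (hz : plab z ∉ D.GA) :
    ¬ Ag k.2 z := fun h => hz (cap_nearH H hk (plab_at h))

/-- a corner with its label outside of the box is not at a cap -/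
theorem noroot'' (H : HPos D τ) {k : Ix} (hk : CPH D τ k) {z : ℤ × ℤ} (hz : lab z ∉ D.GA) :
    ¬ Ag k.2 z := fun h => hz (cap_nearH H hk (lab_at h))

/-! ### The environment -/

/-- random labels of the tied form -/
noncomputable def ETH (D : HWin) (τ : ℤ → ℤ) (P : Finset Ix) : Finset (ℤ × ℤ) :=
  D.EH τ \ P.image (fun k => lt (rt k))

/-- open labels of the tied form -/
noncomputable def WTH (D : HWin) (τ : ℤ → ℤ) (P : Finset Ix) (Wo : Finset (ℤ × ℤ)) :
    Finset (ℤ × ℤ) := D.WH τ Wo ∪ OTp P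

open Classical in
/-- open weights of the tied form -/
noncomputable def qTg (P : Finset Ix) (q : ℤ × ℤ → ℂ) (e : ℤ × ℤ) : ℂ :=
  if h : ∃ k ∈ P, lt (kt k) = e then
    mg (ev h.choose.2) (q (lt (kt h.choose))) (q (lt (rt h.choose)))
  else q e

theorem qTg_kt (H : HPos D τ) {P : Finset Ix} (hP : ∀ k ∈ P, CPH D τ k) {q : ℤ × ℤ → ℂ}
    {k : Ix} (hk : k ∈ P) : qTg P q (lt (kt k)) =
      mg (ev k.2) (q (lt (kt k))) (q (lt (rt k))) := by
  classical
  have h : ∃ l ∈ P, lt (kt l) = lt (kt k) := ⟨k, hk, rfl⟩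
  unfold qTg
  rw [dif_pos h]
  have h2 := h.choose_spec
  have h3 : h.choose = k := kt_injH H (hP _ h2.1) (hP _ hk) (lt_inj h2.2)
  rw [h3]

theorem qTg_other {P : Finset Ix} {q : ℤ × ℤ → ℂ} {e : ℤ × ℤ} (h : ∀ k ∈ P, lt (kt k) ≠ e) :
    qTg P q e = q e := by
  classical
  unfold qTg
  rw [dif_neg]
  rintro ⟨k, hk, h2⟩
  exact h k hk h2

theorem ETH_sub {P : Finset Ix} : ETH D τ P ⊆ D.EH τ := sdiff_subset

theorem OTp_subH (H : HPos D τ) (O : HOut D) {P : Finset Ix} (hP : ∀ k ∈ P, CPH D τ k) :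
    OTp P ⊆ D.EH τ := by
  intro e he
  unfold OTp at he
  obtain ⟨k, hk, rfl⟩ := mem_image.1 he
  exact (cap_CPH H O (hP k (mem_filter.1 hk).1)).m2

theorem disj_ETWTH (O : HOut D) (P : Finset Ix) : Disjoint (ETH D τ P) (WTH D τ P O.Wo) := by
  unfold WTH
  rw [disjoint_union_right]
  refine ⟨(disj_EW τ O).mono_left ETH_sub, ?_⟩
  rw [disjoint_left]
  intro e he he'
  unfold ETH at he
  unfold OTp at he'
  obtain ⟨k, hk, rfl⟩ := mem_image.1 he'
  exact (mem_sdiff.1 he).2 (mem_image_of_mem _ (mem_filter.1 hk).1)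

theorem ETWTH_sub (H : HPos D τ) (O : HOut D) {P : Finset Ix} (hP : ∀ k ∈ P, CPH D τ k) :
    ETH D τ P ∪ WTH D τ P O.Wo ⊆ D.GA ∪ O.Wo := by
  refine Subset.trans ?_ (EW_sub (τ := τ) O)
  unfold WTH
  refine union_subset (ETH_sub.trans subset_union_left) (union_subset subset_union_right ?_)
  exact (OTp_subH H O hP).trans subset_union_left

/-- **The tied form of the environment with the line at the position `τ`**, the caps of `P` are merged. -/
noncomputable def XTH (O : HOut D) (H : HPos D τ) (P : Finset Ix) (hP : ∀ k ∈ P, CPH D τ k) : Env :=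
  Env.plane (ETH D τ P) (WTH D τ P O.Wo) O.c0 O.k0 O.g (fun _ he => odd_EH (ETH_sub he))
    (disj_ETWTH O P) O.hk (fun h => O.hroot (EH_sub (ETH_sub h)))
    (O.hg.anti (ETWTH_sub H O hP)) (fun v hv => O.hlow v (hv.mono (ETWTH_sub H O hP)))

variable {O : HOut D} {H : HPos D τ} {P : Finset Ix} {hP : ∀ k ∈ P, CPH D τ k} {q : ℤ × ℤ → ℂ}

@[simp] theorem XTH_E : (XTH O H P hP).E = ETH D τ P := rfl
@[simp] theorem XTH_c0 : (XTH O H P hP).c0 = O.c0 := rfl
@[simp] theorem XTH_k0 : (XTH O H P hP).k0 = O.k0 := rfl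
@[simp] theorem XTH_T : (XTH O H P hP).T = 4 := rfl

/-- **The tied form has the same increments** at all corners which are not at the points of `P`. -/
theorem XH_tied {z : ℤ × ℤ} (hz : ∀ k ∈ P, ¬ Ag k.2 z) :
    (XTH O H P hP).incW (qTg P q) z = (XH O τ).incW q z := by
  unfold XTH XH
  rw [plane_incW, plane_incW]
  unfold WTH OTp ETH
  exact iW_ties P (fun k => ev k.2) (fun k => gp k.2) (fun k => lt (kt k)) (fun k => lt (rt k))
    (fun k hk => cap_CPH H O (hP k hk)) (disj_EW τ O)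
    (fun k hk l hl hne => ⟨fun h => hne (kt_injH H (hP k hk) (hP l hl) (lt_inj h)),
      fun h => by
        have e1 := kt_odd k
        have e2 := rt_even l
        rw [lt_inj h] at e1
        omega,
      fun h => hne (rt_injH H (hP k hk) (hP l hl) (lt_inj h))⟩)
    (fun k hk => noroot' H (hP k hk) O.hroot) hz (fun k hk => qTg_kt H hP hk)
    (fun e _ hn => qTg_other (fun k hk h => (hn k hk).1 h.symm))

/-- **The tied form has the same increments** at the corners outside of the box. -/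
theorem XH_tied_out {z : ℤ × ℤ} (hz : plab z ∉ D.GA ∨ lab z ∉ D.GA) :
    (XTH O H P hP).incW (qTg P q) z = (XH O τ).incW q z := by
  refine XH_tied fun k hk => ?_
  rcases hz with h | h
  · exact noroot' H (hP k hk) h
  · exact noroot'' H (hP k hk) h

/-! ### The weights of the ties -/

/-- weight of the line at a cap -/
noncomputable def wkH (a b c : ℂ) (k : Ix) : ℂ :=
  if k.1 = .L then b else if k.1 = .R then c else a

variable {a b c : ℂ}

lemma qH_lt (a b c : ℂ) (x y : ℤ) :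
    D.qH τ a b c (lt (x, y)) = Win.wal x y (D.wA τ a b c x y) := by
  unfold qH
  simp only [tt_lt]

/-- weights on a run to the south -/
theorem wA_S (H : HPos D τ) (h : D.RS τ x y ∨ D.RL τ x y) : D.wA τ a b c x y = 1 - b := by
  have hh := D.hh
  unfold wA
  rcases h with h | h
  · have k := h.pos H
    obtain ⟨h1, h2, h3, h4⟩ := h
    rw [if_neg (by omega), if_neg (by omega), if_neg (by omega), if_pos (by omega),
      if_pos ⟨h2, by omega⟩]
  · have := h.1
    rw [if_pos (by omega)]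

/-- weights on a run to the north -/
theorem wA_N (H : HPos D τ) (h : D.RN τ x y ∨ D.RR τ x y) : D.wA τ a b c x y = 1 - c := by
  have hh := D.hh
  unfold wA
  rcases h with h | h
  · have k := h.pos H
    obtain ⟨h1, h2, h3, h4⟩ := h
    rw [if_neg (by omega), if_neg (by omega), if_neg (by omega), if_pos (by omega), if_neg]
    rintro ⟨h5, h6⟩
    exact up_dn H h1 h5 (by omega) h6
  · have := h.1
    rw [if_neg (by omega), if_pos (by omega)]

/-- weights of the straight tiles in the columns -/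
theorem wA_E (h0 : D.p ≤ x) (h1 : x < D.q) (h2 : y = τ x - 1) (h3 : x + 1 < D.q → τ x ≤ τ (x + 1))
    (h4 : D.p < x → τ x ≤ τ (x - 1)) : D.wA τ a b c x y = a := by
  unfold wA
  rw [if_neg (by omega), if_neg (by omega), if_pos h2, if_neg, if_neg]
  · rintro ⟨h5, h6⟩
    have := h4 h5
    omega
  · rintro ⟨h5, h6⟩
    have := h3 h5
    omega

theorem wal_oddH {w : ℂ} (h : (x + y) % 2 = 1) : Win.wal x y w = 1 - w := by
  unfold Win.wal; rw [if_neg (by omega)]

theorem wal_evenH {w : ℂ} (h : (x + y) % 2 = 0) : Win.wal x y w = w := by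
  unfold Win.wal; rw [if_pos h]

/-- **The weights of the ties.** -/
theorem qT_tie (H : HPos D τ) {P : Finset Ix} (hP : ∀ k ∈ P, CPH D τ k) {q : ℤ × ℤ → ℂ} {k : Ix}
    (hk : k ∈ P) (h1 : q (lt (kt k)) = D.qH τ a b c (lt (kt k)))
    (h2 : q (lt (rt k)) = D.qH τ a b c (lt (rt k))) :
    qTg P q (lt (kt k)) = tw k.2 (wkH a b c k) := by
  rw [qTg_kt H hP hk, h1, h2]
  have hck := hP k hk
  have e1 := kt_odd k
  have e2 := rt_even k
  clear hk hP h1 h2
  obtain ⟨s, x, y⟩ := k
  cases s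
  · -- runs to the south
    obtain ⟨r1, r2⟩ : (D.RS τ x y ∨ D.RL τ x y) ∧ (D.RS τ x (y - 1) ∨ D.RL τ x (y - 1)) := by
      rcases hck with ⟨a1, a2, a3, a4, -⟩ | ⟨a1, a2, a3, -⟩
      · exact ⟨Or.inl ⟨a1, a2, by omega, by omega⟩, Or.inl ⟨a1, a2, by omega, by omega⟩⟩
      · exact ⟨Or.inr ⟨a1, by omega, by omega⟩, Or.inr ⟨a1, by omega, by omega⟩⟩
    have k1 := wA_S (a := a) (b := b) (c := c) H r1
    have k2 := wA_S (a := a) (b := b) (c := c) H r2
    have hw : wkH a b c (.L, (x, y)) = b := by unfold wkH; simp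
    rw [hw]
    by_cases h : (x + y) % 2 = 1
    · unfold kt rt
      simp only [if_pos h]
      rw [qH_lt, qH_lt, k1, k2, wal_oddH h, wal_evenH (by omega),
        show (1 : ℂ) - (1 - b) = b by ring]
      exact mg_tw _ _
    · unfold kt rt
      simp only [if_neg h]
      rw [qH_lt, qH_lt, k1, k2, wal_oddH (by omega), wal_evenH (by omega),
        show (1 : ℂ) - (1 - b) = b by ring]
      exact mg_tw _ _
  · -- runs to the north
    obtain ⟨r1, r2⟩ : (D.RN τ (x - 1) y ∨ D.RR τ (x - 1) y) ∧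
        (D.RN τ (x - 1) (y - 1) ∨ D.RR τ (x - 1) (y - 1)) := by
      have e3 : x - 1 - 1 = x - 2 := by ring
      rcases hck with ⟨a1, a2, a3, a4, -⟩ | ⟨a1, a2, a3, -⟩
      · exact ⟨Or.inl ⟨a1, a2, by rw [e3]; omega, by omega⟩,
          Or.inl ⟨a1, a2, by rw [e3]; omega, by omega⟩⟩
      · exact ⟨Or.inr ⟨by omega, by omega, by omega⟩, Or.inr ⟨by omega, by omega, by omega⟩⟩
    have k1 := wA_N (a := a) (b := b) (c := c) H r1
    have k2 := wA_N (a := a) (b := b) (c := c) H r2
    have hw : wkH a b c (.R, (x, y)) = c := by unfold wkH; simp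
    rw [hw]
    by_cases h : (x + y) % 2 = 1
    · unfold kt rt
      simp only [if_pos h]
      rw [qH_lt, qH_lt, k1, k2, wal_oddH (by omega), wal_evenH (by omega),
        show (1 : ℂ) - (1 - c) = c by ring]
      exact mg_tw _ _
    · unfold kt rt
      simp only [if_neg h]
      rw [qH_lt, qH_lt, k1, k2, wal_oddH (by omega), wal_evenH (by omega),
        show (1 : ℂ) - (1 - c) = c by ring]
      exact mg_tw _ _
  · -- floors
    obtain ⟨a1, a2, a3, a4, a5, a6, a7, a8, -⟩ := hck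
    have k1 : D.wA τ a b c x y = a :=
      wA_E (by omega) a2 (by omega) a8 (fun _ => by omega)
    have k2 : D.wA τ a b c (x - 1) y = a := by
      refine wA_E (by omega) (by omega) (by omega) (fun _ => ?_) (fun h => ?_)
      · rw [sub_add_cancel]; omega
      · have := a7 h
        rw [show x - 1 - 1 = x - 2 by ring]
        omega
    have hw : wkH a b c (.F, (x, y)) = a := by unfold wkH; simp
    rw [hw]
    by_cases h : (x + y) % 2 = 1
    · unfold kt rt
      simp only [if_pos h]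
      rw [qH_lt, qH_lt, k1, k2, wal_oddH h, wal_evenH (by omega)]
      exact mg_tw' _ _
    · unfold kt rt
      simp only [if_neg h]
      rw [qH_lt, qH_lt, k1, k2, wal_oddH (by omega), wal_evenH (by omega)]
      exact mg_tw' _ _
  · exact absurd hck (by simp [CPH])

/-! ### Membership -/

/-- random tiles of the tied form -/
theorem mem_ETH (H : HPos D τ) : lt (x, y) ∈ ETH D τ P ↔
    D.InE τ x y ∧ ¬ ((x + y) % 2 = 0 ∧ InP P x y) := by
  unfold ETH
  rw [mem_sdiff, mem_EH H, ← rts_iff, mem_image]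
  constructor
  · rintro ⟨h1, h2⟩
    exact ⟨h1, fun ⟨k, hk, h3⟩ => h2 ⟨k, hk, by rw [h3]⟩⟩
  · rintro ⟨h1, h2⟩
    exact ⟨h1, fun ⟨k, hk, h3⟩ => h2 ⟨k, hk, lt_inj h3⟩⟩

theorem odd_ETH (H : HPos D τ) (h : (x + y) % 2 = 1) :
    lt (x, y) ∈ ETH D τ P ↔ D.InE τ x y := by
  rw [mem_ETH H]
  exact ⟨fun h => h.1, fun h2 => ⟨h2, fun h3 => by omega⟩⟩

/-- open tiles of the tied form -/
theorem mem_WTH {Wo : Finset (ℤ × ℤ)} : lt (x, y) ∈ WTH D τ P Wo ↔ D.InO τ x y ∨
    lt (x, y) ∈ Wo ∨ ((x + y) % 2 = 0 ∧ ((.L, (x, y)) ∈ P ∨ (.R, (x + 1, y + 1)) ∈ P ∨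
    (.F, (x, y)) ∈ P ∨ (.C, (x + 1, y + 1)) ∈ P)) := by
  unfold WTH WH
  rw [mem_union, mem_union, HWin.mem_WR, mem_OTp]
  tauto

theorem odd_WTH {Wo : Finset (ℤ × ℤ)} (h : (x + y) % 2 = 1) : lt (x, y) ∈ WTH D τ P Wo ↔
    lt (x, y) ∈ D.WH τ Wo := by
  unfold WTH
  rw [mem_union, mem_OTp]
  exact ⟨fun h2 => h2.resolve_right fun h3 => by omega, Or.inl⟩

end Pool.Agent.H76.W
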