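import Mathlib
import Pool.Agent.H76.W.TieE
import Pool.Agent.H30.W.RowE
import Pool.Agent.H85.W.Tile

set_option autoImplicit false
open Finset

/-! # The coupon at one tile: amplitudes and tied forms

`Gz_AG` : the coupon `Gz` of `H85/W/Tile.lean` (open minus closed) at a tile of the family `lb` is, up to a
sign, the weighted sum of the amplitudes with the coupon `(1, -1)` at this tile. `Gz_tied` : the coupon of the
environment of a window is the coupon of the tied form. -/

namespace Pool.Agent.H76.W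

open Pool.Agent.H75.Perc (lab)
open Pool.Agent.H75.TwoArm hiding EF
open Pool.Agent.Q1 Pool.Agent.H33.Q1 Pool.Agent.H69.Q1
open Pool.Agent.H81.G1 (wA wB osn)
open Pool.Agent.H13.R45 Pool.Agent.H13.Q1
open Pool.Agent.H54.W
open Pool.Agent.H54.W.HWin hiding wA
open Pool.Agent.H42.Sp (Sd Ix kt rt)
open Pool.Agent.H30.W (AG Fam gp incW_AG)
open Pool.Agent.H85.W (upd upd_self upd_ne Gz)

section ag

variable {ι : Type*} [Fintype ι] [DecidableEq ι] {X : Env} {lb : ι → ℤ × ℤ}

/-- the product of the weights as an affine function of the weights of one tile -/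
lemma prod_upd (a b : ι → ℂ) (k : ι) (a1 b1 : ℂ) (s : ι → Bool) :
    (∏ i, if s i then Function.update b k b1 i else Function.update a k a1 i) =
      (if s k then b1 else a1) * ∏ i ∈ univ.erase k, (if s i then b i else a i) := by
  rw [← mul_prod_erase univ _ (mem_univ k)]
  simp only [Function.update_self]
  congr 1
  refine prod_congr rfl fun i hi => ?_
  have h := ne_of_mem_erase hi
  rw [Function.update_of_ne h, Function.update_of_ne h]

/-- **The amplitude is linear in the weights of one tile.** -/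
theorem AG_sub (ct : ℤ × ℤ) (a b : ι → ℂ) (k : ι) (a1 b1 a2 b2 : ℂ) (ω : Finset (ℤ × ℤ)) :
    AG X lb ct (Function.update a k a1) (Function.update b k b1) ω -
      AG X lb ct (Function.update a k a2) (Function.update b k b2) ω =
      AG X lb ct (Function.update a k (a1 - a2)) (Function.update b k (b1 - b2)) ω := by
  unfold AG
  rw [← sum_sub_distrib]
  refine sum_congr rfl fun s _ => ?_
  rw [prod_upd, prod_upd, prod_upd]
  split_ifs <;> ring

theorem AG_smul (ct : ℤ × ℤ) (a b : ι → ℂ) (k : ι) (u a1 b1 : ℂ) (ω : Finset (ℤ × ℤ)) :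
    AG X lb ct (Function.update a k (u * a1)) (Function.update b k (u * b1)) ω =
      u * AG X lb ct (Function.update a k a1) (Function.update b k b1) ω := by
  unfold AG
  rw [mul_sum]
  refine sum_congr rfl fun s _ => ?_
  rw [prod_upd, prod_upd]
  split_ifs <;> ring

/-- the sign of the coupon -/
def sgp (lb : ι → ℤ × ℤ) (k : ι) : ℂ := if gp lb k then -1 else 1

lemma norm_sgp (k : ι) : ‖sgp lb k‖ = 1 := by
  unfold sgp
  split_ifs <;> simp

lemma wA_upd (h : Function.Injective lb) (q : ℤ × ℤ → ℂ) (k : ι) (z : ℂ) :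
    wA lb (gp lb) (upd q (lb k) z) =
      Function.update (wA lb (gp lb) q) k (if gp lb k then 1 - z else z) := by
  funext i
  by_cases hi : i = k
  · subst hi
    rw [Function.update_self]
    unfold wA
    rw [upd_self]
  · rw [Function.update_of_ne hi]
    unfold wA
    rw [upd_ne _ _ (fun e => hi (h e))]

lemma wB_upd (h : Function.Injective lb) (q : ℤ × ℤ → ℂ) (k : ι) (z : ℂ) :
    wB lb (gp lb) (upd q (lb k) z) =
      Function.update (wB lb (gp lb) q) k (if gp lb k then z else 1 - z) := by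
  funext i
  by_cases hi : i = k
  · subst hi
    rw [Function.update_self]
    unfold wB
    rw [upd_self]
  · rw [Function.update_of_ne hi]
    unfold wB
    rw [upd_ne _ _ (fun e => hi (h e))]

/-- **The coupon at a tile of the family.** -/
theorem Gz_AG (h : Fam X lb) (q : ℤ × ℤ → ℂ) (k : ι) (ct : ℤ × ℤ) :
    Gz X q (lb k) ct = sgp lb k * Ec q (X.E \ univ.image lb)
      (AG X lb ct (Function.update (wA lb (gp lb) q) k 1) (Function.update (wB lb (gp lb) q) k (-1))) := by
  have hq : ∀ (z : ℂ) (F : Finset (ℤ × ℤ) → ℂ), Ec (upd q (lb k) z) (X.E \ univ.image lb) F =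
      Ec q (X.E \ univ.image lb) F := fun z F => Ec_congr_q (fun e he => upd_ne q z fun h2 =>
        (mem_sdiff.1 he).2 (mem_image.2 ⟨k, mem_univ _, h2.symm⟩)) F
  unfold Gz
  rw [incW_AG h, incW_AG h, hq, hq, wA_upd h.inj, wB_upd h.inj, wA_upd h.inj, wB_upd h.inj,
    ← Ec_sub, ← Ec_smul]
  refine Ec_congr fun ω _ => ?_
  rw [AG_sub, ← AG_smul]
  congr 2
  · unfold sgp
    split_ifs <;> ring
  · unfold sgp
    split_ifs <;> ring

end ag

/-! ### The tied form -/

section tie

variable {D : HWin} {τ : ℤ → ℤ} {O : HOut D} {H : HPos D τ} {P : Finset Ix} {hP : ∀ k ∈ P, CPH D τ k}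
  {q : ℤ × ℤ → ℂ}

/-- the weights of the tied form, changed at a tile which is not a tile of a tie -/
theorem upd_qTg (H : HPos D τ) (hP : ∀ k ∈ P, CPH D τ k) {e : ℤ × ℤ}
    (h1 : ∀ k ∈ P, lt (kt k) ≠ e) (h2 : ∀ k ∈ P, lt (rt k) ≠ e) (z : ℂ) :
    qTg P (upd q e z) = upd (qTg P q) e z := by
  funext e'
  by_cases h : ∃ k ∈ P, lt (kt k) = e'
  · obtain ⟨k, hk, rfl⟩ := h
    rw [qTg_kt H hP hk, upd_ne _ _ (h1 k hk), upd_ne _ _ (h2 k hk), upd_ne _ _ (h1 k hk),
      qTg_kt H hP hk]
  · push Not at h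
    rw [qTg_other h]
    by_cases he : e' = e
    · rw [he, upd_self, upd_self]
    · rw [upd_ne _ _ he, upd_ne _ _ he, qTg_other h]

/-- **The coupon of the tied form.** -/
theorem Gz_tied {e ct : ℤ × ℤ} (h1 : ∀ k ∈ P, lt (kt k) ≠ e) (h2 : ∀ k ∈ P, lt (rt k) ≠ e)
    (hz : plab ct ∉ D.GA ∨ lab ct ∉ D.GA) :
    Gz (XTH O H P hP) (qTg P q) e ct = Gz (XH O τ) q e ct := by
  unfold Gz
  rw [← upd_qTg H hP h1 h2, ← upd_qTg H hP h1 h2, XH_tied_out hz, XH_tied_out hz]

end tie

end Pool.Agent.H76.W
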