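import Mathlib
import Pool.Agent.H76.W.GTie
import Pool.Agent.H76.W.CoefZ
import Pool.Agent.H76.Sp.WinX

set_option autoImplicit false
open Finset

/-! # A straight piece of the line in a column window

`Seg D τ N x0 y0` : the line is in the row `y0` (`τ = y0 + 1`) in the `N` columns from `x0` on, above the
floor. `Bul D τ x y` : tile of the union which is not a tile of the line, `BKs` their labels. `cap_tiles` :
the tiles of the caps. `fam_Z` : the row and the labels `l2` of bulk tiles form a family of the tied form.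
`CSz` : the other random labels, `E_Z` : decomposition. `Gz_win` : the coupon at the column `k` of the row
as a weighted sum of amplitudes. -/

namespace Pool.Agent.H76.W

open Pool.Agent.H75.Perc hiding AR VV
open Pool.Agent.H75.TwoArm hiding EF
open Pool.Agent.H99.NC
open Pool.Agent.Q1 Pool.Agent.H33.Q1 Pool.Agent.H69.Q1
open Pool.Agent.Q1.M6b.Gd Pool.Agent.H76.R45
open Pool.Agent.H30.Mid hiding mem_RS
open Pool.Agent.H13.R45 hiding gp
open Pool.Agent.H13.Q1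
open Pool.Agent.H54.W
open Pool.Agent.H54.W.HWin hiding wA RS
open Pool.Agent.H46.Sp
open Pool.Agent.H42.Sp (Sd Ix kt rt kt_odd rt_even kt_Tg rt_Tg kt_F rt_F kt_L rt_L kt_R rt_R tw)
open Pool.Agent.H74.R45 (exists_lt)
open Pool.Agent.H76.Sp (tA tF tF_sub lw w3 zt_sum)
open Pool.Agent.H69.M6b (lbt)
open Pool.Agent.H30.W (AG Fam lbE XS eA eB gp image_lbE image_elim)
open Pool.Agent.H85.W (upd upd_self upd_ne Gz)

variable {D : HWin} {τ : ℤ → ℤ} {x y : ℤ}

/-! ### Bulk tiles -/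

/-- a tile of the union which is not a tile of the line -/
def Bul (D : HWin) (τ : ℤ → ℤ) (x y : ℤ) : Prop := D.InU x y ∧ y ≠ τ x - 1

/-- labels of the bulk tiles -/
noncomputable def BKs (D : HWin) (τ : ℤ → ℤ) : Finset (ℤ × ℤ) := D.TS (Bul D τ)

theorem mem_BKs (H : HPos D τ) : lt (x, y) ∈ BKs D τ ↔ Bul D τ x y := by
  unfold BKs
  rw [mem_TS]
  exact ⟨fun h => h.2, fun h => ⟨InE.inZ H (Or.inl h.1), h⟩⟩

theorem odd_BKs {e : ℤ × ℤ} (he : e ∈ BKs D τ) : (e.1 + e.2) % 2 = 1 := D.odd_TS he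

theorem BKs_sub (H : HPos D τ) : BKs D τ ⊆ D.EH τ := by
  intro e he
  obtain ⟨x, y, rfl⟩ := exists_lt (odd_BKs he)
  exact (mem_EH H).2 (Or.inl ((mem_BKs H).1 he).1)

/-- **The tiles of the caps.** -/
theorem cap_tiles {k : Ix} (hk : CPH D τ k) {t : ℤ × ℤ} (ht : t = kt k ∨ t = rt k) :
    (D.RS τ t.1 t.2 ∨ D.RN τ t.1 t.2 ∨ D.RL τ t.1 t.2 ∨ D.RR τ t.1 t.2) ∨
      (D.p ≤ t.1 ∧ t.1 < D.q ∧ t.2 = τ t.1 - 1 ∧ D.a t.1 = τ t.1) := by
  obtain ⟨s, x, y⟩ := k
  cases s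
  · have h3 : t = (x, y) ∨ t = (x, y - 1) := by
      rcases ht with h | h <;> rw [h]
      · exact kt_L
      · exact rt_L
    left
    rcases hk with ⟨a1, a2, a3, a4, -⟩ | ⟨a1, a2, a3, -⟩
    · left
      rcases h3 with h | h <;> subst h
      · exact ⟨a1, a2, by simp only; omega, by simp only; omega⟩
      · exact ⟨a1, a2, by simp only; omega, by simp only; omega⟩
    · right; right; left
      rcases h3 with h | h <;> subst h
      · exact ⟨a1, by simp only; omega, by simp only; omega⟩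
      · exact ⟨a1, by simp only; omega, by simp only; omega⟩
  · have h3 : t = (x - 1, y) ∨ t = (x - 1, y - 1) := by
      rcases ht with h | h <;> rw [h]
      · exact kt_R
      · exact rt_R
    left
    have e3 : x - 1 - 1 = x - 2 := by ring
    rcases hk with ⟨a1, a2, a3, a4, -⟩ | ⟨a1, a2, a3, -⟩
    · right; left
      rcases h3 with h | h <;> subst h
      · exact ⟨a1, a2, by simp only [e3]; omega, by simp only; omega⟩
      · exact ⟨a1, a2, by simp only [e3]; omega, by simp only; omega⟩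
    · right; right; right
      rcases h3 with h | h <;> subst h
      · exact ⟨by simp only; omega, by simp only; omega, by simp only; omega⟩
      · exact ⟨by simp only; omega, by simp only; omega, by simp only; omega⟩
  · have h3 : t = (x, y) ∨ t = (x - 1, y) := by
      rcases ht with h | h <;> rw [h]
      · exact kt_F
      · exact rt_F
    right
    obtain ⟨a1, a2, a3, a4, a5, a6, -⟩ := hk
    rcases h3 with h | h <;> subst h
    · exact ⟨by simp only; omega, a2, by simp only; omega, by simp only; omega⟩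
    · exact ⟨by simp only; omega, by simp only; omega, by simp only; omega, by simp only; omega⟩
  · exact absurd hk (by simp [CPH])

/-- the tiles of the caps are not bulk tiles -/
theorem cap_not_bul (H : HPos D τ) {k : Ix} (hk : CPH D τ k) {t : ℤ × ℤ}
    (ht : t = kt k ∨ t = rt k) : ¬ Bul D τ t.1 t.2 := by
  intro h
  rcases cap_tiles hk ht with h1 | ⟨-, -, h1, -⟩
  · exact run_out H h1 h.1
  · exact h.2 h1

/-- weights of the bulk tiles -/
theorem qH_bul {a b c : ℂ} (h : Bul D τ x y) : D.qH τ a b c (lt (x, y)) = 1 / 2 := by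
  obtain ⟨⟨h1, h2, h3, h4⟩, h5⟩ := h
  have e1 : D.wA τ a b c x y = 1 / 2 := by
    unfold HWin.wA
    rw [if_neg (by omega), if_neg (by omega), if_neg h5, if_neg (by omega)]
  rw [qH_lt, e1]
  unfold Pool.Agent.H54.W.Win.wal
  split_ifs <;> norm_num

/-! ### The straight piece -/

/-- **The line is straight in the row `y0`** in the `N` columns from `x0` on, above the floor. -/
structure Seg (D : HWin) (τ : ℤ → ℤ) (N : ℕ) (x0 y0 : ℤ) : Prop where
  lo : D.p ≤ x0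
  hi : x0 + N ≤ D.q
  tau : ∀ x, x0 ≤ x → x < x0 + N → τ x = y0 + 1
  fl : ∀ x, x0 ≤ x → x < x0 + N → D.a x ≤ y0

variable {N : ℕ} {x0 y0 : ℤ}

/-- the tiles of the row are in the union -/
theorem Seg.inU (h : Seg D τ N x0 y0) (H : HPos D τ) (h1 : x0 ≤ x) (h2 : x < x0 + N) :
    D.InU x y0 := by
  have k1 := h.lo
  have k2 := h.hi
  have k3 := h.tau x h1 h2
  have k4 := h.fl x h1 h2
  have k5 := H.hi x (by omega) (by omega)
  exact ⟨by omega, by omega, by omega, by omega⟩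

/-- the tiles of the row are not tiles of caps -/
theorem Seg.not_cap (h : Seg D τ N x0 y0) (H : HPos D τ) (h1 : x0 ≤ x) (h2 : x < x0 + N) {k : Ix}
    (hk : CPH D τ k) {t : ℤ × ℤ} (ht : t = kt k ∨ t = rt k) : t ≠ (x, y0) := by
  intro e
  have h3 := h.inU H h1 h2
  have k3 := h.tau x h1 h2
  have k4 := h.fl x h1 h2
  rcases cap_tiles hk ht with h4 | ⟨-, -, -, h4⟩
  · rw [e] at h4
    exact run_out H h4 h3
  · rw [e] at h4
    simp only at h4
    omega

/-- weights of the tiles of the row -/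
theorem Seg.wA {a b c : ℂ} (h : Seg D τ N x0 y0) (H : HPos D τ) (h1 : x0 ≤ x) (h2 : x < x0 + N) :
    D.wA τ a b c x y0 = a := by
  have k1 := h.lo
  have k2 := h.hi
  have k3 := h.tau x h1 h2
  have k4 := h.fl x h1 h2
  refine wA_E (by omega) (by omega) (by omega) (fun h3 => ?_) (fun h3 => ?_)
  · by_contra h5
    have := H.dn x (by omega) h3 (by omega)
    omega
  · by_contra h5
    have := H.up (x - 1) (by omega) (by omega) (by rw [sub_add_cancel]; omega)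
    rw [sub_add_cancel] at this
    omega

theorem Seg.not_bul (h : Seg D τ N x0 y0) (h1 : x0 ≤ x) (h2 : x < x0 + N) : ¬ Bul D τ x y0 := by
  intro h3
  have := h.tau x h1 h2
  have := h3.2
  omega

/-- labels of the row -/
theorem mem_RSz : lt (x, y) ∈ RS N x0 y0 ↔ x0 ≤ x ∧ x < x0 + N ∧ y = y0 := by
  rw [Pool.Agent.H30.Mid.mem_RS]
  constructor
  · rintro ⟨c, hc⟩
    have h1 := lt_inj (show lt (x0 + (c : ℕ), y0) = lt (x, y) from hc)
    simp only [Prod.mk.injEq] at h1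
    have := c.2
    omega
  · rintro ⟨h1, h2, rfl⟩
    refine ⟨⟨(x - x0).toNat, by omega⟩, ?_⟩
    show lt (x0 + (((x - x0).toNat : ℕ) : ℤ), y) = lt (x, y)
    congr 2
    omega

lemma rl_lt (c : Fin N) : rl x0 y0 c = lt (x0 + ((c : ℕ) : ℤ), y0) := rfl

/-! ### The family of the row and of bulk labels -/

section fam

variable {J : Type*} [Fintype J] [DecidableEq J] {l2 : J → ℤ × ℤ} {O : HOut D} {P : Finset Ix}
  {H : HPos D τ} {hP : ∀ k ∈ P, CPH D τ k}

/-- the row is random in the tied form -/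
theorem row_ETH (h : Seg D τ N x0 y0) (H : HPos D τ) (hP : ∀ k ∈ P, CPH D τ k) (h1 : x0 ≤ x)
    (h2 : x < x0 + N) : lt (x, y0) ∈ ETH D τ P := by
  unfold ETH
  rw [mem_sdiff, mem_EH H, mem_image]
  refine ⟨Or.inl (h.inU H h1 h2), ?_⟩
  rintro ⟨k, hk, h3⟩
  exact h.not_cap H h1 h2 (hP k hk) (Or.inr rfl) (lt_inj h3)

/-- the bulk is random in the tied form -/
theorem bul_ETH (H : HPos D τ) (hP : ∀ k ∈ P, CPH D τ k) {e : ℤ × ℤ} (he : e ∈ BKs D τ) :
    e ∈ ETH D τ P := by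
  obtain ⟨x, y, rfl⟩ := exists_lt (odd_BKs he)
  rw [mem_BKs H] at he
  unfold ETH
  rw [mem_sdiff, mem_EH H, mem_image]
  refine ⟨Or.inl he.1, ?_⟩
  rintro ⟨k, hk, h3⟩
  have h4 := cap_not_bul H (hP k hk) (t := rt k) (Or.inr rfl)
  rw [lt_inj h3] at h4
  exact h4 he

/-- **The row and bulk labels form a family.** -/
theorem fam_Z (h : Seg D τ N x0 y0) (hinj : Function.Injective l2) (hl2 : ∀ j, l2 j ∈ BKs D τ) :
    Fam (XTH O H P hP) (lbE N x0 y0 l2) := by
  constructor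
  · rintro (i | i) (j | j) hij
    · simp only [lbE, Sum.elim_inl] at hij
      rw [rl_inj _ _ hij]
    · exfalso
      simp only [lbE, Sum.elim_inl, Sum.elim_inr] at hij
      have h1 := hl2 j
      have hi := i.2
      rw [← hij, rl_lt, mem_BKs H] at h1
      exact h.not_bul (by omega) (by omega) h1
    · exfalso
      simp only [lbE, Sum.elim_inl, Sum.elim_inr] at hij
      have h1 := hl2 i
      have hj := j.2
      rw [hij, rl_lt, mem_BKs H] at h1
      exact h.not_bul (by omega) (by omega) h1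
    · simp only [lbE, Sum.elim_inr] at hij
      rw [hinj hij]
  · rintro (i | j)
    · have hi := i.2
      exact row_ETH h H hP (by omega) (by omega)
    · exact bul_ETH H hP (hl2 j)

end fam

/-! ### The other random labels -/

section sets

variable {J : Type*} [Fintype J] [DecidableEq J] {l2 : J → ℤ × ℤ} {P : Finset Ix}
  {Ti : Finset (ℤ × ℤ)}

/-- the bulk without the labels `l2` -/
noncomputable def BKz (D : HWin) (τ : ℤ → ℤ) (l2 : J → ℤ × ℤ) : Finset (ℤ × ℤ) := BKs D τ \ XS l2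

/-- the other random labels -/
noncomputable def CSz (D : HWin) (τ : ℤ → ℤ) (N : ℕ) (x0 y0 : ℤ) (l2 : J → ℤ × ℤ) (P : Finset Ix)
    (Ti : Finset (ℤ × ℤ)) : Finset (ℤ × ℤ) :=
  ETH D τ P \ (RS N x0 y0 ∪ XS l2 ∪ (Ti ∪ BKz D τ l2))

lemma BKz_sub : BKz D τ l2 ⊆ BKs D τ := sdiff_subset

theorem tA_lt {e : ℤ × ℤ} (he : e ∈ tA P) : ∃ k ∈ P, lt (kt k) = e := by
  unfold tA at he
  exact mem_image.1 he

theorem tA_ETH (O : HOut D) (H : HPos D τ) (hP : ∀ k ∈ P, CPH D τ k) : tA P ⊆ ETH D τ P := by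
  intro e he
  obtain ⟨k, hk, rfl⟩ := tA_lt he
  unfold ETH
  rw [mem_sdiff, mem_image]
  refine ⟨(cap_CPH H O (hP k hk)).m1, ?_⟩
  rintro ⟨l, hl, h⟩
  have e1 := kt_odd k
  have e2 := rt_even l
  rw [lt_inj h] at e2
  omega

theorem tA_bul (H : HPos D τ) (hP : ∀ k ∈ P, CPH D τ k) : Disjoint (tA P) (BKs D τ) := by
  rw [disjoint_left]
  intro e he h
  obtain ⟨k, hk, rfl⟩ := tA_lt he
  have h2 := cap_not_bul H (hP k hk) (t := kt k) (Or.inl rfl)
  exact h2 ((mem_BKs H).1 h)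

theorem tA_row (h : Seg D τ N x0 y0) (H : HPos D τ) (hP : ∀ k ∈ P, CPH D τ k) :
    Disjoint (tA P) (RS N x0 y0) := by
  rw [disjoint_left]
  intro e he h2
  obtain ⟨k, hk, rfl⟩ := tA_lt he
  have h3 : lt ((kt k).1, (kt k).2) ∈ RS N x0 y0 := h2
  rw [mem_RSz] at h3
  refine h.not_cap H h3.1 h3.2.1 (hP k hk) (t := kt k) (Or.inl rfl) ?_
  exact Prod.ext rfl h3.2.2

theorem bk_row (h : Seg D τ N x0 y0) (H : HPos D τ) : Disjoint (BKs D τ) (RS N x0 y0) := by
  rw [disjoint_left]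
  intro e he h2
  obtain ⟨x, y, rfl⟩ := exists_lt (odd_BKs he)
  rw [mem_RSz] at h2
  rw [mem_BKs H] at he
  obtain ⟨h3, h4, rfl⟩ := h2
  exact h.not_bul h3 h4 he

theorem cs_disjZ : Disjoint (CSz D τ N x0 y0 l2 P Ti) (Ti ∪ BKz D τ l2) := by
  rw [disjoint_left]
  intro e he h
  exact (mem_sdiff.1 he).2 (mem_union_right _ h)

theorem ti_disjZ (H : HPos D τ) (hP : ∀ k ∈ P, CPH D τ k) (hTi : Ti ⊆ tA P) :
    Disjoint Ti (BKz D τ l2) :=
  (tA_bul H hP).mono hTi BKz_sub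

theorem xs_bul (hl2 : ∀ j, l2 j ∈ BKs D τ) : XS l2 ⊆ BKs D τ := by
  intro e he
  obtain ⟨j, -, rfl⟩ := mem_image.1 he
  exact hl2 j

/-- **The random labels outside of the row and the labels `l2`.** -/
theorem E_Z (O : HOut D) (h : Seg D τ N x0 y0) (H : HPos D τ) (hP : ∀ k ∈ P, CPH D τ k)
    (hl2 : ∀ j, l2 j ∈ BKs D τ) (hTi : Ti ⊆ tA P) :
    ETH D τ P \ (RS N x0 y0 ∪ XS l2) = CSz D τ N x0 y0 l2 P Ti ∪ (Ti ∪ BKz D τ l2) := by
  have hx := xs_bul hl2
  have hsub : Ti ∪ BKz D τ l2 ⊆ ETH D τ P \ (RS N x0 y0 ∪ XS l2) := by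
    refine union_subset (fun e he => ?_) fun e he => ?_
    · rw [mem_sdiff, mem_union]
      refine ⟨tA_ETH O H hP (hTi he), ?_⟩
      rintro (h2 | h2)
      · exact disjoint_left.1 (tA_row h H hP) (hTi he) h2
      · exact disjoint_left.1 (tA_bul H hP) (hTi he) (hx h2)
    · have he' := mem_sdiff.1 he
      rw [mem_sdiff, mem_union]
      refine ⟨bul_ETH H hP he'.1, ?_⟩
      rintro (h2 | h2)
      · exact disjoint_left.1 (bk_row h H) he'.1 h2
      · exact he'.2 h2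
  ext e
  unfold CSz
  rw [mem_sdiff, mem_union (s := _ \ _), mem_sdiff, mem_union (s := RS N x0 y0 ∪ XS l2)]
  constructor
  · rintro ⟨g1, g2⟩
    by_cases g3 : e ∈ Ti ∪ BKz D τ l2
    · exact Or.inr g3
    · exact Or.inl ⟨g1, fun h => h.elim g2 g3⟩
  · rintro (⟨g1, g2⟩ | g3)
    · exact ⟨g1, fun h => g2 (Or.inl h)⟩
    · exact mem_sdiff.1 (hsub g3)

end sets

/-! ### The weights -/

section weights

variable {J : Type*} [Fintype J] [DecidableEq J] {l2 : J → ℤ × ℤ} {P : Finset Ix}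
  {Ti : Finset (ℤ × ℤ)} {q : ℤ × ℤ → ℂ} {a b c : ℂ}

/-- **The weights of a row with a string**: the weights of the line outside of the labels `l2`. -/
def QZ (D : HWin) (τ : ℤ → ℤ) (l2 : J → ℤ × ℤ) (a b c : ℂ) (q : ℤ × ℤ → ℂ) : Prop :=
  ∀ e ∈ D.EH τ, e ∉ XS l2 → q e = D.qH τ a b c e

open Classical in
/-- kind of a tie -/
noncomputable def kdP (P : Finset Ix) (e : ℤ × ℤ) : Fin 3 :=
  if ∃ k ∈ P, lt (kt k) = e ∧ k.1 = .L then 1
  else if ∃ k ∈ P, lt (kt k) = e ∧ k.1 = .R then 2 else 0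

theorem wkH_kdP (H : HPos D τ) (hP : ∀ k ∈ P, CPH D τ k) {k : Ix} (hk : k ∈ P) :
    wkH a b c k = w3 a b c (kdP P (lt (kt k))) := by
  have key : ∀ l ∈ P, lt (kt l) = lt (kt k) → l = k := fun l hl h =>
    kt_injH H (hP l hl) (hP k hk) (lt_inj h)
  unfold wkH kdP
  have n1 : k.1 ≠ .L → ¬ ∃ l ∈ P, lt (kt l) = lt (kt k) ∧ l.1 = .L := by
    rintro h1 ⟨l, hl, h2, h3⟩
    rw [key l hl h2] at h3
    exact h1 h3
  have n2 : k.1 ≠ .R → ¬ ∃ l ∈ P, lt (kt l) = lt (kt k) ∧ l.1 = .R := by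
    rintro h1 ⟨l, hl, h2, h3⟩
    rw [key l hl h2] at h3
    exact h1 h3
  by_cases h1 : k.1 = .L
  · have m1 : ∃ l ∈ P, lt (kt l) = lt (kt k) ∧ l.1 = .L := ⟨k, hk, rfl, h1⟩
    rw [if_pos h1, if_pos m1]
    simp [w3]
  · rw [if_neg h1, if_neg (n1 h1)]
    by_cases h2 : k.1 = .R
    · have m2 : ∃ l ∈ P, lt (kt l) = lt (kt k) ∧ l.1 = .R := ⟨k, hk, rfl, h2⟩
      rw [if_pos h2, if_pos m2]
      simp [w3]
    · rw [if_neg h2, if_neg (n2 h2)]
      simp [w3]

/-- the weights of the tied form at the labels which are not caps -/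
theorem qTg_bul (H : HPos D τ) (hP : ∀ k ∈ P, CPH D τ k) {e : ℤ × ℤ} (he : e ∈ BKs D τ) :
    qTg P q e = q e := by
  refine qTg_other fun k hk h => ?_
  refine disjoint_left.1 (tA_bul H hP) ?_ he
  unfold tA
  exact mem_image.2 ⟨k, hk, h⟩

theorem half_Z (H : HPos D τ) (hP : ∀ k ∈ P, CPH D τ k) (hq : QZ D τ l2 a b c q) {e : ℤ × ℤ}
    (he : e ∈ BKz D τ l2) : qTg P q e = 1 / 2 := by
  have he' := mem_sdiff.1 he
  rw [qTg_bul H hP he'.1, hq e (BKs_sub H he'.1) he'.2]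
  obtain ⟨x, y, rfl⟩ := exists_lt (odd_BKs he'.1)
  exact qH_bul ((mem_BKs H).1 he'.1)

/-- labels of the row in the tied form -/
theorem qTg_row (h : Seg D τ N x0 y0) (H : HPos D τ) (hP : ∀ k ∈ P, CPH D τ k)
    (hl2 : ∀ j, l2 j ∈ BKs D τ) (hq : QZ D τ l2 a b c q) (h1 : x0 ≤ x) (h2 : x < x0 + N) :
    qTg P q (lt (x, y0)) = Pool.Agent.H54.W.Win.wal x y0 a := by
  have hr : lt (x, y0) ∈ RS N x0 y0 := mem_RSz.2 ⟨h1, h2, rfl⟩
  rw [qTg_other fun k hk h3 => h.not_cap H h1 h2 (hP k hk) (Or.inl rfl) (lt_inj h3),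
    hq _ ((mem_EH H).2 (Or.inl (h.inU H h1 h2))) (fun h3 => ?_), qH_lt, h.wA H h1 h2]
  exact disjoint_left.1 (bk_row h H) (xs_bul hl2 h3) hr

/-- weights of the ties which are cut if they are open -/
theorem q_tAz (H : HPos D τ) (O : HOut D) (hP : ∀ k ∈ P, CPH D τ k) (hl2 : ∀ j, l2 j ∈ BKs D τ)
    (hq : QZ D τ l2 a b c q) {e : ℤ × ℤ} (he : e ∈ tA P) (hn : e ∉ tF P) :
    qTg P q e = lw (w3 a b c (kdP P e)) := by
  obtain ⟨k, hk, rfl⟩ := tA_lt he
  have hcap := cap_CPH H O (hP k hk)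
  have h1 : q (lt (kt k)) = D.qH τ a b c (lt (kt k)) := hq _ hcap.m1 fun h3 =>
    cap_not_bul H (hP k hk) (t := kt k) (Or.inl rfl) ((mem_BKs H).1 (xs_bul hl2 h3))
  have h2 : q (lt (rt k)) = D.qH τ a b c (lt (rt k)) := hq _ hcap.m2 fun h3 =>
    cap_not_bul H (hP k hk) (t := rt k) (Or.inr rfl) ((mem_BKs H).1 (xs_bul hl2 h3))
  rw [qT_tie H hP hk h1 h2, wkH_kdP H hP hk]
  unfold Pool.Agent.H42.Sp.tw lw
  have hev : ¬ ev k.2 = true := by
    intro h
    refine hn ?_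
    unfold tF
    exact mem_image.2 ⟨k, mem_filter.2 ⟨hk, h⟩, rfl⟩
  have hodd : (k.2.1 + k.2.2) % 2 = 1 := by
    by_contra h
    exact hev ((ev_true (x := k.2.1) (y := k.2.2)).2 (by omega))
  rw [if_pos hodd]

/-- weights of the ties which are cut if they are closed -/
theorem q_tFz (H : HPos D τ) (O : HOut D) (hP : ∀ k ∈ P, CPH D τ k) (hl2 : ∀ j, l2 j ∈ BKs D τ)
    (hq : QZ D τ l2 a b c q) {e : ℤ × ℤ} (he : e ∈ tF P) :
    qTg P q e = 1 - lw (w3 a b c (kdP P e)) := by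
  unfold tF at he
  obtain ⟨k, hk, rfl⟩ := mem_image.1 he
  obtain ⟨hk, hev⟩ := mem_filter.1 hk
  have hcap := cap_CPH H O (hP k hk)
  have h1 : q (lt (kt k)) = D.qH τ a b c (lt (kt k)) := hq _ hcap.m1 fun h3 =>
    cap_not_bul H (hP k hk) (t := kt k) (Or.inl rfl) ((mem_BKs H).1 (xs_bul hl2 h3))
  have h2 : q (lt (rt k)) = D.qH τ a b c (lt (rt k)) := hq _ hcap.m2 fun h3 =>
    cap_not_bul H (hP k hk) (t := rt k) (Or.inr rfl) ((mem_BKs H).1 (xs_bul hl2 h3))
  rw [qT_tie H hP hk h1 h2, wkH_kdP H hP hk]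
  unfold Pool.Agent.H42.Sp.tw lw
  have := (ev_true (x := k.2.1) (y := k.2.2)).1 hev
  rw [if_neg (by omega)]
  ring

/-- weights of the other labels -/
theorem q_CSz (hq : QZ D τ l2 a b c q) {e : ℤ × ℤ} (he : e ∈ CSz D τ N x0 y0 l2 P Ti)
    (hn : e ∉ tA P) : qTg P q e = D.qH τ a b c e := by
  have he' := mem_sdiff.1 he
  rw [qTg_other fun k hk h => hn (by unfold tA; exact mem_image.2 ⟨k, hk, h⟩)]
  exact hq e (ETH_sub he'.1) fun h => he'.2 (mem_union_left _ (mem_union_right _ h))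

/-- open weights of the row -/
theorem wA_row (h : Seg D τ N x0 y0) (H : HPos D τ) (hP : ∀ k ∈ P, CPH D τ k)
    (hl2 : ∀ j, l2 j ∈ BKs D τ) (hq : QZ D τ l2 a b c q) (i : Fin N) :
    Pool.Agent.H81.G1.wA (lbE N x0 y0 l2) (gp (lbE N x0 y0 l2)) (qTg P q) (Sum.inl i) = a := by
  have hi := i.2
  unfold Pool.Agent.H81.G1.wA
  simp only [lbE, Sum.elim_inl, gp]
  rw [rl_lt, qTg_row h H hP hl2 hq (by omega) (by omega)]
  unfold Pool.Agent.H54.W.Win.wal
  cases hp : pE (lt (x0 + ((i : ℕ) : ℤ), y0))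
  · have := pE_false.1 hp
    simp only [lt] at this
    rw [if_neg (by simp), if_pos (by omega)]
  · have := pE_true.1 hp
    simp only [lt] at this
    rw [if_pos rfl, if_neg (by omega)]
    ring

theorem wB_row (h : Seg D τ N x0 y0) (H : HPos D τ) (hP : ∀ k ∈ P, CPH D τ k)
    (hl2 : ∀ j, l2 j ∈ BKs D τ) (hq : QZ D τ l2 a b c q) (i : Fin N) :
    Pool.Agent.H81.G1.wB (lbE N x0 y0 l2) (gp (lbE N x0 y0 l2)) (qTg P q) (Sum.inl i) = 1 - a := by
  have h1 : Pool.Agent.H81.G1.wB (lbE N x0 y0 l2) (gp (lbE N x0 y0 l2)) (qTg P q) (Sum.inl i) =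
      1 - Pool.Agent.H81.G1.wA (lbE N x0 y0 l2) (gp (lbE N x0 y0 l2)) (qTg P q) (Sum.inl i) := by
    unfold Pool.Agent.H81.G1.wA Pool.Agent.H81.G1.wB
    split_ifs <;> ring
  rw [h1, wA_row h H hP hl2 hq]

/-- open weights of the string -/
noncomputable def a2q (l2 : J → ℤ × ℤ) (q : ℤ × ℤ → ℂ) : J → ℂ := Pool.Agent.H81.G1.wA l2 (gp l2) q

/-- closed weights of the string -/
noncomputable def b2q (l2 : J → ℤ × ℤ) (q : ℤ × ℤ → ℂ) : J → ℂ := Pool.Agent.H81.G1.wB l2 (gp l2) q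

theorem wA_str (H : HPos D τ) (hP : ∀ k ∈ P, CPH D τ k) (hl2 : ∀ j, l2 j ∈ BKs D τ) (j : J) :
    Pool.Agent.H81.G1.wA (lbE N x0 y0 l2) (gp (lbE N x0 y0 l2)) (qTg P q) (Sum.inr j) =
      a2q l2 q j := by
  unfold a2q Pool.Agent.H81.G1.wA
  simp only [lbE, Sum.elim_inr, gp]
  rw [qTg_bul H hP (hl2 j)]
  rfl

theorem wB_str (H : HPos D τ) (hP : ∀ k ∈ P, CPH D τ k) (hl2 : ∀ j, l2 j ∈ BKs D τ) (j : J) :
    Pool.Agent.H81.G1.wB (lbE N x0 y0 l2) (gp (lbE N x0 y0 l2)) (qTg P q) (Sum.inr j) =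
      b2q l2 q j := by
  unfold b2q Pool.Agent.H81.G1.wB
  simp only [lbE, Sum.elim_inr, gp]
  rw [qTg_bul H hP (hl2 j)]
  rfl

/-- **The coupon at a column of the row of a window as a weighted sum of amplitudes.** -/
theorem Gz_win (O : HOut D) (h : Seg D τ N x0 y0) (H : HPos D τ) (hP : ∀ k ∈ P, CPH D τ k)
    (hinj : Function.Injective l2) (hl2 : ∀ j, l2 j ∈ BKs D τ) (hTi : Ti ⊆ tA P)
    (hq : QZ D τ l2 a b c q) (k : Fin N) {ct : ℤ × ℤ} (hct : plab ct ∉ D.GA ∨ lab ct ∉ D.GA) :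
    Gz (XH O τ) q (rl x0 y0 k) ct = sgp (lbE N x0 y0 l2) (Sum.inl k) *
      Ec (qTg P q) (CSz D τ N x0 y0 l2 P Ti ∪ (Ti ∪ BKz D τ l2))
        (AG (XTH O H P hP) (lbE N x0 y0 l2) ct (eA {k} a (a2q l2 q)) (eB {k} (1 - a) (b2q l2 q))) := by
  have hfam : Fam (XTH O H P hP) (lbE N x0 y0 l2) := fam_Z h hinj hl2
  have hk := k.2
  have hc1 : ∀ l ∈ P, lt (kt l) ≠ rl x0 y0 k := fun l hl e =>
    h.not_cap H (x := x0 + ((k : ℕ) : ℤ)) (by omega) (by omega) (hP l hl) (Or.inl rfl)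
      (lt_inj e)
  have hc2 : ∀ l ∈ P, lt (rt l) ≠ rl x0 y0 k := fun l hl e =>
    h.not_cap H (x := x0 + ((k : ℕ) : ℤ)) (by omega) (by omega) (hP l hl) (Or.inr rfl)
      (lt_inj e)
  rw [← Gz_tied (O := O) (H := H) (hP := hP) hc1 hc2 hct]
  have e1 := Gz_AG hfam (qTg P q) (Sum.inl k) ct
  rw [show lbE N x0 y0 l2 (Sum.inl k) = rl x0 y0 k from rfl] at e1
  rw [e1, image_lbE, XTH_E, E_Z O h H hP hl2 hTi]
  congr 3
  · funext i
    rcases i with i | j
    · by_cases hi : i = k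
      · subst hi
        rw [Function.update_self]
        simp [eA, cA]
      · rw [Function.update_of_ne (by simpa using hi), wA_row h H hP hl2 hq]
        simp [eA, cA, hi]
    · rw [Function.update_of_ne (by simp), wA_str H hP hl2]
      rfl
  · funext i
    rcases i with i | j
    · by_cases hi : i = k
      · subst hi
        rw [Function.update_self]
        simp [eB, cB]
      · rw [Function.update_of_ne (by simpa using hi), wB_row h H hP hl2 hq]
        simp [eB, cB, hi]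
    · rw [Function.update_of_ne (by simp), wB_str H hP hl2]
      rfl

end weights

end Pool.Agent.H76.W
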