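import Mathlib
import Pool.Agent.H76.W.SegZ
import Pool.Agent.H76.W.BndZ
import Pool.Agent.H40.W.TayZ
import Pool.Agent.Q1.M6b.TayWhb

set_option autoImplicit false
open Finset Metric

/-! # The Taylor coefficients of the coupon in a row of a window with a string

`FBZ` : the frozen bound (interface). `Gz_sys` : the exact expansion. `tayZ` : the Taylor coefficients of the
coupon at the column `k` of a straight piece of the line, from the frozen bound, for an abstract system of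
runs. -/

namespace Pool.Agent.H76.W

open Pool.Agent.H75.Perc hiding AR VV
open Pool.Agent.H75.TwoArm hiding EF
open Pool.Agent.H99.NC
open Pool.Agent.Q1 Pool.Agent.H33.Q1 Pool.Agent.H69.Q1
open Pool.Agent.Q1.M6b.Gd Pool.Agent.H76.R45
open Pool.Agent.H30.Mid hiding mem_RS
open Pool.Agent.H13.R45 hiding gp
open Pool.Agent.H13.Q1
open Pool.Agent.H54.W
open Pool.Agent.H54.W.HWin hiding wA RS
open Pool.Agent.H46.Sp
open Pool.Agent.H81.G1 (zt)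
open Pool.Agent.H46.G1 (Wp)
open Pool.Agent.H42.Sp (Sd Ix kt rt kt_odd rt_even kt_Tg rt_Tg tw)
open Pool.Agent.H74.R45 (exists_lt)
open Pool.Agent.H76.Sp (tA tF tF_sub lw w3 zt_sum st_symm IL mem_IL)
open Pool.Agent.H69.M6b (lbt)
open Pool.Agent.Q1.M6b.Gl (gE tr)
open Pool.Agent.Q1.M6b (cr)
open Pool.Agent.H30.W (AG Fam lbE XS eA eB AmpZ gp image_lbE)
open Pool.Agent.H85.W (upd Gz)

variable {D : HWin} {τ : ℤ → ℤ} {x y : ℤ} {N : ℕ} {x0 y0 : ℤ}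

/-! ### The exact expansion -/

section exp

variable {κ' : Type*} [Fintype κ'] [DecidableEq κ'] [Nonempty κ'] {S : TSys κ'}
  {J : Type*} [Fintype J] [DecidableEq J] {l2 : J → ℤ × ℤ} {P : Finset Ix} {q : ℤ × ℤ → ℂ}
  {a b c κ : ℂ} {O : HOut D} {H : HPos D τ} {hP : ∀ k ∈ P, CPH D τ k}

/-- **The ties of the system are kept tiles of caps.** -/
def TiCap (S : TSys κ') (P : Finset Ix) : Prop := ∀ e ∈ S.Ti, ∃ z ∈ Wp S.N, S.tie z = e ∧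
  ∃ k ∈ P, lt (kt k) = e ∧ ((k.2.1 + k.2.2) % 2 = 1 ↔ S.c z.1 = true)

theorem TiCap.sub (h : TiCap S P) : S.Ti ⊆ tA P := by
  intro e he
  obtain ⟨z, -, -, k, hk, h2, -⟩ := h e he
  exact mem_image.2 ⟨k, hk, h2⟩

/-- the ties which are cut if they are closed -/
theorem TiCap.tF (h : TiCap S P) {E W : Finset (ℤ × ℤ)} {L0 : ℤ} (hO : S.Ok E W L0)
    (H : HPos D τ) (hP : ∀ k ∈ P, CPH D τ k) {e : ℤ × ℤ} (he : e ∈ S.Ti) :
    e ∈ tF P ↔ S.c (S.idx e).1 = false := by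
  obtain ⟨z, hz, hze, k, hk, h2, h3⟩ := h e he
  have e4 : S.idx e = z := by rw [← hze]; exact hO.idx_tie hz
  rw [e4]
  have key : ∀ k' ∈ P, lt (kt k') = e → k' = k := by
    intro k' hk' h4
    exact kt_injH H (hP k' hk') (hP k hk) (lt_inj (h4.trans h2.symm))
  have hev : ev k.2 = true ↔ S.c z.1 = false := by
    rw [ev_true (x := k.2.1) (y := k.2.2)]
    constructor
    · intro h5
      by_contra h6
      rw [Bool.not_eq_false] at h6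
      have := h3.2 h6
      omega
    · intro h5
      by_contra h6
      rw [h3.1 (by omega)] at h5
      exact absurd h5 (by simp)
  rw [← hev]
  unfold Pool.Agent.H76.Sp.tF
  rw [mem_image]
  constructor
  · rintro ⟨k', hk', h5⟩
    obtain ⟨h6, h7⟩ := mem_filter.1 hk'
    rw [key k' h6 h5] at h7
    exact h7
  · intro h5
    exact ⟨k, mem_filter.2 ⟨hk, h5⟩, h2⟩

open Classical in
/-- **The exact expansion of the coupon** over the coupons and the cut ties of the runs. -/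
theorem Gz_sys (O : HOut D) (h : Seg D τ N x0 y0) (H : HPos D τ) (hP : ∀ k ∈ P, CPH D τ k)
    (hinj : Function.Injective l2) (hl2 : ∀ j, l2 j ∈ BKs D τ) {E W : Finset (ℤ × ℤ)} {L0 : ℤ}
    (hO : S.Ok E W L0) (hcap : TiCap S P) (hq : QZ D τ l2 a b c q) (ha : a = zt ^ (4 : ℤ) + κ)
    (k : Fin N) {ct : ℤ × ℤ} (hct : plab ct ∉ D.GA ∨ lab ct ∉ D.GA) {M L : ℕ} (hM : N ≤ M)
    (hL : S.Ti.card ≤ L) :
    Gz (XH O τ) q (rl x0 y0 k) ct = sgp (lbE N x0 y0 l2) (Sum.inl k) *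
      ∑ m ∈ range (M + 1), ∑ l ∈ IL (Fin 3) (L + 1), ∑ s ∈ (CSz D τ N x0 y0 l2 P S.Ti).powerset,
        κ ^ m * (∏ i, lw (w3 a b c i) ^ l i) * ((∏ e ∈ s, qTg P q e) *
          ∏ e ∈ CSz D τ N x0 y0 l2 P S.Ti \ s, (1 - qTg P q e)) *
          HZ (XTH O H P hP) x0 y0 l2 ct (a2q l2 q) (b2q l2 q) k S.Ti (kdP P) (BKz D τ l2) S.st
            m l s := by
  have hfam : Fam (XTH O H P hP) (lbE N x0 y0 l2) := fam_Z h hinj hl2
  rw [Gz_win O h H hP hinj hl2 hcap.sub hq k hct]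
  congr 1
  have e1 : (1 : ℂ) - a = zt ^ (-4 : ℤ) - κ := by
    rw [ha]; linear_combination -(zt_sum)
  rw [e1, ha]
  have hsub : CSz D τ N x0 y0 l2 P S.Ti ∪ (S.Ti ∪ BKz D τ l2) =
      ETH D τ P \ (RS N x0 y0 ∪ XS l2) := (E_Z O h H hP hl2 hcap.sub).symm
  have hd0 : Disjoint (RS N x0 y0) (CSz D τ N x0 y0 l2 P S.Ti ∪ (S.Ti ∪ BKz D τ l2)) := by
    rw [hsub, disjoint_left]
    intro e h1 h2
    exact (mem_sdiff.1 h2).2 (mem_union_left _ h1)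
  have key := GZ_exp (K' := Fin 3) (X := XTH O H P hP) (ct := ct) (a2 := a2q l2 q)
    (b2 := b2q l2 q) (k := k) (q := qTg P q) (κ := κ) (C := CSz D τ N x0 y0 l2 P S.Ti)
    (A := S.Ti) (Bk := BKz D τ l2) (Fr := S.Ti.filter fun e => S.c (S.idx e).1 = false)
    (kd := kdP P) (lam := fun i => lw (w3 a b c i)) (st := S.st) (M := M) (L := L) hfam hd0
    (filter_subset _ _) (fun T hT => st_symm S hT) cs_disjZ (ti_disjZ H hP hcap.sub)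
    (fun e he hn => q_tAz H O hP hl2 hq (hcap.sub he) fun h2 => hn (mem_filter.2 ⟨he,
      (hcap.tF hO H hP he).1 h2⟩))
    (fun e he => q_tFz H O hP hl2 hq ((hcap.tF hO H hP (mem_filter.1 he).1).2
      (mem_filter.1 he).2)) (fun e he => half_Z H hP hq he) hM hL
  rw [ha] at key
  exact key

end exp

/-! ### The weights of the other labels -/

section weights

variable {J : Type*} [Fintype J] [DecidableEq J] {l2 : J → ℤ × ℤ} {P : Finset Ix}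
  {Ti : Finset (ℤ × ℤ)} {ρ B0 : ℝ} {a b c : ℂ → ℂ} {q : ℂ → ℤ × ℤ → ℂ}

lemma norm_mul_one_sub {u v : ℂ} (hB : 0 ≤ B0) (hu : ‖u‖ ≤ B0) (hv : ‖v‖ ≤ B0) :
    ‖u * (1 - v)‖ ≤ B0 * (1 + B0) := by
  rw [norm_mul]
  refine mul_le_mul hu ((norm_sub_le _ _).trans ?_) (norm_nonneg _) hB
  rw [norm_one]; linarith

lemma nrm2 {u : ℂ} {B1 : ℝ} (hu : ‖u‖ ≤ B1) : ‖1 - u‖ ≤ 1 + B1 := by
  refine (norm_sub_le _ _).trans ?_
  rw [norm_one]; linarith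

/-- the constant for the weights -/
noncomputable def Qc (B0 : ℝ) : ℝ := 2 + B0 * (1 + B0) + B0

lemma Qc_one (hB : 0 ≤ B0) : 1 ≤ Qc B0 := by
  unfold Qc
  have : 0 ≤ B0 * (1 + B0) := by positivity
  linarith

/-- the weights of the line are bounded -/
theorem qH_bd (hB : 0 ≤ B0) {a b c : ℂ} (ha : ‖a‖ ≤ B0) (hb : ‖b‖ ≤ B0) (hc : ‖c‖ ≤ B0)
    (e : ℤ × ℤ) : ‖D.qH τ a b c e‖ ≤ Qc B0 ∧ ‖1 - D.qH τ a b c e‖ ≤ Qc B0 := by
  have h0 : 0 ≤ B0 * (1 + B0) := by positivity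
  have hw : ∀ w : ℂ, ‖w‖ ≤ 1 + B0 * (1 + B0) + B0 → ∀ x y : ℤ,
      ‖Pool.Agent.H54.W.Win.wal x y w‖ ≤ Qc B0 ∧ ‖1 - Pool.Agent.H54.W.Win.wal x y w‖ ≤ Qc B0 := by
    intro w hw x y
    have h1 := nrm2 hw
    unfold Pool.Agent.H54.W.Win.wal Qc
    split_ifs
    · constructor <;> linarith
    · rw [show (1 : ℂ) - (1 - w) = w by ring]
      constructor <;> linarith
  unfold HWin.qH
  refine hw _ ?_ _ _
  unfold HWin.wA
  have k1 : ‖b * (1 - a)‖ ≤ B0 * (1 + B0) := norm_mul_one_sub hB hb ha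
  have k2 : ‖a * (1 - c)‖ ≤ B0 * (1 + B0) := norm_mul_one_sub hB ha hc
  have k3 := nrm2 hb
  have k4 := nrm2 hc
  have k5 := nrm2 k1
  have k6 : ‖(1 - c) * a‖ ≤ B0 * (1 + B0) := by rw [mul_comm]; exact k2
  have k7 : ‖(1 / 2 : ℂ)‖ ≤ 1 := by norm_num
  split_ifs <;> linarith

theorem qH_diff (ha : DifferentiableOn ℂ a (ball 0 ρ)) (hb : DifferentiableOn ℂ b (ball 0 ρ))
    (hc : DifferentiableOn ℂ c (ball 0 ρ)) (e : ℤ × ℤ) :
    DifferentiableOn ℂ (fun z => D.qH τ (a z) (b z) (c z) e) (ball 0 ρ) := by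
  have hw : ∀ (w : ℂ → ℂ), DifferentiableOn ℂ w (ball 0 ρ) → ∀ x y : ℤ,
      DifferentiableOn ℂ (fun z => Pool.Agent.H54.W.Win.wal x y (w z)) (ball 0 ρ) := by
    intro w hw x y
    unfold Pool.Agent.H54.W.Win.wal
    split_ifs
    · exact hw
    · exact (differentiableOn_const _).sub hw
  unfold HWin.qH
  refine hw (fun z => D.wA τ (a z) (b z) (c z) (tt e).1 (tt e).2) ?_ _ _
  unfold HWin.wA
  have h1 : DifferentiableOn ℂ (fun _ : ℂ => (1 : ℂ)) (ball 0 ρ) := differentiableOn_const _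
  split_ifs
  · exact h1.sub hb
  · exact h1.sub hc
  · exact h1.sub (hb.mul (h1.sub ha))
  · exact (h1.sub hc).mul ha
  · exact ha
  · exact h1.sub hb
  · exact h1.sub hc
  · exact differentiableOn_const _

lemma lw_bd (hB : 0 ≤ B0) {w : ℂ} (hw : ‖w‖ ≤ B0) : ‖lw w‖ ≤ Qc B0 ∧ ‖1 - lw w‖ ≤ Qc B0 := by
  have k1 : ‖w * (1 - w)‖ ≤ B0 * (1 + B0) := norm_mul_one_sub hB hw hw
  have k2 := nrm2 k1
  have h0 : 0 ≤ B0 * (1 + B0) := by positivity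
  unfold lw Qc
  rw [show (1 : ℂ) - (1 - w * (1 - w)) = w * (1 - w) by ring]
  constructor <;> linarith

/-- the weights of the tied form outside of the labels `l2` : at a tie or at another label -/
theorem qTg_cases (H : HPos D τ) (O : HOut D) (hP : ∀ k ∈ P, CPH D τ k)
    (hl2 : ∀ j, l2 j ∈ BKs D τ) {e : ℤ × ℤ} (he : e ∈ CSz D τ N x0 y0 l2 P Ti) :
    (∃ i : Fin 3, ∀ (a b c : ℂ) (q : ℤ × ℤ → ℂ), QZ D τ l2 a b c q →
      qTg P q e = lw (w3 a b c i)) ∨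
    (∃ i : Fin 3, ∀ (a b c : ℂ) (q : ℤ × ℤ → ℂ), QZ D τ l2 a b c q →
      qTg P q e = 1 - lw (w3 a b c i)) ∨
    ∀ (a b c : ℂ) (q : ℤ × ℤ → ℂ), QZ D τ l2 a b c q → qTg P q e = D.qH τ a b c e := by
  by_cases h1 : e ∈ tA P
  · by_cases h2 : e ∈ tF P
    · exact Or.inr (Or.inl ⟨kdP P e, fun a b c q hq => q_tFz H O hP hl2 hq h2⟩)
    · exact Or.inl ⟨kdP P e, fun a b c q hq => q_tAz H O hP hl2 hq h1 h2⟩
  · exact Or.inr (Or.inr fun a b c q hq => q_CSz hq he h1)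

end weights

/-! ### The frozen bound -/

section fb

variable {κ' : Type*} [Fintype κ'] [DecidableEq κ'] [Nonempty κ'] {J : Type*} [Fintype J]
  [DecidableEq J]

/-- **The frozen bound** (interface): `v` a set of `l` ties, `T` the cut ones, `ξ` the states of the natural
labels outside of `EL ∪ EU` and near the ties of `v`, `σ` the states of the other labels; bound of the sum
over the positions of `m` coupons. -/
def FBZ (O : HOut D) (H : HPos D τ) (P : Finset Ix) (hP : ∀ k ∈ P, CPH D τ k) (S : TSys κ')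
    (N : ℕ) (x0 y0 : ℤ) (l2 : J → ℤ × ℤ) (ct : ℤ × ℤ) (a2 b2 : J → ℂ) (EL EU : Finset (ℤ × ℤ))
    (k : ℕ) (K : ℤ) (m l : ℕ) (M : ℝ) : Prop :=
  ∀ σ, σ ⊆ CSz D τ N x0 y0 l2 P S.Ti → ∀ v ∈ powersetCard l S.Ti, ∀ T, T ⊆ v →
    ∀ ξ, ξ ⊆ (BKz D τ l2 \ (EL ∪ EU)) ∪ v.biUnion (S.Bt K v) →
    ‖∑ s ∈ powersetCard m (Finset.Ico (-(k : ℤ)) ((N : ℤ) - k)), Ec (fun _ => (1 / 2 : ℂ))
      (gE (EL \ v.biUnion (S.Bt K v)) (EU \ v.biUnion (S.Bt K v)) (1, -1))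
      (AmpZ ((XTH O H P hP).freeze ((EL \ v.biUnion (S.Bt K v)) ∪ (EU \ v.biUnion (S.Bt K v)) ∪
        (RS N x0 y0 ∪ XS l2)) (ξ ∪ S.st T ∪ σ)) N x0 y0 l2 ct (zt ^ (4 : ℤ)) (zt ^ (-4 : ℤ))
        a2 b2 (EL \ v.biUnion (S.Bt K v)) (EU \ v.biUnion (S.Bt K v)) k s)‖ ≤ M

end fb

/-! ### The Taylor coefficients -/

/-- the constant of a coefficient -/
lemma ht_constZ {R : ℝ} (hR : 1 ≤ R) {m l n cκ Mx A : ℕ} {C0 K C s0 : ℝ} (hC0 : 0 ≤ C0)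
    (hK : 0 ≤ K) (hC : 0 ≤ C) (hMx : ((Mx + 1 : ℕ) : ℝ) ≤ A * R) (hc : cκ ≤ n) :
    2 ^ l * (C * R ^ ((2 / 3 : ℝ) * m + s0)) * ((C0 * K) ^ l *
      ((((l : ℝ) + 1) * 6 ^ l) ^ cκ * (cr ((Mx + 1 : ℕ) : ℝ) ^ 2) ^ l)) ≤
    2 ^ l * C * (C0 * K) ^ l * (((l : ℝ) + 1) * 6 ^ l) ^ n * ((A : ℝ) ^ (2 / 3 : ℝ)) ^ l *
      R ^ ((2 / 3 : ℝ) * ((m + l : ℕ) : ℝ) + s0) := by
  have hR0 : 0 < R := by linarith
  have e1 : cr ((Mx + 1 : ℕ) : ℝ) ^ 2 ≤ (A : ℝ) ^ (2 / 3 : ℝ) * R ^ (2 / 3 : ℝ) := by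
    rw [Pool.Agent.Q1.M6b.ABW.cr_sqW (by positivity), ← Real.mul_rpow (by positivity) hR0.le]
    exact Real.rpow_le_rpow (by positivity) hMx (by norm_num)
  have e2 : (cr ((Mx + 1 : ℕ) : ℝ) ^ 2) ^ l ≤
      ((A : ℝ) ^ (2 / 3 : ℝ)) ^ l * (R ^ (2 / 3 : ℝ)) ^ l := by
    rw [← mul_pow]
    exact pow_le_pow_left₀ (by positivity) e1 l
  have e3 : (((l : ℝ) + 1) * 6 ^ l) ^ cκ ≤ (((l : ℝ) + 1) * 6 ^ l) ^ n := by
    refine pow_le_pow_right₀ ?_ hc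
    have h1 : (1 : ℝ) ≤ (l : ℝ) + 1 := by have : (0 : ℝ) ≤ l := Nat.cast_nonneg l; linarith
    have h2 : (1 : ℝ) ≤ 6 ^ l := one_le_pow₀ (by norm_num)
    nlinarith
  have e4 : R ^ ((2 / 3 : ℝ) * ((m + l : ℕ) : ℝ) + s0) =
      R ^ ((2 / 3 : ℝ) * m + s0) * (R ^ (2 / 3 : ℝ)) ^ l := by
    rw [← Real.rpow_natCast (R ^ (2 / 3 : ℝ)) l, ← Real.rpow_mul hR0.le, ← Real.rpow_add hR0]
    congr 1
    push_cast
    ring
  rw [e4]
  calc 2 ^ l * (C * R ^ ((2 / 3 : ℝ) * m + s0)) * ((C0 * K) ^ l *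
        ((((l : ℝ) + 1) * 6 ^ l) ^ cκ * (cr ((Mx + 1 : ℕ) : ℝ) ^ 2) ^ l))
      ≤ 2 ^ l * (C * R ^ ((2 / 3 : ℝ) * m + s0)) * ((C0 * K) ^ l *
        ((((l : ℝ) + 1) * 6 ^ l) ^ n * (((A : ℝ) ^ (2 / 3 : ℝ)) ^ l * (R ^ (2 / 3 : ℝ)) ^ l))) := by
        refine mul_le_mul_of_nonneg_left ?_ (by positivity)
        refine mul_le_mul_of_nonneg_left ?_ (by positivity)
        exact mul_le_mul e3 e2 (by positivity) (by positivity)
    _ = _ := by ring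

/-- **The Taylor coefficients of the coupon** in a row of a window with a string, from the frozen bound. -/
theorem tayZ {ρ Λ B0 : ℝ} (hρ : 0 < ρ) (hΛ : 0 ≤ Λ) (hB : 0 ≤ B0) (nC nκ A : ℕ)
    (Kf : ℕ × ℕ → ℤ) (Cf : ℕ × ℕ → ℝ) (hK20 : ∀ p, 20 ≤ Kf p) (hCf : ∀ p, 0 ≤ Cf p) (s0 : ℝ)
    (e0 μ : ℕ) : ∃ Dd : ℝ, 0 ≤ Dd ∧ ∀ R : ℝ, 1 ≤ R →
    -- the weights
    ∀ (α a b c : ℂ → ℂ), DifferentiableOn ℂ α (ball 0 ρ) → DifferentiableOn ℂ a (ball 0 ρ) →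
    DifferentiableOn ℂ b (ball 0 ρ) → DifferentiableOn ℂ c (ball 0 ρ) →
    (∀ z ∈ ball (0 : ℂ) ρ, ‖α z‖ ≤ Λ * ‖z‖ ^ e0) →
    (∀ z ∈ ball (0 : ℂ) ρ, ‖a z‖ ≤ B0 ∧ ‖b z‖ ≤ B0 ∧ ‖c z‖ ≤ B0) →
    (∀ z ∈ ball (0 : ℂ) ρ, ‖a z - zt ^ (4 : ℤ)‖ ≤ Λ * ‖z‖) →
    (∀ i : Fin 3, ∀ z ∈ ball (0 : ℂ) ρ, ‖lw (w3 (a z) (b z) (c z) i)‖ ≤ Λ * ‖z‖) →
    -- the window, the straight piece, the string
    ∀ (D : HWin) (O : HOut D) (τ : ℤ → ℤ) (H : HPos D τ) (N : ℕ) (x0 y0 : ℤ) (P : Finset Ix)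
    (hP : ∀ k ∈ P, CPH D τ k) {J : Type} [Fintype J] [DecidableEq J] (l2 : J → ℤ × ℤ),
    Seg D τ N x0 y0 → Function.Injective l2 → (∀ j, l2 j ∈ BKs D τ) →
    -- the system of the runs
    ∀ {κ' : Type} [Fintype κ'] [DecidableEq κ'] [Nonempty κ'] (S : TSys κ') (L : ℤ) (Mx : ℕ),
    Fintype.card κ' ≤ nκ → S.Ok (ETH D τ P) (WTH D τ P O.Wo) L → TiCap S P →
    (∀ g, S.N g ≤ Mx) → ((Mx + 1 : ℕ) : ℝ) ≤ A * R →
    (∀ g u t, 0 ≤ u → S.Rg L g u t → lt (S.tl g u t) ∈ BKz D τ l2) →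
    (CSz D τ N x0 y0 l2 P S.Ti).card ≤ nC →
    -- the corners
    ∀ ct : ℤ × ℤ, (plab ct ∉ D.GA ∨ lab ct ∉ D.GA) → S.Away L (plab O.c0) → S.Away L (lab ct) →
    -- the labels of the frozen bound
    ∀ EL EU : Finset (ℤ × ℤ), EL ∪ EU ⊆ BKz D τ l2 → Disjoint EL EU →
    Disjoint EL (EU.map (tr (1, -1))) →
    ∀ (a2 b2 : J → ℂ) (k : Fin N),
    (∀ m l, m + l ≤ μ → (∀ g, (S.N g : ℤ) < Kf (m, l) * L) ∧
      FBZ O H P hP S N x0 y0 l2 ct a2 b2 EL EU k (Kf (m, l)) m l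
        (Cf (m, l) * R ^ ((2 / 3 : ℝ) * m + s0))) →
    -- the weights of the labels
    ∀ q : ℂ → ℤ × ℤ → ℂ, (∀ z, QZ D τ l2 (a z) (b z) (c z) (q z)) →
    (∀ z, a2q l2 (q z) = a2) → (∀ z, b2q l2 (q z) = b2) →
    ‖iteratedDeriv μ (fun z => α z * Gz (XH O τ) (q z) (rl x0 y0 k) ct) 0‖ ≤
      Dd * R ^ ((2 / 3 : ℝ) * μ + (s0 - 2 / 3 * e0)) ∧
    ‖iteratedDeriv μ (fun z => α (z * (R ^ (-(2 / 3) : ℝ) : ℝ)) *
      Gz (XH O τ) (q (z * (R ^ (-(2 / 3) : ℝ) : ℝ))) (rl x0 y0 k) ct) 0‖ ≤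
      Dd * R ^ (s0 - 2 / 3 * e0) := by
  classical
  obtain ⟨C0, hC0, HB⟩ := HZ_boundB
  obtain ⟨Dd, hD0, hD⟩ := Pool.Agent.H40.W.tayF (Fin 3) hρ Λ (Qc B0) hΛ (Qc_one hB) nC
    (fun m l => 2 ^ (∑ i, l i) * Cf (m, ∑ i, l i) * (C0 * (Kf (m, ∑ i, l i) : ℝ)) ^ (∑ i, l i) *
      (((∑ i, l i : ℕ) + 1) * 6 ^ (∑ i, l i)) ^ nκ * ((A : ℝ) ^ (2 / 3 : ℝ)) ^ (∑ i, l i)) s0 e0 μ
  refine ⟨Dd, hD0, ?_⟩
  intro R hR α a b c hα ha hb hc hαb habc hκb hlamb D O τ H N x0 y0 P hP J _ _ l2 hseg hinj hl2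
    κ' _ _ _ S L Mx hcard hOk hcap hMx hMxR hbk hCc ct hct hroot hcta EL EU hEB hLU hLU' a2 b2 k hFB
    q hq hqa hqb
  have hfam : Fam (XTH O H P hP) (lbE N x0 y0 l2) := fam_Z hseg hinj hl2
  have hE : (XTH O H P hP).E \ (RS N x0 y0 ∪ XS l2) =
      CSz D τ N x0 y0 l2 P S.Ti ∪ (S.Ti ∪ BKz D τ l2) := E_Z O hseg H hP hl2 hcap.sub
  have hd0 : Disjoint (RS N x0 y0) (CSz D τ N x0 y0 l2 P S.Ti ∪ (S.Ti ∪ BKz D τ l2)) := by
    rw [← hE, disjoint_left]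
    intro e h1 h2
    exact (mem_sdiff.1 h2).2 (mem_union_left _ h1)
  have hst : ∀ T, T ⊆ S.Ti → S.st T ⊆ S.Ti := fun T _ => filter_subset _ _
  -- the weights of the other labels
  have hqC : ∀ e ∈ CSz D τ N x0 y0 l2 P S.Ti,
      DifferentiableOn ℂ (fun z => qTg P (q z) e) (ball 0 ρ) ∧
      ∀ z ∈ ball (0 : ℂ) ρ, ‖qTg P (q z) e‖ ≤ Qc B0 ∧ ‖1 - qTg P (q z) e‖ ≤ Qc B0 := by
    intro e he
    have hw3 : ∀ i : Fin 3, DifferentiableOn ℂ (fun z => w3 (a z) (b z) (c z) i) (ball 0 ρ) := by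
      intro i
      unfold w3
      split_ifs
      · exact ha
      · exact hb
      · exact hc
    have hw3b : ∀ i : Fin 3, ∀ z ∈ ball (0 : ℂ) ρ, ‖w3 (a z) (b z) (c z) i‖ ≤ B0 := by
      intro i z hz
      obtain ⟨h1, h2, h3⟩ := habc z hz
      unfold w3
      split_ifs <;> assumption
    have h1d : DifferentiableOn ℂ (fun _ : ℂ => (1 : ℂ)) (ball 0 ρ) := differentiableOn_const _
    rcases qTg_cases H O hP hl2 he with ⟨i, hi⟩ | ⟨i, hi⟩ | hi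
    · have e1 : (fun z => qTg P (q z) e) = fun z => lw (w3 (a z) (b z) (c z) i) :=
        funext fun z => hi _ _ _ _ (hq z)
      refine ⟨?_, fun z hz => ?_⟩
      · rw [e1]
        unfold lw
        exact h1d.sub ((hw3 i).mul (h1d.sub (hw3 i)))
      · rw [hi _ _ _ _ (hq z)]
        exact lw_bd hB (hw3b i z hz)
    · have e1 : (fun z => qTg P (q z) e) = fun z => 1 - lw (w3 (a z) (b z) (c z) i) :=
        funext fun z => hi _ _ _ _ (hq z)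
      refine ⟨?_, fun z hz => ?_⟩
      · rw [e1]
        unfold lw
        exact h1d.sub (h1d.sub ((hw3 i).mul (h1d.sub (hw3 i))))
      · rw [hi _ _ _ _ (hq z)]
        have h2 := lw_bd hB (hw3b i z hz)
        rw [show (1 : ℂ) - (1 - lw (w3 (a z) (b z) (c z) i)) = lw (w3 (a z) (b z) (c z) i) by ring]
        exact ⟨h2.2, h2.1⟩
    · have e1 : (fun z => qTg P (q z) e) = fun z => D.qH τ (a z) (b z) (c z) e :=
        funext fun z => hi _ _ _ _ (hq z)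
      refine ⟨?_, fun z hz => ?_⟩
      · rw [e1]
        exact qH_diff ha hb hc e
      · rw [hi _ _ _ _ (hq z)]
        obtain ⟨h1, h2, h3⟩ := habc z hz
        exact qH_bd hB h1 h2 h3 e
  -- the coefficients
  have hHF : ∀ (m : ℕ) (l : Fin 3 → ℕ), m + ∑ i, l i ≤ μ → ∀ s, s ⊆ CSz D τ N x0 y0 l2 P S.Ti →
      ‖HF (AG (XTH O H P hP) l2 ct a2 b2) x0 y0 (cA {k} (zt ^ (4 : ℤ))) (cB {k} (zt ^ (-4 : ℤ)))
        {k} S.Ti (kdP P) (BKz D τ l2) S.st m l s‖ ≤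
      (2 ^ (∑ i, l i) * Cf (m, ∑ i, l i) * (C0 * (Kf (m, ∑ i, l i) : ℝ)) ^ (∑ i, l i) *
        (((∑ i, l i : ℕ) + 1) * 6 ^ (∑ i, l i)) ^ nκ * ((A : ℝ) ^ (2 / 3 : ℝ)) ^ (∑ i, l i)) *
        R ^ ((2 / 3 : ℝ) * (m + ∑ i, l i : ℕ) + s0) := by
    intro m l hml s hs
    rw [← HZ_HF hfam hd0 hst m l hs]
    obtain ⟨hKL, hfr⟩ := hFB m (∑ i, l i) hml
    have hKr : (0 : ℝ) ≤ Kf (m, ∑ i, l i) := by
      have := hK20 (m, ∑ i, l i)
      exact_mod_cast (by omega : (0 : ℤ) ≤ Kf (m, ∑ i, l i))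
    have key := HB S (kdP P) (X := XTH O H P hP) (W := WTH D τ P O.Wo) (EL := EL) (EU := EU)
      (Bk := BKz D τ l2) (C := CSz D τ N x0 y0 l2 P S.Ti) (K := Kf (m, ∑ i, l i)) (L := L)
      (Mx := Mx) Env.planeLike_plane (disj_ETWTH O P) hOk (hK20 _) hKL hMx hfam hE cs_disjZ
      (ti_disjZ H hP hcap.sub) hEB hLU hLU' hbk hroot ct hcta a2 b2 k m l s hs
      (Cf (m, ∑ i, l i) * R ^ ((2 / 3 : ℝ) * m + s0)) (mul_nonneg (hCf _) (by positivity))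
      (fun v hv T hT ξ hξ => hfr s hs v hv T hT ξ hξ)
    exact key.trans (ht_constZ hR (by linarith) hKr (hCf _) hMxR hcard)
  -- the expansion
  set sg : ℂ := sgp (lbE N x0 y0 l2) (Sum.inl k) with hsg
  have hsgn : ‖sg‖ = 1 := norm_sgp _
  have key := hD R hR (fun z => sg * α z) (fun z => a z - zt ^ (4 : ℤ))
    (fun i z => lw (w3 (a z) (b z) (c z) i)) ((differentiableOn_const _).mul hα)
    (ha.sub (differentiableOn_const _)) (fun i => ?_) (fun z hz => ?_) hκb hlamb N x0 y0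
    (AG (XTH O H P hP) l2 ct a2 b2) (cA {k} (zt ^ (4 : ℤ))) (cB {k} (zt ^ (-4 : ℤ))) {k}
    (CSz D τ N x0 y0 l2 P S.Ti) S.Ti (BKz D τ l2) (kdP P) S.st (fun z => qTg P (q z)) hCc
    (fun e he => (hqC e he).1) (fun e he => (hqC e he).2) hHF
    (fun z => ∑ m ∈ range (N + 1), ∑ l ∈ IL (Fin 3) (S.Ti.card + 1),
      ∑ s ∈ (CSz D τ N x0 y0 l2 P S.Ti).powerset,
        (a z - zt ^ (4 : ℤ)) ^ m * (∏ i, lw (w3 (a z) (b z) (c z) i) ^ l i) *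
          ((∏ e ∈ s, qTg P (q z) e) * ∏ e ∈ CSz D τ N x0 y0 l2 P S.Ti \ s, (1 - qTg P (q z) e)) *
          HF (AG (XTH O H P hP) l2 ct a2 b2) x0 y0 (cA {k} (zt ^ (4 : ℤ)))
            (cB {k} (zt ^ (-4 : ℤ))) {k} S.Ti (kdP P) (BKz D τ l2) S.st m l s)
    (Filter.Eventually.of_forall fun z => rfl)
  · have e2 : ∀ z : ℂ, Gz (XH O τ) (q z) (rl x0 y0 k) ct = sg *
        ∑ m ∈ range (N + 1), ∑ l ∈ IL (Fin 3) (S.Ti.card + 1),
        ∑ s ∈ (CSz D τ N x0 y0 l2 P S.Ti).powerset,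
        (a z - zt ^ (4 : ℤ)) ^ m * (∏ i, lw (w3 (a z) (b z) (c z) i) ^ l i) *
          ((∏ e ∈ s, qTg P (q z) e) * ∏ e ∈ CSz D τ N x0 y0 l2 P S.Ti \ s, (1 - qTg P (q z) e)) *
          HF (AG (XTH O H P hP) l2 ct a2 b2) x0 y0 (cA {k} (zt ^ (4 : ℤ)))
            (cB {k} (zt ^ (-4 : ℤ))) {k} S.Ti (kdP P) (BKz D τ l2) S.st m l s := by
      intro z
      refine (Gz_sys O hseg H hP hinj hl2 hOk hcap (hq z) (κ := a z - zt ^ (4 : ℤ)) (by ring) k hct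
        le_rfl le_rfl).trans ?_
      refine congrArg (fun w => sg * w) (sum_congr rfl fun m _ => sum_congr rfl fun l _ =>
        sum_congr rfl fun s hs => ?_)
      have e3 := HZ_HF (ct := ct) (a2 := a2) (b2 := b2) (k := k) (kd := kdP P) hfam hd0 hst m l
        (mem_powerset.1 hs)
      rw [hqa, hqb, e3]
    refine ⟨?_, ?_⟩
    · refine (le_of_eq ?_).trans key.1
      congr 2
      funext z
      rw [e2 z]
      ring
    · refine (le_of_eq ?_).trans key.2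
      congr 2
      funext z
      rw [e2]
      ring
  · have h1d : DifferentiableOn ℂ (fun _ : ℂ => (1 : ℂ)) (ball 0 ρ) := differentiableOn_const _
    have hw3 : DifferentiableOn ℂ (fun z => w3 (a z) (b z) (c z) i) (ball 0 ρ) := by
      unfold w3
      split_ifs
      · exact ha
      · exact hb
      · exact hc
    unfold lw
    exact h1d.sub (hw3.mul (h1d.sub hw3))
  · rw [norm_mul, hsgn, one_mul]
    exact hαb z hz

end Pool.Agent.H76.W
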