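import Mathlib
import Pool.Agent.H76.W.BndZ
import Pool.Agent.H76.W.GTie
import Pool.Agent.H76.Sp.WinX
import Pool.Agent.H40.W.TayZ
import Pool.Agent.Q1.M6b.TayWhb

set_option autoImplicit false
open Finset Metric

/-! # The Taylor coefficients of the coupon, abstract form

`FBX` : the frozen bound for an environment `X` with a row and extra tiles `l2` (interface). `tayX` : the
Taylor coefficients of the coupon `Gz` at the column `k` of the row, for an arbitrary environment `X`, an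
abstract system of runs `S`, natural labels `Bk` and other labels `C`. -/

namespace Pool.Agent.H76.W

open Pool.Agent.H75.Perc hiding AR VV
open Pool.Agent.H75.TwoArm hiding EF
open Pool.Agent.H99.NC
open Pool.Agent.Q1 Pool.Agent.H33.Q1 Pool.Agent.H69.Q1
open Pool.Agent.Q1.M6b.Gd Pool.Agent.H76.R45
open Pool.Agent.H30.Mid hiding mem_RS
open Pool.Agent.H46.Sp
open Pool.Agent.H81.G1 (zt wA wB)
open Pool.Agent.H76.Sp (zt_sum st_symm IL mem_IL)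
open Pool.Agent.Q1.M6b.Gl (gE tr)
open Pool.Agent.Q1.M6b (cr)
open Pool.Agent.H30.W (AG Fam lbE XS eA eB AmpZ gp image_lbE)
open Pool.Agent.H85.W (upd Gz)

variable {N : ℕ} {x0 y0 : ℤ}

/-- the constant of a coefficient -/
lemma ht_constX {R : ℝ} (hR : 1 ≤ R) {m l n cκ Mx A : ℕ} {C0 K C s0 : ℝ} (hC0 : 0 ≤ C0)
    (hK : 0 ≤ K) (hC : 0 ≤ C) (hMx : ((Mx + 1 : ℕ) : ℝ) ≤ A * R) (hc : cκ ≤ n) :
    2 ^ l * (C * R ^ ((2 / 3 : ℝ) * m + s0)) * ((C0 * K) ^ l *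
      ((((l : ℝ) + 1) * 6 ^ l) ^ cκ * (cr ((Mx + 1 : ℕ) : ℝ) ^ 2) ^ l)) ≤
    2 ^ l * C * (C0 * K) ^ l * (((l : ℝ) + 1) * 6 ^ l) ^ n * ((A : ℝ) ^ (2 / 3 : ℝ)) ^ l *
      R ^ ((2 / 3 : ℝ) * ((m + l : ℕ) : ℝ) + s0) := by
  have hR0 : 0 < R := by linarith
  have e1 : cr ((Mx + 1 : ℕ) : ℝ) ^ 2 ≤ (A : ℝ) ^ (2 / 3 : ℝ) * R ^ (2 / 3 : ℝ) := by
    rw [Pool.Agent.Q1.M6b.ABW.cr_sqW (by positivity), ← Real.mul_rpow (by positivity) hR0.le]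
    exact Real.rpow_le_rpow (by positivity) hMx (by norm_num)
  have e2 : (cr ((Mx + 1 : ℕ) : ℝ) ^ 2) ^ l ≤
      ((A : ℝ) ^ (2 / 3 : ℝ)) ^ l * (R ^ (2 / 3 : ℝ)) ^ l := by
    rw [← mul_pow]
    exact pow_le_pow_left₀ (by positivity) e1 l
  have e3 : (((l : ℝ) + 1) * 6 ^ l) ^ cκ ≤ (((l : ℝ) + 1) * 6 ^ l) ^ n := by
    refine pow_le_pow_right₀ ?_ hc
    have h1 : (1 : ℝ) ≤ (l : ℝ) + 1 := by have : (0 : ℝ) ≤ l := Nat.cast_nonneg l; linarith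
    have h2 : (1 : ℝ) ≤ 6 ^ l := one_le_pow₀ (by norm_num)
    nlinarith
  have e4 : R ^ ((2 / 3 : ℝ) * ((m + l : ℕ) : ℝ) + s0) =
      R ^ ((2 / 3 : ℝ) * m + s0) * (R ^ (2 / 3 : ℝ)) ^ l := by
    rw [← Real.rpow_natCast (R ^ (2 / 3 : ℝ)) l, ← Real.rpow_mul hR0.le, ← Real.rpow_add hR0]
    congr 1
    push_cast
    ring
  rw [e4]
  calc 2 ^ l * (C * R ^ ((2 / 3 : ℝ) * m + s0)) * ((C0 * K) ^ l *
        ((((l : ℝ) + 1) * 6 ^ l) ^ cκ * (cr ((Mx + 1 : ℕ) : ℝ) ^ 2) ^ l))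
      ≤ 2 ^ l * (C * R ^ ((2 / 3 : ℝ) * m + s0)) * ((C0 * K) ^ l *
        ((((l : ℝ) + 1) * 6 ^ l) ^ n * (((A : ℝ) ^ (2 / 3 : ℝ)) ^ l * (R ^ (2 / 3 : ℝ)) ^ l))) := by
        refine mul_le_mul_of_nonneg_left ?_ (by positivity)
        refine mul_le_mul_of_nonneg_left ?_ (by positivity)
        exact mul_le_mul e3 e2 (by positivity) (by positivity)
    _ = _ := by ring

section fbx

variable {κ' : Type*} [Fintype κ'] [DecidableEq κ'] [Nonempty κ'] {J : Type*} [Fintype J]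
  [DecidableEq J]

/-- **The frozen bound** (interface) for an environment `X` : `C` the other labels, `Bk` the natural ones,
`v` a set of `l` ties, `T` the cut ones, `ξ` the states of the natural labels outside of `EL ∪ EU` and near
the ties of `v`, `σ` the states of the other labels; bound of the sum over the positions of `m` coupons. -/
def FBX (X : Env) (S : TSys κ') (C Bk : Finset (ℤ × ℤ)) (N : ℕ) (x0 y0 : ℤ) (l2 : J → ℤ × ℤ)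
    (ct : ℤ × ℤ) (a2 b2 : J → ℂ) (EL EU : Finset (ℤ × ℤ)) (k : ℕ) (K : ℤ) (m l : ℕ) (M : ℝ) :
    Prop :=
  ∀ σ, σ ⊆ C → ∀ v ∈ powersetCard l S.Ti, ∀ T, T ⊆ v →
    ∀ ξ, ξ ⊆ (Bk \ (EL ∪ EU)) ∪ v.biUnion (S.Bt K v) →
    ‖∑ s ∈ powersetCard m (Finset.Ico (-(k : ℤ)) ((N : ℤ) - k)), Ec (fun _ => (1 / 2 : ℂ))
      (gE (EL \ v.biUnion (S.Bt K v)) (EU \ v.biUnion (S.Bt K v)) (1, -1))
      (AmpZ (X.freeze ((EL \ v.biUnion (S.Bt K v)) ∪ (EU \ v.biUnion (S.Bt K v)) ∪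
        (RS N x0 y0 ∪ XS l2)) (ξ ∪ S.st T ∪ σ)) N x0 y0 l2 ct (zt ^ (4 : ℤ)) (zt ^ (-4 : ℤ))
        a2 b2 (EL \ v.biUnion (S.Bt K v)) (EU \ v.biUnion (S.Bt K v)) k s)‖ ≤ M

end fbx

/-! ### The exact expansion -/

section exp

variable {κ' : Type*} [Fintype κ'] [DecidableEq κ'] [Nonempty κ'] {S : TSys κ'} {X : Env}
  {J : Type*} [Fintype J] [DecidableEq J] {l2 : J → ℤ × ℤ} {q : ℤ × ℤ → ℂ}
  {a κ : ℂ} {C Bk : Finset (ℤ × ℤ)} {K' : Type*} [Fintype K'] [DecidableEq K']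
  {kd : ℤ × ℤ → K'} {lam : K' → ℂ} {a2 b2 : J → ℂ}

/-- the coupon as a weighted sum of amplitudes -/
theorem Gz_X (hfam : Fam X (lbE N x0 y0 l2))
    (hrow : ∀ i : Fin N, wA (lbE N x0 y0 l2) (gp (lbE N x0 y0 l2)) q (Sum.inl i) = a)
    (hqa : wA l2 (gp l2) q = a2) (hqb : wB l2 (gp l2) q = b2) (k : Fin N) (ct : ℤ × ℤ) :
    Gz X q (rl x0 y0 k) ct = sgp (lbE N x0 y0 l2) (Sum.inl k) *
      Ec q (X.E \ (RS N x0 y0 ∪ XS l2))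
        (AG X (lbE N x0 y0 l2) ct (eA {k} a a2) (eB {k} (1 - a) b2)) := by
  have hrowB : ∀ i : Fin N, wB (lbE N x0 y0 l2) (gp (lbE N x0 y0 l2)) q (Sum.inl i) = 1 - a := by
    intro i
    have h1 : wB (lbE N x0 y0 l2) (gp (lbE N x0 y0 l2)) q (Sum.inl i) =
        1 - wA (lbE N x0 y0 l2) (gp (lbE N x0 y0 l2)) q (Sum.inl i) := by
      unfold wA wB
      split_ifs <;> ring
    rw [h1, hrow]
  have e1 := Gz_AG hfam q (Sum.inl k) ct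
  rw [show lbE N x0 y0 l2 (Sum.inl k) = rl x0 y0 k from rfl] at e1
  rw [e1, image_lbE]
  congr 3
  · funext i
    rcases i with i | j
    · by_cases hi : i = k
      · subst hi
        rw [Function.update_self]
        simp [eA, cA]
      · rw [Function.update_of_ne (by simpa using hi), hrow]
        simp [eA, cA, hi]
    · rw [Function.update_of_ne (by simp), ← hqa]
      rfl
  · funext i
    rcases i with i | j
    · by_cases hi : i = k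
      · subst hi
        rw [Function.update_self]
        simp [eB, cB]
      · rw [Function.update_of_ne (by simpa using hi), hrowB]
        simp [eB, cB, hi]
    · rw [Function.update_of_ne (by simp), ← hqb]
      rfl

open Classical in
/-- **The exact expansion of the coupon.** -/
theorem Gz_sysX (hfam : Fam X (lbE N x0 y0 l2))
    (hE : X.E \ (RS N x0 y0 ∪ XS l2) = C ∪ (S.Ti ∪ Bk)) (hCT : Disjoint C (S.Ti ∪ Bk))
    (hTB : Disjoint S.Ti Bk)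
    (hrow : ∀ i : Fin N, wA (lbE N x0 y0 l2) (gp (lbE N x0 y0 l2)) q (Sum.inl i) = a)
    (hqa : wA l2 (gp l2) q = a2) (hqb : wB l2 (gp l2) q = b2)
    (hT : ∀ e ∈ S.Ti, S.c (S.idx e).1 ≠ false → q e = lam (kd e))
    (hT' : ∀ e ∈ S.Ti, S.c (S.idx e).1 = false → q e = 1 - lam (kd e))
    (hB : ∀ e ∈ Bk, q e = 1 / 2) (ha : a = zt ^ (4 : ℤ) + κ)
    (k : Fin N) (ct : ℤ × ℤ) {M L : ℕ} (hM : N ≤ M) (hL : S.Ti.card ≤ L) :
    Gz X q (rl x0 y0 k) ct = sgp (lbE N x0 y0 l2) (Sum.inl k) *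
      ∑ m ∈ range (M + 1), ∑ l ∈ IL K' (L + 1), ∑ s ∈ C.powerset,
        κ ^ m * (∏ i, lam i ^ l i) * ((∏ e ∈ s, q e) * ∏ e ∈ C \ s, (1 - q e)) *
          HZ X x0 y0 l2 ct a2 b2 k S.Ti kd Bk S.st m l s := by
  rw [Gz_X hfam hrow hqa hqb k ct, hE]
  congr 1
  have e1 : (1 : ℂ) - a = zt ^ (-4 : ℤ) - κ := by
    rw [ha]; linear_combination -(zt_sum)
  rw [e1, ha]
  have hd0 : Disjoint (RS N x0 y0) (C ∪ (S.Ti ∪ Bk)) := by
    rw [← hE, disjoint_left]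
    intro e h1 h2
    exact (mem_sdiff.1 h2).2 (mem_union_left _ h1)
  exact GZ_exp (K' := K') (X := X) (ct := ct) (a2 := a2)
    (b2 := b2) (k := k) (q := q) (κ := κ) (C := C)
    (A := S.Ti) (Bk := Bk) (Fr := S.Ti.filter fun e => S.c (S.idx e).1 = false)
    (kd := kd) (lam := lam) (st := S.st) (M := M) (L := L) hfam hd0
    (filter_subset _ _) (fun T hT => st_symm S hT) hCT hTB
    (fun e he hn => hT e he fun h2 => hn (mem_filter.2 ⟨he, h2⟩))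
    (fun e he => hT' e (mem_filter.1 he).1 (mem_filter.1 he).2) hB hM hL

end exp

/-! ### The Taylor coefficients -/

/-- **The Taylor coefficients of the coupon**, from the frozen bound, abstract form. -/
theorem tayX (K' : Type) [Fintype K'] [DecidableEq K'] {ρ Λ Qb : ℝ} (hρ : 0 < ρ) (hΛ : 0 ≤ Λ)
    (hQ : 1 ≤ Qb) (nC nκ A : ℕ) (Kf : ℕ × ℕ → ℤ) (Cf : ℕ × ℕ → ℝ) (hK20 : ∀ p, 20 ≤ Kf p)
    (hCf : ∀ p, 0 ≤ Cf p) (s0 : ℝ) (e0 μ : ℕ) : ∃ Dd : ℝ, 0 ≤ Dd ∧ ∀ R : ℝ, 1 ≤ R →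
    -- the weights
    ∀ (α a : ℂ → ℂ) (lam : K' → ℂ → ℂ), DifferentiableOn ℂ α (ball 0 ρ) →
    DifferentiableOn ℂ a (ball 0 ρ) → (∀ i, DifferentiableOn ℂ (lam i) (ball 0 ρ)) →
    (∀ z ∈ ball (0 : ℂ) ρ, ‖α z‖ ≤ Λ * ‖z‖ ^ e0) →
    (∀ z ∈ ball (0 : ℂ) ρ, ‖a z - zt ^ (4 : ℤ)‖ ≤ Λ * ‖z‖) →
    (∀ i, ∀ z ∈ ball (0 : ℂ) ρ, ‖lam i z‖ ≤ Λ * ‖z‖) →
    -- the environment with the row and the extra tiles
    ∀ (X : Env) (W : Finset (ℤ × ℤ)), X.PlaneLike W → Disjoint X.E W →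
    ∀ (N : ℕ) (x0 y0 : ℤ) {J : Type} [Fintype J] [DecidableEq J] (l2 : J → ℤ × ℤ),
    Fam X (lbE N x0 y0 l2) →
    -- the system of the runs
    ∀ {κ' : Type} [Fintype κ'] [DecidableEq κ'] [Nonempty κ'] (S : TSys κ') (L : ℤ) (Mx : ℕ),
    Fintype.card κ' ≤ nκ → S.Ok X.E W L → (∀ g, S.N g ≤ Mx) → ((Mx + 1 : ℕ) : ℝ) ≤ A * R →
    -- the labels
    ∀ C Bk : Finset (ℤ × ℤ), X.E \ (RS N x0 y0 ∪ XS l2) = C ∪ (S.Ti ∪ Bk) →
    Disjoint C (S.Ti ∪ Bk) → Disjoint S.Ti Bk → C.card ≤ nC →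
    (∀ g u t, 0 ≤ u → S.Rg L g u t → lt (S.tl g u t) ∈ Bk) →
    -- the corners
    ∀ ct : ℤ × ℤ, S.Away L (plab X.c0) → S.Away L (lab ct) →
    -- the labels of the frozen bound
    ∀ EL EU : Finset (ℤ × ℤ), EL ∪ EU ⊆ Bk → Disjoint EL EU →
    Disjoint EL (EU.map (tr (1, -1))) →
    ∀ (kd : ℤ × ℤ → K') (a2 b2 : J → ℂ) (k : Fin N),
    (∀ m l, m + l ≤ μ → (∀ g, (S.N g : ℤ) < Kf (m, l) * L) ∧
      FBX X S C Bk N x0 y0 l2 ct a2 b2 EL EU k (Kf (m, l)) m l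
        (Cf (m, l) * R ^ ((2 / 3 : ℝ) * m + s0))) →
    -- the weights of the labels
    ∀ q : ℂ → ℤ × ℤ → ℂ,
    (∀ z, ∀ i : Fin N, wA (lbE N x0 y0 l2) (gp (lbE N x0 y0 l2)) (q z) (Sum.inl i) = a z) →
    (∀ z, wA l2 (gp l2) (q z) = a2) → (∀ z, wB l2 (gp l2) (q z) = b2) →
    (∀ z, ∀ e ∈ S.Ti, S.c (S.idx e).1 ≠ false → q z e = lam (kd e) z) →
    (∀ z, ∀ e ∈ S.Ti, S.c (S.idx e).1 = false → q z e = 1 - lam (kd e) z) →
    (∀ z, ∀ e ∈ Bk, q z e = 1 / 2) →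
    (∀ e ∈ C, DifferentiableOn ℂ (fun z => q z e) (ball 0 ρ)) →
    (∀ e ∈ C, ∀ z ∈ ball (0 : ℂ) ρ, ‖q z e‖ ≤ Qb ∧ ‖1 - q z e‖ ≤ Qb) →
    ‖iteratedDeriv μ (fun z => α z * Gz X (q z) (rl x0 y0 k) ct) 0‖ ≤
      Dd * R ^ ((2 / 3 : ℝ) * μ + (s0 - 2 / 3 * e0)) ∧
    ‖iteratedDeriv μ (fun z => α (z * (R ^ (-(2 / 3) : ℝ) : ℝ)) *
      Gz X (q (z * (R ^ (-(2 / 3) : ℝ) : ℝ))) (rl x0 y0 k) ct) 0‖ ≤
      Dd * R ^ (s0 - 2 / 3 * e0) := by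
  classical
  obtain ⟨C0, hC0, HB⟩ := HZ_boundB
  obtain ⟨Dd, hD0, hD⟩ := Pool.Agent.H40.W.tayF K' hρ Λ Qb hΛ hQ nC
    (fun m l => 2 ^ (∑ i, l i) * Cf (m, ∑ i, l i) * (C0 * (Kf (m, ∑ i, l i) : ℝ)) ^ (∑ i, l i) *
      (((∑ i, l i : ℕ) + 1) * 6 ^ (∑ i, l i)) ^ nκ * ((A : ℝ) ^ (2 / 3 : ℝ)) ^ (∑ i, l i)) s0 e0 μ
  refine ⟨Dd, hD0, ?_⟩
  intro R hR α a lam hα ha hlam hαb hκb hlamb X W hX hXW N x0 y0 J _ _ l2 hfam κ' _ _ _ S L Mx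
    hcard hOk hMx hMxR C Bk hE hCT hTB hCc hbk ct hroot hcta EL EU hEB hLU hLU' kd a2 b2 k hFB
    q hrow hqa hqb hT hT' hB hqd hqb'
  have hd0 : Disjoint (RS N x0 y0) (C ∪ (S.Ti ∪ Bk)) := by
    rw [← hE, disjoint_left]
    intro e h1 h2
    exact (mem_sdiff.1 h2).2 (mem_union_left _ h1)
  have hst : ∀ T, T ⊆ S.Ti → S.st T ⊆ S.Ti := fun T _ => filter_subset _ _
  -- the coefficients
  have hHF : ∀ (m : ℕ) (l : K' → ℕ), m + ∑ i, l i ≤ μ → ∀ s, s ⊆ C →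
      ‖HF (AG X l2 ct a2 b2) x0 y0 (cA {k} (zt ^ (4 : ℤ))) (cB {k} (zt ^ (-4 : ℤ)))
        {k} S.Ti kd Bk S.st m l s‖ ≤
      (2 ^ (∑ i, l i) * Cf (m, ∑ i, l i) * (C0 * (Kf (m, ∑ i, l i) : ℝ)) ^ (∑ i, l i) *
        (((∑ i, l i : ℕ) + 1) * 6 ^ (∑ i, l i)) ^ nκ * ((A : ℝ) ^ (2 / 3 : ℝ)) ^ (∑ i, l i)) *
        R ^ ((2 / 3 : ℝ) * (m + ∑ i, l i : ℕ) + s0) := by
    intro m l hml s hs
    rw [← HZ_HF hfam hd0 hst m l hs]
    obtain ⟨hKL, hfr⟩ := hFB m (∑ i, l i) hml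
    have hKr : (0 : ℝ) ≤ Kf (m, ∑ i, l i) := by
      have := hK20 (m, ∑ i, l i)
      exact_mod_cast (by omega : (0 : ℤ) ≤ Kf (m, ∑ i, l i))
    have key := HB S kd (X := X) (W := W) (EL := EL) (EU := EU)
      (Bk := Bk) (C := C) (K := Kf (m, ∑ i, l i)) (L := L)
      (Mx := Mx) hX hXW hOk (hK20 _) hKL hMx hfam hE hCT
      hTB hEB hLU hLU' hbk hroot ct hcta a2 b2 k m l s hs
      (Cf (m, ∑ i, l i) * R ^ ((2 / 3 : ℝ) * m + s0)) (mul_nonneg (hCf _) (by positivity))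
      (fun v hv T hT ξ hξ => hfr s hs v hv T hT ξ hξ)
    exact key.trans (ht_constX hR (by linarith) hKr (hCf _) hMxR hcard)
  -- the expansion
  set sg : ℂ := sgp (lbE N x0 y0 l2) (Sum.inl k) with hsg
  have hsgn : ‖sg‖ = 1 := norm_sgp _
  have key := hD R hR (fun z => sg * α z) (fun z => a z - zt ^ (4 : ℤ))
    lam ((differentiableOn_const _).mul hα)
    (ha.sub (differentiableOn_const _)) hlam (fun z hz => by
      rw [norm_mul, hsgn, one_mul]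
      exact hαb z hz) hκb hlamb N x0 y0
    (AG X l2 ct a2 b2) (cA {k} (zt ^ (4 : ℤ))) (cB {k} (zt ^ (-4 : ℤ))) {k}
    C S.Ti Bk kd S.st q hCc hqd hqb' hHF
    (fun z => ∑ m ∈ range (N + 1), ∑ l ∈ IL K' (S.Ti.card + 1),
      ∑ s ∈ C.powerset,
        (a z - zt ^ (4 : ℤ)) ^ m * (∏ i, lam i z ^ l i) *
          ((∏ e ∈ s, q z e) * ∏ e ∈ C \ s, (1 - q z e)) *
          HF (AG X l2 ct a2 b2) x0 y0 (cA {k} (zt ^ (4 : ℤ)))
            (cB {k} (zt ^ (-4 : ℤ))) {k} S.Ti kd Bk S.st m l s)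
    (Filter.Eventually.of_forall fun z => rfl)
  have e2 : ∀ z : ℂ, Gz X (q z) (rl x0 y0 k) ct = sg *
      ∑ m ∈ range (N + 1), ∑ l ∈ IL K' (S.Ti.card + 1),
      ∑ s ∈ C.powerset,
      (a z - zt ^ (4 : ℤ)) ^ m * (∏ i, lam i z ^ l i) *
        ((∏ e ∈ s, q z e) * ∏ e ∈ C \ s, (1 - q z e)) *
        HF (AG X l2 ct a2 b2) x0 y0 (cA {k} (zt ^ (4 : ℤ)))
          (cB {k} (zt ^ (-4 : ℤ))) {k} S.Ti kd Bk S.st m l s := by
    intro z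
    refine (Gz_sysX (lam := fun i => lam i z) hfam hE hCT hTB (hrow z) (hqa z) (hqb z) (hT z)
      (hT' z) (hB z) (κ := a z - zt ^ (4 : ℤ)) (by ring) k ct le_rfl le_rfl).trans ?_
    refine congrArg (fun w => sg * w) (sum_congr rfl fun m _ => sum_congr rfl fun l _ =>
      sum_congr rfl fun s hs => ?_)
    have e3 := HZ_HF (ct := ct) (a2 := a2) (b2 := b2) (k := k) (kd := kd) hfam hd0 hst m l
      (mem_powerset.1 hs)
    rw [e3]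
  refine ⟨?_, ?_⟩
  · refine (le_of_eq ?_).trans key.1
    congr 2
    funext z
    rw [e2 z]
    ring
  · refine (le_of_eq ?_).trans key.2
    congr 2
    funext z
    rw [e2]
    ring

end Pool.Agent.H76.W
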