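import Mathlib
import Pool.Agent.H76.W.AsmX
import Pool.Agent.H76.W.SegZ
import Pool.Agent.H30.W.Slit
import Pool.Agent.H86.W.TOk

set_option autoImplicit false
open Finset Metric

/-! # The row with a string in a window: labels and weights

`S : Slit D` (helper30), `ls0 S` : the string without the tile in the ceiling, `SX S P X W` : the environment
`X` (open labels `W`) is the tied environment, for `e = 1` the label `exl S` of the tile in the ceiling is
random, too. `SX.fam`, `SX.dec`, `SX.ok` : the inputs of `tayX`. -/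

namespace Pool.Agent.H76.W

open Pool.Agent.H75.Perc hiding AR VV
open Pool.Agent.H75.TwoArm hiding EF
open Pool.Agent.H99.NC
open Pool.Agent.Q1 Pool.Agent.H33.Q1 Pool.Agent.H69.Q1
open Pool.Agent.Q1.M6b.Gd Pool.Agent.H76.R45
open Pool.Agent.H30.Mid hiding mem_RS
open Pool.Agent.H13.R45 hiding gp
open Pool.Agent.H13.Q1
open Pool.Agent.H54.W
open Pool.Agent.H54.W.HWin hiding wA RS
open Pool.Agent.H46.Sp
open Pool.Agent.H81.G1 (zt)
open Pool.Agent.H42.Sp (Sd Ix kt rt kt_odd rt_even)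
open Pool.Agent.H74.R45 (exists_lt)
open Pool.Agent.H76.Sp (tA tF tF_sub lw w3 zt_sum)
open Pool.Agent.H69.M6b (lbt)
open Pool.Agent.Q1.M6b.Gl (gE tr)
open Pool.Agent.H30.W (AG Fam lbE XS eA eB AmpZ gp image_lbE Slit ELz EUz mem_ELz mem_EUz odd_ELz
  odd_EUz RZ mem_RZ mem_RSx mem_XSls mem_RZs)
open Pool.Agent.H40.W (lsZ)
open Pool.Agent.H85.W (upd Gz)

variable {D : HWin} {S : Slit D} {x y : ℤ} {P : Finset Ix} {Ti : Finset (ℤ × ℤ)}

/-- the string -/
noncomputable abbrev ls (S : Slit D) : Fin S.M → ℤ × ℤ := lsZ S.M S.x1 S.y0 S.c0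

/-- the string without the tile in the ceiling -/
noncomputable abbrev ls0 (S : Slit D) : Fin (D.w - 1 - S.y0).toNat → ℤ × ℤ :=
  lsZ (D.w - 1 - S.y0).toNat S.x1 S.y0 S.c0

/-- the label of the tile in the ceiling -/
def exl (S : Slit D) : ℤ × ℤ := lt (S.xs, D.w)

/-- the straight piece -/
theorem seg_slit (S : Slit D) : Seg D S.τ S.N S.x1 S.y0 := by
  have n := S.N_eq
  have h1 := S.p_le
  have h2 := S.le_q
  have h3 := S.r2
  refine ⟨h1, by omega, fun x k1 k2 => S.τ_in k1 (by omega), fun x k1 k2 => ?_⟩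
  have := S.fl x k1 (by omega)
  omega

theorem mem_ls0 : lt (x, y) ∈ XS (ls0 S) ↔ x = S.xs ∧ S.y0 < y ∧ y < D.w := by
  have := S.up
  have := S.r2
  have h := mem_XSls (N := S.N) (M := (D.w - 1 - S.y0).toNat) (x0 := S.x1) (y0 := S.y0)
    (c0 := S.c0) (x := x) (y := y)
  rw [S.xs_eq] at h
  refine Iff.trans h ?_
  omega

theorem mem_ls : lt (x, y) ∈ XS (ls S) ↔ x = S.xs ∧ S.y0 < y ∧ y < D.w + S.e := by
  have := S.up
  have := S.r2
  have := S.M_eq
  have h := mem_XSls (N := S.N) (M := S.M) (x0 := S.x1) (y0 := S.y0)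
    (c0 := S.c0) (x := x) (y := y)
  rw [S.xs_eq] at h
  refine Iff.trans h ?_
  omega

lemma lsZ_odd {N M : ℕ} {x0 y0 : ℤ} {c0 : Fin N} {e : ℤ × ℤ} (he : e ∈ XS (lsZ M x0 y0 c0)) :
    (e.1 + e.2) % 2 = 1 := by
  obtain ⟨i, -, rfl⟩ := mem_image.1 he
  unfold lsZ lbt
  simp only
  omega

/-- the labels of the string -/
theorem XS_ls {e : ℤ × ℤ} : e ∈ XS (ls S) ↔ e ∈ XS (ls0 S) ∨ (S.e = 1 ∧ e = exl S) := by
  have e1 := S.e1
  have := S.up
  have := S.r2
  constructor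
  · intro h
    obtain ⟨x, y, rfl⟩ := exists_lt (lsZ_odd h)
    have h2 := mem_ls.1 h
    by_cases h3 : y < D.w
    · exact Or.inl (mem_ls0.2 ⟨h2.1, h2.2.1, h3⟩)
    · right
      refine ⟨by omega, ?_⟩
      unfold exl
      rw [h2.1, show y = D.w by omega]
  · rintro (h | ⟨h1, rfl⟩)
    · obtain ⟨x, y, rfl⟩ := exists_lt (lsZ_odd h)
      have h2 := mem_ls0.1 h
      exact mem_ls.2 ⟨h2.1, h2.2.1, by omega⟩
    · unfold exl
      exact mem_ls.2 ⟨rfl, by omega, by omega⟩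

/-- the string without the tile in the ceiling consists of bulk labels -/
theorem ls0_bul (j : Fin (D.w - 1 - S.y0).toNat) : ls0 S j ∈ BKs D S.τ := by
  have h1 : ls0 S j ∈ XS (ls0 S) := mem_image_of_mem _ (mem_univ _)
  obtain ⟨x, y, hxy⟩ := exists_lt (lsZ_odd h1)
  have h1' := h1
  rw [hxy] at h1 ⊢
  have h2 := mem_ls0.1 h1
  rw [mem_BKs S.pos]
  have s1 := S.s1
  have s2 := S.s2
  have hp := S.p_le
  have hq := S.le_q
  have hr := S.r2
  have h3 := S.fl x (by omega) (by omega)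
  have h4 := S.τ_in (x := x) (by omega) (by omega)
  exact ⟨⟨by omega, by omega, by omega, h2.2.2⟩, by omega⟩

/-- the label in the ceiling is not random in the window -/
theorem exl_not_EH : exl S ∉ D.EH S.τ := by
  unfold exl
  rw [mem_EH S.pos]
  intro h
  have := h.z S.pos
  omega

/-- the label in the ceiling is not a bulk label -/
theorem exl_not_BKs : exl S ∉ BKs D S.τ := fun h => exl_not_EH (BKs_sub S.pos h)

theorem lsZ_inj {N M : ℕ} {x0 y0 : ℤ} {c0 : Fin N} : Function.Injective (lsZ M x0 y0 c0) := by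
  intro i i' h
  unfold lsZ lbt at h
  simp only [Prod.mk.injEq] at h
  exact Fin.ext (by omega)

/-- **The tied environment of the row with the string**, with the random tile in the ceiling for `e = 1`. -/
structure SX (S : Slit D) (P : Finset Ix) (Wo : Finset (ℤ × ℤ)) (X : Env) (W : Finset (ℤ × ℤ)) :
    Prop where
  pl : X.PlaneLike W
  disj : Disjoint X.E W
  E : ∀ e, e ∈ X.E ↔ e ∈ ETH D S.τ P ∨ (S.e = 1 ∧ e = exl S)
  W : ∀ e, e ≠ exl S → (e ∈ W ↔ e ∈ WTH D S.τ P Wo)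

variable {Wo W : Finset (ℤ × ℤ)} {X : Env}

theorem exl_not_row : exl S ∉ RS S.N S.x1 S.y0 := by
  unfold exl
  rw [mem_RSz]
  have := S.up
  have := S.r2
  omega

/-- **The family of the row and the string.** -/
theorem SX.fam (h : SX S P Wo X W) (hP : ∀ k ∈ P, CPH D S.τ k) :
    Fam X (lbE S.N S.x1 S.y0 (ls S)) := by
  have hseg := seg_slit S
  have up := S.up
  have r2 := S.r2
  constructor
  · rintro (i | i) (j | j) hij
    · simp only [lbE, Sum.elim_inl] at hij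
      rw [rl_inj _ _ hij]
    · exfalso
      simp only [lbE, Sum.elim_inl, Sum.elim_inr] at hij
      have h1 : ls S j ∈ XS (ls S) := mem_image_of_mem _ (mem_univ _)
      rw [← hij, rl_lt, mem_ls] at h1
      omega
    · exfalso
      simp only [lbE, Sum.elim_inl, Sum.elim_inr] at hij
      have h1 : ls S i ∈ XS (ls S) := mem_image_of_mem _ (mem_univ _)
      rw [hij, rl_lt, mem_ls] at h1
      omega
    · simp only [lbE, Sum.elim_inr] at hij
      rw [lsZ_inj hij]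
  · rintro (i | j)
    · have hi := i.2
      exact (h.E _).2 (Or.inl (row_ETH hseg S.pos hP (by omega) (by omega)))
    · have h1 : ls S j ∈ XS (ls S) := mem_image_of_mem _ (mem_univ _)
      refine (h.E _).2 ?_
      rcases XS_ls.1 h1 with h2 | h2
      · left
        refine bul_ETH S.pos hP ?_
        obtain ⟨i, -, hi⟩ := mem_image.1 h2
        show ls S j ∈ _
        rw [← hi]
        exact ls0_bul i
      · exact Or.inr h2

/-- **The other random labels.** -/
theorem SX.dec (h : SX S P Wo X W) (O : HOut D) (hP : ∀ k ∈ P, CPH D S.τ k) (hTi : Ti ⊆ tA P) :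
    X.E \ (RS S.N S.x1 S.y0 ∪ XS (ls S)) =
      CSz D S.τ S.N S.x1 S.y0 (ls0 S) P Ti ∪ (Ti ∪ BKz D S.τ (ls0 S)) := by
  rw [← E_Z O (seg_slit S) S.pos hP ls0_bul hTi]
  ext e
  have h1 : e ∈ ETH D S.τ P → e ≠ exl S := fun h2 h3 => exl_not_EH (h3 ▸ ETH_sub h2)
  rw [mem_sdiff, mem_sdiff, mem_union, mem_union, h.E, XS_ls]
  tauto

/-- **The hypotheses on the system of runs.** -/
theorem SX.ok (h : SX S P Wo X W) {κ : Type*} [Fintype κ] [DecidableEq κ] {T : TSys κ} {L : ℤ}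
    (hO : T.Ok (ETH D S.τ P) (WTH D S.τ P Wo) L) (hex : T.Away L (exl S)) : T.Ok X.E W L where
  par := hO.par
  inj := hO.inj
  sub := fun e he => (h.E e).2 (Or.inl (hO.sub he))
  bulk := fun a u t hu hr => by
    have h1 := mem_sdiff.1 (hO.bulk a u t hu hr)
    exact mem_sdiff.2 ⟨(h.E _).2 (Or.inl h1.1), h1.2⟩
  first := fun a t hr => by
    have hne : lt (T.tl a (-1) t) ≠ exl S := fun h2 => hex a (-1) t hr h2.symm
    rcases hO.first a t hr with h1 | ⟨h1, h2⟩
    · exact Or.inl h1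
    · right
      refine ⟨fun h3 => ?_, ?_⟩
      · rcases (h.E _).1 h3 with h4 | ⟨-, h4⟩
        · exact h1 h4
        · exact hne h4
      · rw [h.W _ hne]
        exact h2
  sep := hO.sep

/-- the tied environment, for `e = 0` -/
theorem sx_XTH (hS : S.e = 0) (O : HOut D) (hP : ∀ k ∈ P, CPH D S.τ k) :
    SX S P O.Wo (XTH O S.pos P hP) (WTH D S.τ P O.Wo) where
  pl := Env.planeLike_plane
  disj := disj_ETWTH O P
  E := fun e => by
    rw [XTH_E]
    constructor
    · exact Or.inl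
    · rintro (h | ⟨h, -⟩)
      · exact h
      · omega
  W := fun _ _ => Iff.rfl

/-! ### The weights -/

section weights

variable {q : ℤ × ℤ → ℂ} {a b c : ℂ}

/-- the weights of a row with a string: the tied weights on the random labels of the tied form -/
structure QX (S : Slit D) (P : Finset Ix) (a b c : ℂ) (q : ℤ × ℤ → ℂ) : Prop where
  q : ∃ q0 : ℤ × ℤ → ℂ, QZ D S.τ (ls0 S) a b c q0 ∧ ∀ e ∈ ETH D S.τ P, q e = qTg P q0 e

/-- weights of the row -/
theorem QX.row (h : QX S P a b c q) (hP : ∀ k ∈ P, CPH D S.τ k) (i : Fin S.N) :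
    Pool.Agent.H81.G1.wA (lbE S.N S.x1 S.y0 (ls S)) (gp (lbE S.N S.x1 S.y0 (ls S))) q
      (Sum.inl i) = a := by
  obtain ⟨q0, h1, h2⟩ := h.q
  have hi := i.2
  rw [← wA_row (seg_slit S) S.pos hP ls0_bul h1 i]
  unfold Pool.Agent.H81.G1.wA
  simp only [lbE, Sum.elim_inl, gp]
  have h3 : rl S.x1 S.y0 i ∈ ETH D S.τ P := row_ETH (seg_slit S) S.pos hP (by omega) (by omega)
  rw [h2 _ h3]

theorem QX.half (h : QX S P a b c q) (hP : ∀ k ∈ P, CPH D S.τ k) {e : ℤ × ℤ}
    (he : e ∈ BKz D S.τ (ls0 S)) : q e = 1 / 2 := by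
  obtain ⟨q0, h1, h2⟩ := h.q
  rw [h2 e (bul_ETH S.pos hP (BKz_sub he)), half_Z S.pos hP h1 he]

theorem QX.tA (h : QX S P a b c q) (O : HOut D) (hP : ∀ k ∈ P, CPH D S.τ k) {e : ℤ × ℤ}
    (he : e ∈ tA P) (hn : e ∉ tF P) : q e = lw (w3 a b c (kdP P e)) := by
  obtain ⟨q0, h1, h2⟩ := h.q
  rw [h2 e (tA_ETH O S.pos hP he), q_tAz S.pos O hP ls0_bul h1 he hn]

theorem QX.tF (h : QX S P a b c q) (O : HOut D) (hP : ∀ k ∈ P, CPH D S.τ k) {e : ℤ × ℤ}
    (he : e ∈ tF P) : q e = 1 - lw (w3 a b c (kdP P e)) := by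
  obtain ⟨q0, h1, h2⟩ := h.q
  rw [h2 e (tA_ETH O S.pos hP (tF_sub he)), q_tFz S.pos O hP ls0_bul h1 he]

end weights

end Pool.Agent.H76.W
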