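import Mathlib
import Pool.Agent.H76.W.SlitZ
import Pool.Agent.H76.W.AsmZ

set_option autoImplicit false
open Finset Metric

/-! # The Taylor coefficients of the coupon in a row with a string of a window

`near_slit` : the labels near the row. `tay_slit` : the Taylor coefficients from the frozen bound `FBX`
(`EL = ELz S ∅`, `EU = EUz S ∅`), for an abstract system of runs. -/

namespace Pool.Agent.H76.W

open Pool.Agent.H75.Perc hiding AR VV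
open Pool.Agent.H75.TwoArm hiding EF
open Pool.Agent.H99.NC
open Pool.Agent.Q1 Pool.Agent.H33.Q1 Pool.Agent.H69.Q1
open Pool.Agent.Q1.M6b.Gd Pool.Agent.H76.R45
open Pool.Agent.H30.Mid hiding mem_RS
open Pool.Agent.H13.R45 hiding gp
open Pool.Agent.H13.Q1
open Pool.Agent.H54.W
open Pool.Agent.H54.W.HWin hiding wA RS
open Pool.Agent.H46.Sp
open Pool.Agent.H81.G1 (zt)
open Pool.Agent.H42.Sp (Sd Ix kt rt kt_odd rt_even)
open Pool.Agent.H74.R45 (exists_lt)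
open Pool.Agent.H76.Sp (tA tF tF_sub lw w3 zt_sum)
open Pool.Agent.H69.M6b (lbt)
open Pool.Agent.Q1.M6b.Gl (gE tr mem_tr)
open Pool.Agent.H30.W (AG Fam lbE XS eA eB AmpZ gp image_lbE Slit ELz EUz mem_ELz mem_EUz odd_ELz
  odd_EUz RZ mem_RZ mem_RSx mem_XSls mem_RZs)
open Pool.Agent.H40.W (lsZ)
open Pool.Agent.H85.W (upd Gz)

variable {D : HWin} {S : Slit D} {x y : ℤ} {P : Finset Ix} {Ti : Finset (ℤ × ℤ)}

/-! ### The labels near the row -/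

lemma mem_ELt {B : Finset (ℤ × ℤ)} : lt (x, y) ∈ ELz S B ↔
    (S.x1 ≤ x ∧ x < S.x2 ∧ S.y0 - S.r ≤ y ∧ y < S.y0) ∧ lt (x, y) ∉ B := mem_ELz

lemma mem_EUt {B : Finset (ℤ × ℤ)} : lt (x, y) ∈ EUz S B ↔
    (S.x1 ≤ x ∧ x < S.x2 ∧ x ≠ S.xs ∧ S.y0 < y ∧ y ≤ S.y0 + S.r) ∧ lt (x, y) ∉ B := mem_EUz

theorem near_bul : ELz S ∅ ∪ EUz S ∅ ⊆ BKz D S.τ (ls0 S) := by
  have hp := S.p_le
  have hq := S.le_q
  have hr := S.r2
  have up := S.up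
  intro e he
  unfold BKz
  rw [mem_sdiff]
  rcases mem_union.1 he with h | h
  · obtain ⟨x, y, rfl⟩ := exists_lt (odd_ELz h)
    obtain ⟨⟨h1, h2, h3, h4⟩, -⟩ := mem_ELt.1 h
    rw [mem_BKs S.pos, mem_ls0]
    have h5 := S.fl x h1 h2
    have h6 := S.τ_in h1 h2
    exact ⟨⟨⟨by omega, by omega, by omega, by omega⟩, by omega⟩, by omega⟩
  · obtain ⟨x, y, rfl⟩ := exists_lt (odd_EUz h)
    obtain ⟨⟨h1, h2, h3, h4, h5⟩, -⟩ := mem_EUt.1 h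
    rw [mem_BKs S.pos, mem_ls0]
    have h6 := S.fl x h1 h2
    have h7 := S.τ_in h1 h2
    exact ⟨⟨⟨by omega, by omega, by omega, by omega⟩, by omega⟩, by omega⟩

theorem near_disj : Disjoint (ELz S ∅) (EUz S ∅) := by
  rw [disjoint_left]
  intro e h h'
  obtain ⟨x, y, rfl⟩ := exists_lt (odd_ELz h)
  have h1 := (mem_ELt.1 h).1
  have h2 := (mem_EUt.1 h').1
  omega

theorem near_disj' : Disjoint (ELz S ∅) ((EUz S ∅).map (tr (1, -1))) := by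
  rw [disjoint_left]
  intro e h h'
  obtain ⟨x, y, rfl⟩ := exists_lt (odd_ELz h)
  rw [mem_tr] at h'
  have e1 : lt (x, y) - (1, -1) = lt (x, y + 1) := by
    unfold lt
    refine Prod.ext ?_ ?_ <;> simp only [Prod.fst_sub, Prod.snd_sub] <;> ring
  rw [e1] at h'
  have h1 := (mem_ELt.1 h).1
  have h2 := (mem_EUt.1 h').1
  omega

/-! ### The Taylor coefficients -/

/-- weights of the other labels -/
theorem QX.cs {Wt : Finset (ℤ × ℤ)} {ρ B0 : ℝ} {a b c : ℂ → ℂ} {q : ℂ → ℤ × ℤ → ℂ} (hB : 0 ≤ B0)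
    (O : HOut D) (hP : ∀ k ∈ P, CPH D S.τ k) (hq : ∀ z, QX S P (a z) (b z) (c z) (q z))
    (ha : DifferentiableOn ℂ a (ball 0 ρ)) (hb : DifferentiableOn ℂ b (ball 0 ρ))
    (hc : DifferentiableOn ℂ c (ball 0 ρ))
    (habc : ∀ z ∈ ball (0 : ℂ) ρ, ‖a z‖ ≤ B0 ∧ ‖b z‖ ≤ B0 ∧ ‖c z‖ ≤ B0) {e : ℤ × ℤ}
    (he : e ∈ CSz D S.τ S.N S.x1 S.y0 (ls0 S) P Wt) :
    DifferentiableOn ℂ (fun z => q z e) (ball 0 ρ) ∧
      ∀ z ∈ ball (0 : ℂ) ρ, ‖q z e‖ ≤ Qc B0 ∧ ‖1 - q z e‖ ≤ Qc B0 := by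
  have heT : e ∈ ETH D S.τ P := (mem_sdiff.1 he).1
  have hw3 : ∀ i : Fin 3, DifferentiableOn ℂ (fun z => w3 (a z) (b z) (c z) i) (ball 0 ρ) := by
    intro i
    unfold w3
    split_ifs
    · exact ha
    · exact hb
    · exact hc
  have hw3b : ∀ i : Fin 3, ∀ z ∈ ball (0 : ℂ) ρ, ‖w3 (a z) (b z) (c z) i‖ ≤ B0 := by
    intro i z hz
    obtain ⟨h1, h2, h3⟩ := habc z hz
    unfold w3
    split_ifs <;> assumption
  have h1d : DifferentiableOn ℂ (fun _ : ℂ => (1 : ℂ)) (ball 0 ρ) := differentiableOn_const _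
  have hval : (∃ i : Fin 3, ∀ z, q z e = lw (w3 (a z) (b z) (c z) i)) ∨
      (∃ i : Fin 3, ∀ z, q z e = 1 - lw (w3 (a z) (b z) (c z) i)) ∨
      ∀ z, q z e = D.qH S.τ (a z) (b z) (c z) e := by
    rcases qTg_cases S.pos O hP ls0_bul he with ⟨i, hi⟩ | ⟨i, hi⟩ | hi
    · left
      refine ⟨i, fun z => ?_⟩
      obtain ⟨q0, h1, h2⟩ := (hq z).q
      rw [h2 e heT, hi _ _ _ _ h1]
    · right; left
      refine ⟨i, fun z => ?_⟩
      obtain ⟨q0, h1, h2⟩ := (hq z).q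
      rw [h2 e heT, hi _ _ _ _ h1]
    · right; right
      intro z
      obtain ⟨q0, h1, h2⟩ := (hq z).q
      rw [h2 e heT, hi _ _ _ _ h1]
  rcases hval with ⟨i, hi⟩ | ⟨i, hi⟩ | hi
  · have e1 : (fun z => q z e) = fun z => lw (w3 (a z) (b z) (c z) i) := funext hi
    refine ⟨?_, fun z hz => ?_⟩
    · rw [e1]
      unfold lw
      exact h1d.sub ((hw3 i).mul (h1d.sub (hw3 i)))
    · rw [hi]
      exact lw_bd hB (hw3b i z hz)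
  · have e1 : (fun z => q z e) = fun z => 1 - lw (w3 (a z) (b z) (c z) i) := funext hi
    refine ⟨?_, fun z hz => ?_⟩
    · rw [e1]
      unfold lw
      exact h1d.sub (h1d.sub ((hw3 i).mul (h1d.sub (hw3 i))))
    · rw [hi]
      have h2 := lw_bd hB (hw3b i z hz)
      rw [show (1 : ℂ) - (1 - lw (w3 (a z) (b z) (c z) i)) = lw (w3 (a z) (b z) (c z) i) by ring]
      exact ⟨h2.2, h2.1⟩
  · have e1 : (fun z => q z e) = fun z => D.qH S.τ (a z) (b z) (c z) e := funext hi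
    refine ⟨?_, fun z hz => ?_⟩
    · rw [e1]
      exact qH_diff ha hb hc e
    · rw [hi]
      obtain ⟨h1, h2, h3⟩ := habc z hz
      exact qH_bd hB h1 h2 h3 e

/-- **The Taylor coefficients of the coupon** in a row with a string of a window, from the frozen bound. -/
theorem tay_slit {ρ Λ B0 : ℝ} (hρ : 0 < ρ) (hΛ : 0 ≤ Λ) (hB : 0 ≤ B0) (nC nκ A : ℕ)
    (Kf : ℕ × ℕ → ℤ) (Cf : ℕ × ℕ → ℝ) (hK20 : ∀ p, 20 ≤ Kf p) (hCf : ∀ p, 0 ≤ Cf p) (s0 : ℝ)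
    (e0 μ : ℕ) : ∃ Dd : ℝ, 0 ≤ Dd ∧ ∀ R : ℝ, 1 ≤ R →
    -- the weights
    ∀ (α a b c : ℂ → ℂ), DifferentiableOn ℂ α (ball 0 ρ) → DifferentiableOn ℂ a (ball 0 ρ) →
    DifferentiableOn ℂ b (ball 0 ρ) → DifferentiableOn ℂ c (ball 0 ρ) →
    (∀ z ∈ ball (0 : ℂ) ρ, ‖α z‖ ≤ Λ * ‖z‖ ^ e0) →
    (∀ z ∈ ball (0 : ℂ) ρ, ‖a z‖ ≤ B0 ∧ ‖b z‖ ≤ B0 ∧ ‖c z‖ ≤ B0) →
    (∀ z ∈ ball (0 : ℂ) ρ, ‖a z - zt ^ (4 : ℤ)‖ ≤ Λ * ‖z‖) →
    (∀ i : Fin 3, ∀ z ∈ ball (0 : ℂ) ρ, ‖lw (w3 (a z) (b z) (c z) i)‖ ≤ Λ * ‖z‖) →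
    -- the window, the row with the string, the environment
    ∀ (D : HWin) (O : HOut D) (S : Slit D) (P : Finset Ix) (_ : ∀ k ∈ P, CPH D S.τ k) (X : Env)
    (W : Finset (ℤ × ℤ)), SX S P O.Wo X W →
    -- the system of the runs
    ∀ {κ' : Type} [Fintype κ'] [DecidableEq κ'] [Nonempty κ'] (T : TSys κ') (L : ℤ) (Mx : ℕ),
    Fintype.card κ' ≤ nκ → T.Ok (ETH D S.τ P) (WTH D S.τ P O.Wo) L → T.Away L (exl S) →
    TiCap T P → (∀ g, T.N g ≤ Mx) → ((Mx + 1 : ℕ) : ℝ) ≤ A * R →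
    (∀ g u t, 0 ≤ u → T.Rg L g u t → lt (T.tl g u t) ∈ BKz D S.τ (ls0 S)) →
    (CSz D S.τ S.N S.x1 S.y0 (ls0 S) P T.Ti).card ≤ nC →
    -- the corners
    ∀ ct : ℤ × ℤ, T.Away L (plab X.c0) → T.Away L (lab ct) →
    -- the frozen bound
    ∀ (a2 b2 : Fin S.M → ℂ),
    (∀ m l, m + l ≤ μ → (∀ g, (T.N g : ℤ) < Kf (m, l) * L) ∧
      FBX X T (CSz D S.τ S.N S.x1 S.y0 (ls0 S) P T.Ti) (BKz D S.τ (ls0 S)) S.N S.x1 S.y0 (ls S)
        ct a2 b2 (ELz S ∅) (EUz S ∅) S.k (Kf (m, l)) m l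
        (Cf (m, l) * R ^ ((2 / 3 : ℝ) * m + s0))) →
    -- the weights of the labels
    ∀ q : ℂ → ℤ × ℤ → ℂ, (∀ z, QX S P (a z) (b z) (c z) (q z)) →
    (∀ z, a2q (ls S) (q z) = a2) → (∀ z, b2q (ls S) (q z) = b2) →
    ‖iteratedDeriv μ (fun z => α z * Gz X (q z) (lt (S.xs, S.y0)) ct) 0‖ ≤
      Dd * R ^ ((2 / 3 : ℝ) * μ + (s0 - 2 / 3 * e0)) ∧
    ‖iteratedDeriv μ (fun z => α (z * (R ^ (-(2 / 3) : ℝ) : ℝ)) *
      Gz X (q (z * (R ^ (-(2 / 3) : ℝ) : ℝ))) (lt (S.xs, S.y0)) ct) 0‖ ≤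
      Dd * R ^ (s0 - 2 / 3 * e0) := by
  obtain ⟨Dd, hD0, hD⟩ := tayX (Fin 3) hρ hΛ (Qc_one hB) nC nκ A Kf Cf hK20 hCf s0 e0 μ
  refine ⟨Dd, hD0, ?_⟩
  intro R hR α a b c hα ha hb hc hαb habc hκb hlamb D O S P hP X W hX κ' _ _ _ T L Mx
    hcard hOk hex hcap hMx hMxR hbk hCc ct hroot hcta a2 b2 hFB q hq hqa hqb
  have hw3 : ∀ i : Fin 3, DifferentiableOn ℂ (fun z => w3 (a z) (b z) (c z) i) (ball 0 ρ) := by
    intro i
    unfold w3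
    split_ifs
    · exact ha
    · exact hb
    · exact hc
  have h1d : DifferentiableOn ℂ (fun _ : ℂ => (1 : ℂ)) (ball 0 ρ) := differentiableOn_const _
  have hrl : rl S.x1 S.y0 S.c0 = lt (S.xs, S.y0) := by rw [rl_lt, S.xs_eq]
  have key := hD R hR α a (fun i z => lw (w3 (a z) (b z) (c z) i)) hα ha
    (fun i => by unfold lw; exact h1d.sub ((hw3 i).mul (h1d.sub (hw3 i)))) hαb hκb hlamb
    X W hX.pl hX.disj S.N S.x1 S.y0 (ls S) (hX.fam hP) T L Mx hcard (hX.ok hOk hex) hMx hMxR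
    (CSz D S.τ S.N S.x1 S.y0 (ls0 S) P T.Ti) (BKz D S.τ (ls0 S)) (hX.dec O hP hcap.sub) cs_disjZ
    (ti_disjZ S.pos hP hcap.sub) hCc hbk ct hroot hcta (ELz S ∅) (EUz S ∅) near_bul near_disj
    near_disj' (kdP P) a2 b2 S.c0 (fun m l h => by
      have h1 := hFB m l h
      exact h1) q (fun z i => (hq z).row hP i) hqa hqb
    (fun z e he hne => (hq z).tA O hP (hcap.sub he) fun h2 => hne ((hcap.tF hOk S.pos hP he).1 h2))
    (fun z e he h0 => (hq z).tF O hP ((hcap.tF hOk S.pos hP he).2 h0))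
    (fun z e he => (hq z).half hP he)
    (fun e he => (QX.cs hB O hP hq ha hb hc habc he).1)
    (fun e he => (QX.cs hB O hP hq ha hb hc habc he).2)
  rw [hrl] at key
  exact key

end Pool.Agent.H76.W
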