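import Mathlib
import Pool.Agent.H76.W.FinZ
import Pool.Agent.H86.W.TIns
import Pool.Agent.H81.W.OutZ
import Pool.Agent.H64.W.CntC
import Pool.Agent.Q1.M6c.APMain

set_option autoImplicit false
open Finset Metric

/-! # The Taylor coefficients of the coupon in a row with a string of a window

`tay_top` : the theorem `tay_slit` for the system of the runs of ties `tsys D S.τ (TG D S.τ)` of helper86, with
the frozen bound `fbX_out` of helper81. `SizeH` : the numerical hypotheses. -/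

namespace Pool.Agent.H76.W

open Pool.Agent.H75.Perc hiding AR VV
open Pool.Agent.H75.TwoArm hiding EF
open Pool.Agent.H99.NC
open Pool.Agent.Q1 Pool.Agent.H33.Q1 Pool.Agent.H69.Q1
open Pool.Agent.Q1.M6b.Gd Pool.Agent.H76.R45
open Pool.Agent.H54.W
open Pool.Agent.H54.W.HWin hiding wA RS
open Pool.Agent.H46.Sp
open Pool.Agent.H46.G1 (Wp mem_Wp)
open Pool.Agent.H81.G1 (zt)
open Pool.Agent.H42.Sp (Sd Ix kt rt kt_odd rt_even)
open Pool.Agent.H76.Sp (lw w3)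
open Pool.Agent.H86.W (tsys TLev TG tlev_TG Rh FatH FewH RowH rowH_seg til_ktH rt_of RT te te_le
  tsys_ok trg_bulk trg_str away_GA away_rootT btT_sep tsys_N rh_card TG_card)
open Pool.Agent.H30.W (Slit SlitEnv ELz EUz SepZ XFz l2z)
open Pool.Agent.H64.W (stp mem_stp TG_slit cs_slit)
open Pool.Agent.H81.W (Jmp OutZ fbX_out)
open Pool.Agent.H85.W (Gz)

variable {D : HWin} {τ : ℤ → ℤ} {G : Finset ℤ} {L L2 : ℤ}

theorem cphs_mem (H : HPos D τ) : ∀ k ∈ CPHs D τ, CPH D τ k := fun _ hk => (mem_CPHs H).1 hk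

/-- **The ties of the system are kept tiles of caps.** -/
theorem ticap_tsys (H : HPos D τ) (hG : TLev D τ G) : TiCap (tsys D τ G) (CPHs D τ) := by
  intro e he
  obtain ⟨z, hz, rfl⟩ := TSys.mem_Ti.1 he
  obtain ⟨k, k1, -, k2, k3⟩ := til_ktH H hG hz
  exact ⟨z, hz, rfl, k, (mem_CPHs H).2 k1, by rw [k2]; rfl, k3⟩

/-- the regions over the runs are below the ceiling -/
theorem rt_lt_w (H : HPos D τ) (hF : FatH D L2) (hG : TLev D τ G) {a : Rh G} {u t : ℤ}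
    (h : (tsys D τ G).Rg L a u t) (hL : L < L2) : ((tsys D τ G).tl a u t).2 < D.w := by
  have hu : -1 ≤ u := h.1
  have huL : u ≤ L := h.2.1
  have h1 := rt_of h
  obtain ⟨v, g, hg⟩ := a
  generalize ((tsys D τ G).tl (v, ⟨g, hg⟩) u t).1 = x at h1
  generalize ((tsys D τ G).tl (v, ⟨g, hg⟩) u t).2 = y at h1 ⊢
  simp only at h1
  cases h1 with
  | L hx h1 h2 =>
    have := te_le (x := g - 1) H
    omega
  | R hx h1 h2 =>
    have := te_le (x := g) H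
    omega
  | F hy h1 h2 h3 h4 =>
    have := hF.w g (hG.lo _ hg) h3
    omega

/-- the tile in the ceiling is not in the regions over the runs -/
theorem away_exl (S : Slit D) (hF : FatH D L2) (hG : TLev D S.τ G) (hL : L < L2) :
    (tsys D S.τ G).Away L (exl S) := by
  intro a u t h he
  have h1 := rt_lt_w S.pos hF hG h hL
  have h2 : (S.xs, D.w) = (tsys D S.τ G).tl a u t := lt_inj he
  rw [← h2] at h1
  simp at h1

/-- the row of a slit -/
theorem rowH_slit (S : Slit D) : RowH D S.τ S.x1 S.x2 S.y0 := by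
  have up := S.up
  have r2 := S.r2
  refine rowH_seg S.comp (by omega) fun x h1 h2 => ?_
  have := S.fl x h1 h2
  omega

/-- the regions over the runs consist of natural labels -/
theorem reg_bkz (S : Slit D) (hF : FatH D L2) (hG : TLev D S.τ G) (hL : L < L2)
    (h1 : S.x1 + L < S.xs) (h2 : S.xs + L + 1 < S.x2) (a : Rh G) (u t : ℤ) (hu : 0 ≤ u)
    (hr : (tsys D S.τ G).Rg L a u t) : lt ((tsys D S.τ G).tl a u t) ∈ BKz D S.τ (ls0 S) := by
  have k1 := trg_bulk S.pos hG hF hL hu hr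
  have k2 := trg_str S.pos hG hF (rowH_slit S) hL h1 h2 hr
  generalize (tsys D S.τ G).tl a u t = e at k1 k2
  obtain ⟨x, y⟩ := e
  obtain ⟨k3, k4, k5, k6⟩ := k1
  have k7 := S.pos.lo x k3 k4
  unfold BKz
  rw [mem_sdiff, mem_BKs S.pos, mem_ls0]
  refine ⟨⟨⟨k3, k4, ?_, k6⟩, ?_⟩, fun h => k2 h.1⟩
  · show D.a x - 1 ≤ y
    simp only at k5
    omega
  · show y ≠ S.τ x - 1
    simp only at k5
    omega

/-- **Numerical hypotheses** for a row with a string, at the scale `R`. -/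
structure SizeH (D : HWin) (S : Slit D) (A s : ℕ) (R : ℝ) (L : ℤ) : Prop where
  /-- the window is not large -/
  wd : ((D.q - D.p : ℤ) : ℝ) ≤ A * R
  ht : ((D.w - D.lo : ℤ) : ℝ) ≤ A * R
  /-- the radius of the regions over the runs -/
  L1 : 1 ≤ L
  RL : R ≤ A * L
  fat : FatH D (2 * L + 2)
  xl : S.x1 + L < S.xs
  xr : S.xs + L + 1 < S.x2
  /-- the row is not near the floor and not near the ceiling -/
  rr : S.x2 - S.x1 ≤ A * S.r
  /-- few steps -/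
  few : (stp D).card ≤ s

/-- the half boxes are separated from the row -/
theorem sepZ_tsys (S : Slit D) (hF : FatH D L2) (hG : TLev D S.τ G) (hL : L < L2)
    [Nonempty {g : ℤ // g ∈ G}] {E W : Finset (ℤ × ℤ)} (hO : (tsys D S.τ G).Ok E W L) {K : ℤ}
    (hK : 20 ≤ K) (hKL : ∀ a, ((tsys D S.τ G).N a : ℤ) < K * L) {v : Finset (ℤ × ℤ)}
    (hv : v ⊆ (tsys D S.τ G).Ti) {y' : ℤ} (hy : y' = S.y0 ∨ y' = S.y0 + 1) :
    SepZ (v.biUnion ((tsys D S.τ G).Bt K v)) S.N S.x1 y' S.k := by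
  intro x y h
  have n1 := S.N_eq
  have h1 := btT_sep S.pos hG hF (rowH_slit S) hL hO hK hKL hv hy h
  rcases h1 with h1 | h1
  · exact Or.inl h1
  · right; left
    omega

/-- jumps of the bottom -/
theorem jmp_stp (D : HWin) : Jmp D ((stp D).image fun x => x - 1) := by
  intro x h1 h2 h3
  refine mem_image.2 ⟨x + 1, ?_, by ring⟩
  rw [mem_stp]
  exact ⟨⟨by omega, h2⟩, by rwa [add_sub_cancel_right]⟩

/-- **The Taylor coefficients of the coupon in a row with a string of a window.** -/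
theorem tay_top {ρ Λ B0 : ℝ} (hρ : 0 < ρ) (hΛ : 0 ≤ Λ) (hB : 0 ≤ B0) (A s e0 μ : ℕ) :
    ∃ Dd : ℝ, 0 ≤ Dd ∧ ∀ R : ℝ, 1 ≤ R →
    -- the weights
    ∀ (α a b c : ℂ → ℂ), DifferentiableOn ℂ α (ball 0 ρ) → DifferentiableOn ℂ a (ball 0 ρ) →
    DifferentiableOn ℂ b (ball 0 ρ) → DifferentiableOn ℂ c (ball 0 ρ) →
    (∀ z ∈ ball (0 : ℂ) ρ, ‖α z‖ ≤ Λ * ‖z‖ ^ e0) →
    (∀ z ∈ ball (0 : ℂ) ρ, ‖a z‖ ≤ B0 ∧ ‖b z‖ ≤ B0 ∧ ‖c z‖ ≤ B0) →
    (∀ z ∈ ball (0 : ℂ) ρ, ‖a z - zt ^ (4 : ℤ)‖ ≤ Λ * ‖z‖) →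
    (∀ i : Fin 3, ∀ z ∈ ball (0 : ℂ) ρ, ‖lw (w3 (a z) (b z) (c z) i)‖ ≤ Λ * ‖z‖) →
    -- the window, the row with the string, the environment
    ∀ (D : HWin) (O : HOut D) (S : Slit D) (X : Env) (W : Finset (ℤ × ℤ)) (em ct : ℤ × ℤ) (L : ℤ),
    SX S (CPHs D S.τ) O.Wo X W → SlitEnv S X W ∅ em → OutZ S X em ct → SizeH D S A s R L →
    (tsys D S.τ (TG D S.τ)).Away L (lab ct) →
    -- the weights of the labels
    ∀ q : ℂ → ℤ × ℤ → ℂ, (∀ z, QX S (CPHs D S.τ) (a z) (b z) (c z) (q z)) →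
    (∀ z, a2q (ls S) (q z) = fun _ => zt ^ (4 : ℤ)) →
    (∀ z, b2q (ls S) (q z) = fun _ => zt ^ (-4 : ℤ)) →
    ‖iteratedDeriv μ (fun z => α z * Gz X (q z) (lt (S.xs, S.y0)) ct) 0‖ ≤
      Dd * R ^ ((2 / 3 : ℝ) * μ + ((2 / 5 : ℝ) - 2 / 3 * e0)) ∧
    ‖iteratedDeriv μ (fun z => α (z * (R ^ (-(2 / 3) : ℝ) : ℝ)) *
      Gz X (q (z * (R ^ (-(2 / 3) : ℝ) : ℝ))) (lt (S.xs, S.y0)) ct) 0‖ ≤
      Dd * R ^ ((2 / 5 : ℝ) - 2 / 3 * e0) := by
  have hfb := fun m : ℕ => fbX_out Pool.Agent.Q1.M6c.ap_planeK m s (A + 1) ((A : ℤ) + 6) (by omega)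
  choose Cf hCf0 hCf using hfb
  have hA0 : (0 : ℤ) ≤ (A : ℤ) * A := by positivity
  obtain ⟨Dd, hD0, hD⟩ := tay_slit hρ hΛ hB (3844 * (s + 4)) (2 * (s + 4)) (A + 1)
    (fun _ => (A : ℤ) * A + 20) (fun p => Cf p.1) (fun _ => by omega)
    (fun p => hCf0 p.1) (2 / 5) e0 μ
  refine ⟨Dd, hD0, ?_⟩
  intro R hR α a b c hα ha hb hc hαb habc hκb hlamb D O S X W em ct L hX hE hZ hS hct q hq hqa hqb
  -- numbers
  have L1 := hS.L1
  have n1 := S.N_eq
  have r2 := S.r2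
  have up := S.up
  have p1 := S.p_le
  have q1 := S.le_q
  have s1 := S.s1
  have s2 := S.s2
  have hrn : ((S.r.toNat : ℕ) : ℤ) = S.r := Int.toNat_of_nonneg (by omega)
  have hLw : S.r ≤ D.w - D.lo := by
    have h1 := S.fl S.x1 le_rfl (by omega)
    have h2 := D.hlo S.x1 p1 (by omega)
    omega
  have hhw : 0 ≤ D.w - D.lo := by omega
  have hAR : ∀ n : ℤ, ((n : ℤ) : ℝ) ≤ A * R → ((n + 1 : ℤ) : ℝ) ≤ ((A + 1 : ℕ) : ℝ) * R := by
    intro n hn
    push_cast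
    nlinarith
  set M0 : ℤ := max (D.q - D.p) (D.w - D.lo) with hM0
  have hM1 : D.q - D.p ≤ M0 := le_max_left _ _
  have hM2 : D.w - D.lo ≤ M0 := le_max_right _ _
  have hM3 : ((M0 : ℤ) : ℝ) ≤ A * R := by
    rw [hM0, Int.cast_max]
    exact max_le hS.wd hS.ht
  have hM4 : M0 ≤ (A : ℤ) * A * L := by
    have h1 : ((M0 : ℤ) : ℝ) ≤ A * (A * L) := hM3.trans (mul_le_mul_of_nonneg_left hS.RL
      (Nat.cast_nonneg _))
    have h2 : ((M0 : ℤ) : ℝ) ≤ (((A : ℤ) * A * L : ℤ) : ℝ) := by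
      push_cast
      linarith
    exact_mod_cast h2
  have hH := S.pos
  have hG := tlev_TG (D := D) (τ := S.τ)
  have hN := tsys_N hH hG hM1 hM2
  have hKL : ∀ g, ((tsys D S.τ (TG D S.τ)).N g : ℤ) < ((A : ℤ) * A + 20) * L := by
    intro g
    have h1 := hN g
    have h2 : ((A : ℤ) * A + 20) * L = (A : ℤ) * A * L + 20 * L := by ring
    omega
  haveI : Nonempty {g : ℤ // g ∈ TG D S.τ} := ⟨⟨D.p, hG.p⟩⟩
  have hOk : (tsys D S.τ (TG D S.τ)).Ok (ETH D S.τ (CPHs D S.τ)) (WTH D S.τ (CPHs D S.τ) O.Wo) L :=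
    tsys_ok O hH hG hS.fat le_rfl (cphs_mem hH) fun k hk => (mem_CPHs hH).2 hk
  have hL2 : L < 2 * L + 2 := by omega
  refine hD R hR α a b c hα ha hb hc hαb habc hκb hlamb D O S (CPHs D S.τ) (cphs_mem hH) X W hX
    (tsys D S.τ (TG D S.τ)) L M0.toNat ?_ hOk (away_exl S hS.fat hG hL2) (ticap_tsys hH hG) ?_ ?_
    (reg_bkz S hS.fat hG hL2 hS.xl hS.xr) ?_ ct ?_ hct _ _ ?_ q hq
    hqa hqb
  · rw [rh_card]
    have h1 := TG_slit S
    have h2 := hS.few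
    omega
  · intro g
    have := hN g
    omega
  · have h1 := hAR M0 hM3
    have h2 : ((M0.toNat : ℕ) : ℤ) = M0 := Int.toNat_of_nonneg (by omega)
    calc ((M0.toNat + 1 : ℕ) : ℝ) = (((M0.toNat : ℕ) : ℤ) : ℝ) + 1 := by push_cast; ring
      _ = ((M0 + 1 : ℤ) : ℝ) := by rw [h2]; push_cast; ring
      _ ≤ _ := h1
  · refine (cs_slit S fun k hk => (mem_CPHs hH).2 hk).trans ?_
    have h2 := hS.few
    omega
  · exact away_rootT hH hG hS.fat hL2 fun x y h => hE.root x y h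
  · intro m l _
    refine ⟨hKL, ?_⟩
    have hJc : ((stp D).image fun x => x - 1).card ≤ s := card_image_le.trans hS.few
    refine hCf m S X W em ct _ R hE (jmp_stp D) hJc hZ _ _ _ _ l ?_ hR ?_ ?_ ?_ ?_
    · intro v hv
      have hv' := (mem_powersetCard.1 hv).1
      exact ⟨sepZ_tsys S hS.fat hG hL2 hOk (by omega) hKL hv' (Or.inl rfl),
        sepZ_tsys S hS.fat hG hL2 hOk (by omega) hKL hv' (Or.inr rfl)⟩
    · have h1 : ((S.x2 - S.x1 : ℤ) : ℝ) ≤ A * R := by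
        refine le_trans ?_ hS.wd
        exact_mod_cast (by omega : S.x2 - S.x1 ≤ D.q - D.p)
      have h2 := hAR _ h1
      calc ((S.N + 1 : ℕ) : ℝ) = (((S.N : ℕ) : ℤ) : ℝ) + 1 := by push_cast; ring
        _ = ((S.x2 - S.x1 + 1 : ℤ) : ℝ) := by rw [n1]; push_cast; ring
        _ ≤ _ := h2
    · have h1 : ((S.r : ℤ) : ℝ) ≤ A * R := by
        refine le_trans ?_ hS.ht
        exact_mod_cast hLw
      have h2 := hAR _ h1
      push_cast at h2 ⊢
      linarith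
    · have h3 := hS.rr
      have h5 : ((A : ℤ) + 1) * S.r = A * S.r + S.r := by ring
      push_cast
      rw [h5]
      omega
    · have h3 := hS.rr
      have h4 : ((A : ℤ) + 6) * (S.r + 1) = A * S.r + A + 6 * S.r + 6 := by ring
      omega

/-- the target outside of the box -/
theorem away_ct (S : Slit D) {A s : ℕ} {R : ℝ} (hS : SizeH D S A s R L) {e : ℤ × ℤ} (h : e ∉ D.GA) :
    (tsys D S.τ (TG D S.τ)).Away L e :=
  away_GA S.pos tlev_TG hS.fat (by have := hS.L1; omega) h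

end Pool.Agent.H76.W
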