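import Mathlib
import Pool.Agent.H85.W.RtS
import Pool.Agent.H25.W.Ident
import Pool.Agent.H81.W.OutZ
import Pool.Agent.H76.W.SlitZ

set_option autoImplicit false
open Finset

/-! # The root of the row with a string in the rotated window

`fw_rot` : the walks `Fw` of the vertical frame, rotated. `rootS_gen` : the root corner lies on the wire of the
outer end of the string, for every environment whose labels above the string are the ones of the outside of
helper85. `rootS_XTH` : the tied environment, `e = 0`. -/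

namespace Pool.Agent.H76.W

open Pool.Agent.H75.Perc hiding AR VV
open Pool.Agent.H75.TwoArm hiding EF
open Pool.Agent.Q1 Pool.Agent.H33.Q1
open Pool.Agent.H54.W
open Pool.Agent.H54.W.HWin hiding wA RS
open Pool.Agent.H42.Sp (Sd Ix kt rt OTp)
open Pool.Agent.H74.R45 (exists_lt he ve)
open Pool.Agent.H30.Mid (uc ui uc_N pr0_lbt_true pr0_lbt_false)
open Pool.Agent.H69.M6b (lbt pr0)
open Pool.Agent.H30.W (Slit)
open Pool.Agent.H81.W (RootS zq)
open Pool.Agent.H85.W (Fw Rt mem_Rt Wall wall_WJ rts_w rts_b rtW BP ow Wo full_WJ x2_par)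
open Pool.Agent.H20.W (Th)
open Pool.Agent.H25.W (mem_rotL)

/-! ### Rotation of the walks -/

/-- labels of the tiles with ordinate `≥ m` -/
def Up (m : ℤ) : Set (ℤ × ℤ) := {e | (e.1 + e.2) % 2 = 1 ∧ m ≤ (tt e).2}

lemma mem_Up {m x y : ℤ} : lt (x, y) ∈ Up m ↔ m ≤ y := by
  unfold Up
  rw [Set.mem_ofPred_eq, tt_lt]
  exact ⟨fun h => h.2, fun h => ⟨lt_odd _, h⟩⟩

/-- the rotated walk -/
theorem fw_rot {L : Finset (ℤ × ℤ)} {m : ℤ} {c c' : ℤ × ℤ} (h : Fw L (Rt m) c c') :
    Fw (L.map rotL) (Up m) (rotc c) (rotc c') := by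
  obtain ⟨n, h1, h2⟩ := h
  refine ⟨n, ?_, fun i hi => ?_⟩
  · rw [Pool.Agent.H75.TwoArm.SymmAux.nx_rot_iter, h1]
  · rw [Pool.Agent.H75.TwoArm.SymmAux.nx_rot_iter, Pool.Agent.H75.TwoArm.SymmAux.lab_rot]
    have h3 := h2 i hi
    have h4 : ((lab ((nx L)^[i] c)).1 + (lab ((nx L)^[i] c)).2) % 2 = 1 := lab_odd _
    obtain ⟨x, y, h5⟩ := exists_lt h4
    rw [h5, Pool.Agent.H25.W.rotL_lt, mem_Up]
    rw [h5, mem_Rt] at h3
    exact h3

/-- the corner of the outer end -/
lemma rotc_ve (x y : ℤ) : rotc (ve (x, y)) = he (-y - 1, x) := by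
  unfold rotc ve he
  refine Prod.ext ?_ ?_ <;> simp only <;> ring

/-! ### The root -/

/-- **The colours around the exit**, in the vertical frame: the string ends at the column `m`. -/
structure ExitC {C : CD} {c0 : Bool} (θ : Th C c0) (B : BP C c0) (D : Win) (f : ℤ → ℤ → Bool)
    (m : ℤ) : Prop where
  hin : ∀ x y, D.InZ x y → (ow θ B).Box x y
  le : m ≤ B.X2
  par : (B.X2 - m) % 2 = 0
  hd : ∀ y, 0 ≤ y → y < B.r → D.cr y = c0
  hu : ∀ y, B.r < y → y < D.h → D.cr y = !c0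
  fd : ∀ x, D.w < x → x < B.X2 → f x (B.r - 1) = c0
  fu : ∀ x, D.w < x → x < B.X2 → f x (B.r + 1) = !c0

variable {C : CD} {c0 : Bool} {θ : Th C c0} {B : BP C c0} {D : Win} {f : ℤ → ℤ → Bool}

/-- **The root corner lies on the wire of the outer end of the string.** -/
theorem rootS_gen {X : Env} {W' : Finset (ℤ × ℤ)} (S : Slit D.toH) (h : ExitC θ B D f (D.w + S.e))
    (hxs : S.xs = -B.r - 1) (hout : ∀ c, X.out c = nx W' c) (hc : X.c0 = rotc (rtW B))
    (hE : ∀ x y, D.w + S.e ≤ y → lt (x, y) ∉ X.E)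
    (hW : ∀ x y, D.w + S.e ≤ y →
      (lt (x, y) ∈ W' ↔ lt (x, y) ∈ (D.WJ (fun _ => D.w) (Wo θ B D f)).map rotL)) :
    RootS X (zq S.M S.x1 S.y0 S.c0) := by
  have s1 := S.s1
  have s2 := S.s2
  have hp : -D.h ≤ S.x1 := S.p_le
  have hq : S.x2 ≤ 0 := S.le_q
  have m1 : (S.M : ℤ) = D.w - 1 - S.y0 + S.e := S.M_eq
  have xe := S.xs_eq
  have hw : Wall B (D.w + S.e) (D.WJ (fun _ => D.w) (Wo θ B D f)) :=
    wall_WJ h.hin (Pool.Agent.H54.W.pos_right D) (by omega) h.le h.par (by omega) (by omega)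
      h.hd h.hu h.fd h.fu
  have hfull : (ow θ B).Full (D.WJ (fun _ => D.w) (Wo θ B D f)) := by
    have := full_WJ (f := f) h.hin (fun _ => D.w) (ω := ∅) (empty_subset _)
    rwa [empty_union] at this
  have hcg : ∀ e ∈ Up (D.w + S.e), e ∈ (D.WJ (fun _ => D.w) (Wo θ B D f)).map rotL ↔ e ∈ W' := by
    rintro e ⟨h1, h2⟩
    obtain ⟨x, y, rfl⟩ := exists_lt h1
    rw [tt_lt] at h2
    exact (hW x y h2).symm
  have hoi : X.out = nx W' := funext hout
  have huc : uc (zq S.M S.x1 S.y0 S.c0) = rotc (ve (D.w + S.e, B.r)) := by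
    unfold zq
    rw [uc_N, rotc_ve, xe, hxs]
    congr 2
    omega
  have hEU : ∀ e ∈ Up (D.w + S.e), e ∉ X.E := by
    rintro e ⟨h1, h2⟩
    obtain ⟨x, y, rfl⟩ := exists_lt h1
    rw [tt_lt] at h2
    exact hE x y h2
  have hpar := h.par
  unfold RootS
  rw [hoi, hc, huc]
  rcases (Bool.eq_false_or_eq_true c0).symm with hc0 | hc0
  · right
    have h1 := (x2_par (B := B)).1 hc0
    obtain ⟨n, h2, h3⟩ := (fw_rot (rts_w hfull hw hc0)).congr hcg
    refine ⟨?_, n, h2, fun i hi => hEU _ (h3 i hi)⟩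
    unfold ui zq
    simp only
    rw [xe, pr0_lbt_true.2 (by omega)]
    rfl
  · left
    have h1 := (x2_par (B := B)).2 hc0
    obtain ⟨n, h2, h3⟩ := (fw_rot (rts_b hfull hw hc0)).congr hcg
    refine ⟨?_, n, h2, fun i hi => hEU _ (h3 i hi)⟩
    unfold ui zq
    simp only
    rw [xe, pr0_lbt_false.2 (by omega)]
    rfl

/-! ### The labels above the window -/

section up

variable {E : HWin} {τ : ℤ → ℤ} {x y : ℤ} {P : Finset Ix}

/-- no random label above the window -/
lemma up_not_EH (H : HPos E τ) (h : E.w ≤ y) : lt (x, y) ∉ E.EH τ := fun h1 => by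
  have := ((mem_EH H).1 h1).z H
  omega

/-- the open labels of the window in the ceiling -/
lemma up_WR (H : HPos E τ) (h : E.w ≤ y) :
    lt (x, y) ∈ E.WR τ ↔ E.InZ x y ∧ E.fill x y = true := by
  have hh := E.hh
  rw [HWin.mem_WR]
  have n1 : ¬ E.InE τ x y := fun h1 => by
    have := h1.z H
    omega
  have n2 : ¬ E.TA τ x y := by
    rintro (⟨h1, h2, h3, h4⟩ | ⟨h1, h4⟩)
    · have := H.hi (x - 1) (by omega) (by omega)
      omega
    · have := H.hi (E.q - 1) (by omega) (by omega)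
      omega
  have n3 : ¬ E.TB τ x y := by
    rintro (⟨h1, h2, h3, h4⟩ | ⟨h1, h4⟩)
    · have := H.hi (x + 1) (by omega) (by omega)
      omega
    · have := H.hi E.p (by omega) (by omega)
      omega
  unfold InO
  tauto

/-- the open labels above the window do not depend on the position of the line -/
lemma up_WTH (H : HPos E τ) (O : HOut E) (hP : ∀ k ∈ P, CPH E τ k) {τ' : ℤ → ℤ} (H' : HPos E τ')
    (h : E.w ≤ y) : lt (x, y) ∈ WTH E τ P O.Wo ↔ lt (x, y) ∈ E.WH τ' O.Wo := by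
  unfold WTH WH
  rw [mem_union, mem_union, mem_union, up_WR H h, up_WR H' h]
  constructor
  · rintro (h1 | h1)
    · exact h1
    · exact absurd (OTp_subH H O hP h1) (up_not_EH H h)
  · exact Or.inl

end up

/-- **The root of the environment of the row with the string**, both parities. -/
theorem rootS_SX (S : Slit D.toH) (h : ExitC θ B D f (D.w + S.e)) (hxs : S.xs = -B.r - 1)
    (O' : HOut D.toH) (hW : O'.Wo = (Wo θ B D f).map rotL) (hc : O'.c0 = rotc (rtW B))
    {P : Finset Ix} (hP : ∀ k ∈ P, CPH D.toH S.τ k) {X : Env} {W : Finset (ℤ × ℤ)}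
    (hX : SX S P O'.Wo X W) (hout : ∀ c, X.out c = nx W c) (hXc : X.c0 = O'.c0)
    (hx : S.e = 0 → (exl S ∈ W ↔ exl S ∈ WTH D.toH S.τ P O'.Wo)) :
    RootS X (zq S.M S.x1 S.y0 S.c0) := by
  have ew : D.toH.w = D.w := rfl
  refine rootS_gen (W' := W) (f := f) S h hxs hout (hXc.trans hc) (fun x y hy h1 => ?_) fun x y hy => ?_
  · rcases (hX.E _).1 h1 with h2 | ⟨h2, h3⟩
    · exact up_not_EH S.pos (by omega) (ETH_sub h2)
    · have h4 := lt_inj h3
      simp only [Prod.mk.injEq] at h4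
      omega
  · have h1 : lt (x, y) ∈ W ↔ lt (x, y) ∈ WTH D.toH S.τ P O'.Wo := by
      by_cases h2 : lt (x, y) = exl S
      · rw [h2]
        refine hx ?_
        have h4 := lt_inj h2
        simp only [Prod.mk.injEq] at h4
        omega
      · exact hX.W _ h2
    rw [h1, up_WTH S.pos O' hP (Win.pos_toH (pos_right D)) (by omega), ← Pool.Agent.H25.W.WH_toH hW]

/-- **The root of the tied environment**, `e = 0`. -/
theorem rootS_XTH (S : Slit D.toH) (he : S.e = 0) (h : ExitC θ B D f D.w) (hxs : S.xs = -B.r - 1)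
    (O' : HOut D.toH) (hW : O'.Wo = (Wo θ B D f).map rotL) (hc : O'.c0 = rotc (rtW B))
    {P : Finset Ix} (hP : ∀ k ∈ P, CPH D.toH S.τ k) :
    RootS (XTH O' S.pos P hP) (zq S.M S.x1 S.y0 S.c0) := by
  have e0 : D.w + (S.e : ℤ) = D.w := by rw [he]; simp
  exact rootS_SX (f := f) S (by rw [e0]; exact h) hxs O' hW hc hP (sx_XTH he O' hP) (fun _ => rfl) rfl
    fun _ => Iff.rfl

end Pool.Agent.H76.W
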