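import Mathlib
import Pool.Agent.H76.W.RootH
import Pool.Agent.H93.W.VBridge
import Pool.Agent.H20.W.SDef

set_option autoImplicit false
open Finset

/-! # The colours around the exit for the coarse windows

`exitC_win` : the hypotheses `ExitC` for the windows `C.win n he h8 cr`, the right wall of the colour `c0` below
the row `r`, `!c0` above, arbitrary at the row `r`. `fill_win` : the colours of the window between the boxes. -/

namespace Pool.Agent.H76.W

open Pool.Agent.Q1 Pool.Agent.H33.Q1
open Pool.Agent.H54.W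
open Pool.Agent.H85.W (BP ow)
open Pool.Agent.H20.W (Th crz)

variable {C : CD} {c0 : Bool} {θ : Th C c0} {B : BP C c0} {f : ℤ → ℤ → Bool}

/-- the colours of the window to the right of the right wall -/
theorem fill_win (C : CD) {n : ℤ} (he : n % 2 = 0) (h8 : 8 ≤ n) (cr : ℤ → Bool) {x y : ℤ}
    (hx : n * C.W < x) (h0 : 0 ≤ y) (h1 : y < n * C.H) : (C.win n he h8 cr).fill x y = cr y := by
  have h2 := (C.win n he h8 cr).aw y h0 h1
  change C.wa n y + 2 ≤ n * C.W at h2
  unfold Win.fill
  change (if y < 0 then C.CB else if n * C.H ≤ y then C.CT else if x < C.wa n y then _ else cr y) = _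
  rw [if_neg (by omega), if_neg (by omega), if_neg (by omega)]

/-- **The colours around the exit.** -/
theorem exitC_win {cr : ℤ → Bool} (hcr : ∀ y, y ≠ B.r → cr y = crz c0 B.r y)
    (hf : ∀ x y, B.n * C.W < x → 0 ≤ y → y < B.n * C.H → y ≠ B.r → f x y = crz c0 B.r y)
    (hin : ∀ x y, (C.win B.n B.he B.hn cr).InZ x y → (ow θ B).Box x y) {e : ℕ} (e1 : e ≤ 1)
    (hp : (B.X2 - (B.n * C.W + e)) % 2 = 0) :
    ExitC θ B (C.win B.n B.he B.hn cr) f ((C.win B.n B.he B.hn cr).w + e) where
  hin := hin
  le := by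
    change B.n * C.W + (e : ℤ) ≤ B.X2
    have := B.x2
    omega
  par := hp
  hd y h0 h1 := by
    change cr y = c0
    rw [hcr y (by omega)]
    unfold crz
    rw [if_pos h1]
  hu y h0 h1 := by
    change cr y = !c0
    rw [hcr y (by omega)]
    unfold crz
    rw [if_neg (by omega)]
  fd x h0 h1 := by
    have r0 := B.r0
    have r1 := B.r1
    rw [hf x _ h0 (by omega) (by omega) (by omega)]
    unfold crz
    rw [if_pos (by omega)]
  fu x h0 h1 := by
    have r0 := B.r0
    have r1 := B.r1
    rw [hf x _ h0 (by omega) (by omega) (by omega)]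
    unfold crz
    rw [if_neg (by omega)]

/-- **The colours around the exit**, `f` : the colours of the window with a wall of two colours. -/
theorem exitC_fill {cr : ℤ → Bool} (hcr : ∀ y, y ≠ B.r → cr y = crz c0 B.r y) (cr' : ℤ → Bool)
    (hcr' : ∀ y, y ≠ B.r → cr' y = crz c0 B.r y)
    (hin : ∀ x y, (C.win B.n B.he B.hn cr).InZ x y → (ow θ B).Box x y) {e : ℕ} (e1 : e ≤ 1)
    (hp : (B.X2 - (B.n * C.W + e)) % 2 = 0) :
    ExitC θ B (C.win B.n B.he B.hn cr) (C.win B.n B.he B.hn cr').fill
      ((C.win B.n B.he B.hn cr).w + e) :=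
  exitC_win hcr (fun x y h1 h2 h3 h4 => by rw [fill_win C B.he B.hn cr' h1 h2 h3, hcr' y h4]) hin e1 hp

end Pool.Agent.H76.W
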